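import Pool.Agent.K3h63.CC.Grad

/-!
# Consequences of the commutation with derivations
-/

set_option autoImplicit false
set_option linter.unusedSectionVars false
set_option linter.unusedSimpArgs false
set_option backward.isDefEq.respectTransparency false
set_option backward.defeqAttrib.useBackward true

open CategoryTheory Limits MonoidalCategory
open Pool.Agent.Y112.SR Pool.Agent.Y112.KD Pool.Agent.Y112.SC

namespace Pool.Agent.K3h63.CC

universe v u w

open Functor.LaxMonoidal Functor.OplaxMonoidal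

section

variable {C : Type u} [Category.{v} C] [Preadditive C] [MonoidalCategory C] [SymmetricCategory C]
  {K : Type w} [Field K] [CharZero K] {R : SuperRealisation C K}
  (G : Grading R)

lemma diag_mul {V : ModuleCat.{w} K} {ι : Type} [Fintype ι] (e : ι → (V ⟶ V))
    (he : ∀ k, e k ≫ e k = e k) (heo : ∀ k l, k ≠ l → e k ≫ e l = 0) (c d : ι → ℚ) :
    (∑ k, (c k : K) • e k) ≫ (∑ k, (d k : K) • e k) = ∑ k, ((c k * d k : ℚ) : K) • e k := by
  classical
  rw [Preadditive.sum_comp]
  refine Finset.sum_congr rfl fun k _ => ?_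
  rw [Linear.smul_comp, Preadditive.comp_sum, Finset.sum_eq_single k]
  · rw [Linear.comp_smul, he, smul_smul, Rat.cast_mul]
  · intro l _ hl
    rw [Linear.comp_smul, heo k l (Ne.symm hl), smul_zero]
  · intro h
    exact absurd (Finset.mem_univ k) h

/-- A common diagonalisation of the derivations attached to diagonal operators. -/
lemma Grading.fam (X : C) (n : ℕ) : ∃ (ι : Type) (_ : Fintype ι)
    (e : ι → (R.H.obj (tp X n) ⟶ R.H.obj (tp X n))) (lam : ι → (ℤ → ℚ) → ℚ),
    (∀ k, e k ≫ e k = e k) ∧ (∀ k l, k ≠ l → e k ≫ e l = 0) ∧ (∑ k, e k = 𝟙 _) ∧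
    (∀ z, der R false (G.th X z) n = ∑ k, (lam k z : K) • e k) ∧
    (∀ k z, (∀ i, 0 ≤ z i) → 0 ≤ lam k z) := by
  classical
  induction n with
  | zero =>
    refine ⟨Unit, inferInstance, fun _ => 𝟙 _, fun _ _ => 0, fun _ => Category.comp_id _,
      fun k l h => absurd (Subsingleton.elim k l) h, by simp, fun z => ?_, fun _ _ _ => le_rfl⟩
    rw [der_zero]
    simp
  | succ n ih =>
    obtain ⟨ι, hι, e, lam, he, heo, h1, h2, h3⟩ := ih
    refine ⟨ι × {i : ℤ // i ∈ G.supp X}, inferInstance,
      fun k => bx R (Q := tp X n) (X := X) (e k.1) (G.pr X k.2.1),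
      fun k z => lam k.1 z + z k.2.1, fun k => ?_, fun k l h => ?_, ?_, fun z => ?_,
      fun k z hz => add_nonneg (h3 _ _ hz) (hz _)⟩
    · rw [bx_comp, he, G.idem]
    · rw [bx_comp]
      by_cases hk : k.1 = l.1
      · have hk' : k.2.1 ≠ l.2.1 := by
          intro h'
          apply h
          exact Prod.ext hk (Subtype.ext h')
        rw [G.orth X _ _ hk', bx_zero_right]
      · rw [heo _ _ hk, bx_zero_left]
    · rw [Fintype.sum_prod_type]
      have h4 : ∀ k, ∑ i : {i : ℤ // i ∈ G.supp X}, bx R (Q := tp X n) (X := X) (e k)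
          (G.pr X i.1) = bx R (e k) (𝟙 _) := by
        intro k
        rw [← G.sum_supp X, ← bx_sum_right]
        exact Finset.sum_coe_sort (G.supp X) (fun i => bx R (Q := tp X n) (X := X) (e k)
          (G.pr X i))
      simp only [h4]
      rw [bx_sum_left, h1, bx_one]
    · rw [der_succ, h2, sg_false, Fintype.sum_prod_type]
      have h4 : ∀ k, ∑ i : {i : ℤ // i ∈ G.supp X}, ((lam k z + z i.1 : ℚ) : K) •
          bx R (Q := tp X n) (X := X) (e k) (G.pr X i.1) =
          (lam k z : K) • bx R (e k) (𝟙 _) + bx R (e k) (G.th X z) := by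
        intro k
        rw [Finset.sum_coe_sort (G.supp X) (fun i => ((lam k z + z i : ℚ) : K) •
          bx R (Q := tp X n) (X := X) (e k) (G.pr X i))]
        simp only [Rat.cast_add, add_smul, Finset.sum_add_distrib]
        congr 1
        · rw [← Finset.smul_sum, bx_sum_right, G.sum_supp]
        · rw [Grading.th, ← bx_sum_right]
          refine Finset.sum_congr rfl fun i _ => ?_
          rw [bx_smul_right]
      simp only [h4]
      rw [Finset.sum_add_distrib, bx_sum_left, h1]
      congr 1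
      rw [← bx_sum_left]
      refine Finset.sum_congr rfl fun i _ => ?_
      rw [bx_smul_left]

/-- The dimensions of the graded pieces. -/
lemma Grading.dim (X : C) (i : ℤ) : ∃ b : ℕ, tr _ (G.pr X i) = b ∧ (b = 0 → G.pr X i = 0) :=
  tr_idem (R.finite X) _ (G.idem X i)

end

section

variable {C : Type u} [Category.{v} C] [Preadditive C] [MonoidalCategory C] [SymmetricCategory C]
  {K : Type w} [Field K] [CharZero K] {R : SuperRealisation C K}
  (G : Grading R) {X : C} {n : ℕ} {q : R.H.obj (tp X n) ⟶ R.H.obj (tp X n)}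

lemma par_of {s : Bool} {i j : ℤ} (hs : (s = false ∧ sgn i = sgn j) ∨ (s = true ∧ sgn i ≠ sgn j))
    (x : R.H.obj X ⟶ R.H.obj X) : IsPar R s (G.pr X i ≫ x ≫ G.pr X j) := by
  have h1 : (G.pr X i ≫ x ≫ G.pr X j) ≫ R.par X = (sgn j : K) • (G.pr X i ≫ x ≫ G.pr X j) := by
    rw [Category.assoc, Category.assoc, G.pr_par, Linear.comp_smul, Linear.comp_smul]
  have h2 : R.par X ≫ (G.pr X i ≫ x ≫ G.pr X j) = (sgn i : K) • (G.pr X i ≫ x ≫ G.pr X j) := by
    rw [← Category.assoc, G.par_pr, Linear.smul_comp]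
  rcases hs with ⟨rfl, h⟩ | ⟨rfl, h⟩
  · change _ ≫ _ = _ ≫ _
    rw [h1, h2, h]
  · change _ ≫ _ = -(_ ≫ _)
    rw [h1, h2]
    have h3 : sgn j = -sgn i := by
      rcases Int.even_or_odd i with hi | hi <;> rcases Int.even_or_odd j with hj | hj
      · exact absurd (by rw [sgn_even hi, sgn_even hj]) h
      · rw [sgn_even hi, sgn_odd hj]
      · rw [sgn_odd hi, sgn_even hj]; norm_num
      · exact absurd (by rw [sgn_odd hi, sgn_odd hj]) h
    rw [h3, Rat.cast_neg, neg_smul]

/-- If a diagonal derivation vanishes on the image of `q` then so do many other ones. -/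
lemma kill (hcomm : ∀ (s : Bool) (a : R.H.obj X ⟶ R.H.obj X), IsPar R s a →
      der R s a n ≫ q = q ≫ der R s a n) {z : ℤ → ℚ}
    (hz : q ≫ der R false (G.th X z) n = 0) {i j : ℤ} (hij : z i ≠ z j) :
    tr _ (G.pr X j) • (q ≫ der R false (G.pr X i) n) =
      ((sgn i * sgn j : ℚ) : K) • tr _ (G.pr X i) • (q ≫ der R false (G.pr X j) n) := by
  obtain ⟨κ, _, E, E', hE, hE'⟩ := sandwich (R.finite X)
  have hθ := G.th_isPar X z
  have hz' : der R false (G.th X z) n ≫ q = 0 := by rw [hcomm _ _ hθ, hz]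
  obtain ⟨s, hs⟩ : ∃ s : Bool, (s = false ∧ sgn i = sgn j) ∨ (s = true ∧ sgn i ≠ sgn j) := by
    by_cases h : sgn i = sgn j
    · exact ⟨false, Or.inl ⟨rfl, h⟩⟩
    · exact ⟨true, Or.inr ⟨rfl, h⟩⟩
  have hs' : (s = false ∧ sgn j = sgn i) ∨ (s = true ∧ sgn j ≠ sgn i) := by
    rcases hs with ⟨h, h'⟩ | ⟨h, h'⟩
    · exact Or.inl ⟨h, h'.symm⟩
    · exact Or.inr ⟨h, Ne.symm h'⟩
  -- the off-diagonal operators are killed
  have off : ∀ (i j : ℤ), z i ≠ z j → ((s = false ∧ sgn i = sgn j) ∨ (s = true ∧ sgn i ≠ sgn j)) →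
      ∀ x : R.H.obj X ⟶ R.H.obj X, q ≫ der R s (G.pr X i ≫ x ≫ G.pr X j) n = 0 := by
    intro i j hij hs x
    have ha := par_of G hs x
    set a := G.pr X i ≫ x ≫ G.pr X j with ha'
    have h1 : a ≫ G.th X z - G.th X z ≫ a = ((z j : K) - z i) • a := by
      have e1 : a ≫ G.th X z = (z j : K) • a := by
        rw [ha', Category.assoc, Category.assoc, G.pr_th, Linear.comp_smul, Linear.comp_smul]
      have e2 : G.th X z ≫ a = (z i : K) • a := by
        rw [ha', ← Category.assoc, G.th_pr, Linear.smul_comp]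
      rw [e1, e2, sub_smul]
    have h2 := der_comm R (s := s) (a := a) hθ n
    rw [h1, der_smul] at h2
    have h3 : ((z j : K) - z i) • (q ≫ der R s a n) = 0 := by
      rw [← Linear.comp_smul, h2, Preadditive.comp_sub, ← Category.assoc, ← hcomm s a ha,
        Category.assoc, hz, comp_zero, ← Category.assoc, hz, zero_comp, sub_zero]
    rcases smul_eq_zero.mp h3 with h4 | h4
    · exfalso
      apply hij
      have h5 : (z j : K) = (z i : K) := sub_eq_zero.mp h4
      exact (by exact_mod_cast h5 : z j = z i).symm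
    · exact h4
  have offa := fun x => off i j hij hs x
  have offb := fun x => off j i (Ne.symm hij) hs' x
  have s1 : ∑ k, (G.pr X i ≫ E k ≫ G.pr X j) ≫ (G.pr X j ≫ E' k ≫ G.pr X i) =
      tr _ (G.pr X j) • G.pr X i := by
    have e1 : ∀ k, (G.pr X i ≫ E k ≫ G.pr X j) ≫ (G.pr X j ≫ E' k ≫ G.pr X i) =
        G.pr X i ≫ (E k ≫ G.pr X j ≫ E' k) ≫ G.pr X i := by
      intro k
      simp only [Category.assoc]
      rw [← Category.assoc (G.pr X j) (G.pr X j), G.idem]
    simp only [e1]
    rw [← Preadditive.comp_sum, ← Preadditive.sum_comp, hE, Linear.smul_comp, Category.id_comp,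
      Linear.comp_smul, G.idem]
  have s2 : ∑ k, (G.pr X j ≫ E' k ≫ G.pr X i) ≫ (G.pr X i ≫ E k ≫ G.pr X j) =
      tr _ (G.pr X i) • G.pr X j := by
    have e1 : ∀ k, (G.pr X j ≫ E' k ≫ G.pr X i) ≫ (G.pr X i ≫ E k ≫ G.pr X j) =
        G.pr X j ≫ (E' k ≫ G.pr X i ≫ E k) ≫ G.pr X j := by
      intro k
      simp only [Category.assoc]
      rw [← Category.assoc (G.pr X i) (G.pr X i), G.idem]
    simp only [e1]
    rw [← Preadditive.comp_sum, ← Preadditive.sum_comp, hE', Linear.smul_comp, Category.id_comp,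
      Linear.comp_smul, G.idem]
  rcases hs with ⟨rfl, hsgn⟩ | ⟨rfl, hsgn⟩
  · have hsg : sgn i * sgn j = 1 := by rw [hsgn]; exact sgn_sq j
    rw [hsg, Rat.cast_one, one_smul, ← sub_eq_zero, ← Linear.comp_smul, ← Linear.comp_smul,
      ← Preadditive.comp_sub, ← der_smul, ← der_smul]
    have h5 : der R false (tr _ (G.pr X j) • G.pr X i) n -
        der R false (tr _ (G.pr X i) • G.pr X j) n =
        ∑ k, (der R false (G.pr X i ≫ E k ≫ G.pr X j) n ≫
          der R false (G.pr X j ≫ E' k ≫ G.pr X i) n -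
          der R false (G.pr X j ≫ E' k ≫ G.pr X i) n ≫
          der R false (G.pr X i ≫ E k ≫ G.pr X j) n) := by
      rw [← derL_apply, ← derL_apply, ← map_sub, ← s1, ← s2, ← Finset.sum_sub_distrib, map_sum]
      refine Finset.sum_congr rfl fun k _ => ?_
      rw [derL_apply, der_comm R (s := false) (a := G.pr X i ≫ E k ≫ G.pr X j)
        (par_of G (Or.inl ⟨rfl, hsgn.symm⟩) (E' k))]
    rw [h5, Preadditive.comp_sum]
    refine Finset.sum_eq_zero fun k _ => ?_
    rw [Preadditive.comp_sub, ← Category.assoc, offa, zero_comp, ← Category.assoc, offb,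
      zero_comp, sub_zero]
  · have hsg : sgn i * sgn j = -1 := by
      rcases Int.even_or_odd i with hi | hi <;> rcases Int.even_or_odd j with hj | hj
      · exact absurd (by rw [sgn_even hi, sgn_even hj]) hsgn
      · rw [sgn_even hi, sgn_odd hj]; norm_num
      · rw [sgn_odd hi, sgn_even hj]; norm_num
      · exact absurd (by rw [sgn_odd hi, sgn_odd hj]) hsgn
    rw [hsg, Rat.cast_neg, Rat.cast_one, neg_smul, one_smul, eq_neg_iff_add_eq_zero,
      ← Linear.comp_smul, ← Linear.comp_smul,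
      ← Preadditive.comp_add, ← der_smul, ← der_smul]
    have h5 : der R false (tr _ (G.pr X j) • G.pr X i) n +
        der R false (tr _ (G.pr X i) • G.pr X j) n =
        ∑ k, (der R true (G.pr X i ≫ E k ≫ G.pr X j) n ≫
          der R true (G.pr X j ≫ E' k ≫ G.pr X i) n +
          der R true (G.pr X j ≫ E' k ≫ G.pr X i) n ≫
          der R true (G.pr X i ≫ E k ≫ G.pr X j) n) := by
      rw [← derL_apply, ← derL_apply, ← map_add, ← s1, ← s2, ← Finset.sum_add_distrib, map_sum]
      refine Finset.sum_congr rfl fun k _ => ?_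
      rw [derL_apply, der_anti R (par_of G (Or.inr ⟨rfl, hsgn⟩) (E k))
        (par_of G (Or.inr ⟨rfl, Ne.symm hsgn⟩) (E' k))]
    rw [h5, Preadditive.comp_sum]
    refine Finset.sum_eq_zero fun k _ => ?_
    rw [Preadditive.comp_add, ← Category.assoc, offa, zero_comp, ← Category.assoc, offb,
      zero_comp, add_zero]

/-- The trace form of the image of `q`. -/
lemma omega (hcomm : ∀ (s : Bool) (a : R.H.obj X ⟶ R.H.obj X), IsPar R s a →
      der R s a n ≫ q = q ≫ der R s a n) {i j : ℤ} (hij : sgn i = sgn j) :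
    ∃ ω : K, ∀ z : ℤ → ℚ, tr _ (q ≫ der R false (G.th X z) n ≫
      (tr _ (G.pr X j) • der R false (G.pr X i) n - tr _ (G.pr X i) • der R false (G.pr X j) n)) =
      ((z i : K) - z j) * ω := by
  obtain ⟨κ, _, E, E', hE, hE'⟩ := sandwich (R.finite X)
  have s1 : ∑ k, (G.pr X i ≫ E k ≫ G.pr X j) ≫ (G.pr X j ≫ E' k ≫ G.pr X i) =
      tr _ (G.pr X j) • G.pr X i := by
    have e1 : ∀ k, (G.pr X i ≫ E k ≫ G.pr X j) ≫ (G.pr X j ≫ E' k ≫ G.pr X i) =
        G.pr X i ≫ (E k ≫ G.pr X j ≫ E' k) ≫ G.pr X i := by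
      intro k
      simp only [Category.assoc]
      rw [← Category.assoc (G.pr X j) (G.pr X j), G.idem]
    simp only [e1]
    rw [← Preadditive.comp_sum, ← Preadditive.sum_comp, hE, Linear.smul_comp, Category.id_comp,
      Linear.comp_smul, G.idem]
  have s2 : ∑ k, (G.pr X j ≫ E' k ≫ G.pr X i) ≫ (G.pr X i ≫ E k ≫ G.pr X j) =
      tr _ (G.pr X i) • G.pr X j := by
    have e1 : ∀ k, (G.pr X j ≫ E' k ≫ G.pr X i) ≫ (G.pr X i ≫ E k ≫ G.pr X j) =
        G.pr X j ≫ (E' k ≫ G.pr X i ≫ E k) ≫ G.pr X j := by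
      intro k
      simp only [Category.assoc]
      rw [← Category.assoc (G.pr X i) (G.pr X i), G.idem]
    simp only [e1]
    rw [← Preadditive.comp_sum, ← Preadditive.sum_comp, hE', Linear.smul_comp, Category.id_comp,
      Linear.comp_smul, G.idem]
  have h5 : tr _ (G.pr X j) • der R false (G.pr X i) n -
      tr _ (G.pr X i) • der R false (G.pr X j) n =
      ∑ k, (der R false (G.pr X i ≫ E k ≫ G.pr X j) n ≫
        der R false (G.pr X j ≫ E' k ≫ G.pr X i) n -
        der R false (G.pr X j ≫ E' k ≫ G.pr X i) n ≫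
        der R false (G.pr X i ≫ E k ≫ G.pr X j) n) := by
    rw [← der_smul, ← der_smul, ← derL_apply, ← derL_apply, ← map_sub, ← s1, ← s2,
      ← Finset.sum_sub_distrib, map_sum]
    refine Finset.sum_congr rfl fun k _ => ?_
    rw [derL_apply, der_comm R (s := false) (a := G.pr X i ≫ E k ≫ G.pr X j)
      (par_of G (Or.inl ⟨rfl, hij.symm⟩) (E' k))]
  refine ⟨∑ k, tr _ (q ≫ der R false (G.pr X i ≫ E k ≫ G.pr X j) n ≫
    der R false (G.pr X j ≫ E' k ≫ G.pr X i) n), fun z => ?_⟩
  rw [h5, Preadditive.comp_sum, Preadditive.comp_sum, map_sum, Finset.mul_sum]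
  refine Finset.sum_congr rfl fun k _ => ?_
  have ha : IsPar R false (G.pr X i ≫ E k ≫ G.pr X j) := par_of G (Or.inl ⟨rfl, hij⟩) (E k)
  set a := G.pr X i ≫ E k ≫ G.pr X j with ha'
  set b := G.pr X j ≫ E' k ≫ G.pr X i with hb'
  have h1 : a ≫ G.th X z - G.th X z ≫ a = ((z j : K) - z i) • a := by
    have e1 : a ≫ G.th X z = (z j : K) • a := by
      rw [ha', Category.assoc, Category.assoc, G.pr_th, Linear.comp_smul, Linear.comp_smul]
    have e2 : G.th X z ≫ a = (z i : K) • a := by
      rw [ha', ← Category.assoc, G.th_pr, Linear.smul_comp]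
    rw [e1, e2, sub_smul]
  have h2 := der_comm R (s := false) (a := a) (G.th_isPar X z) n
  rw [h1, der_smul] at h2
  have h3 : der R false a n ≫ der R false (G.th X z) n =
      der R false (G.th X z) n ≫ der R false a n + ((z j : K) - z i) • der R false a n := by
    rw [h2]
    abel
  have h4 : tr _ (q ≫ der R false (G.th X z) n ≫ der R false b n ≫ der R false a n) =
      tr _ (q ≫ der R false (G.th X z) n ≫ der R false a n ≫ der R false b n) +
        ((z j : K) - z i) * tr _ (q ≫ der R false a n ≫ der R false b n) := by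
    have e1 : q ≫ der R false (G.th X z) n ≫ der R false b n ≫ der R false a n =
        (q ≫ der R false (G.th X z) n ≫ der R false b n) ≫ der R false a n := by
      simp only [Category.assoc]
    have e2 : der R false a n ≫ (q ≫ der R false (G.th X z) n ≫ der R false b n) =
        q ≫ (der R false a n ≫ der R false (G.th X z) n) ≫ der R false b n := by
      rw [← Category.assoc, hcomm false a ha]
      simp only [Category.assoc]
    rw [e1, tr_swap, e2, h3, Preadditive.add_comp, Preadditive.comp_add, map_add,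
      Linear.smul_comp, Linear.comp_smul, map_smul, smul_eq_mul]
    simp only [Category.assoc]
  rw [Preadditive.comp_sub, Preadditive.comp_sub, map_sub, h4]
  ring

end

end Pool.Agent.K3h63.CC
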