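import Pool.Agent.Y112.SR.Defs

/-!
# The Künneth type standard conjecture for objects of a tensor category with a graded realisation
-/

set_option autoImplicit false

open CategoryTheory Limits MonoidalCategory

namespace Pool.Agent.K3h63.CC

open Pool.Agent.Y112.SR

universe v u w

section

variable {C : Type u} [Category.{v} C] [Preadditive C] [MonoidalCategory C] [SymmetricCategory C]
  {K : Type w} [Field K]

/-- A `ℤ`-grading `R.H X = ⨁ H^i X` of a super realisation, given by the projectors
`pr X i : H X ⟶ H X` onto `H^i X` with kernel `⨁_{j ≠ i} H^j X` (the Künneth projectors). Finitely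
many degrees occur in each `H X`, the morphisms of `C` respect the degrees, `H^i X` is even or odd
according to the parity of `i`, the unit object has degree `0`, and the tensor product of `H^i X`
and `H^j Y` lies in degree `i + j`. -/
structure Grading (R : SuperRealisation C K) where
  /-- the Künneth projectors -/
  pr (X : C) (i : ℤ) : R.H.obj X ⟶ R.H.obj X
  idem (X : C) (i : ℤ) : pr X i ≫ pr X i = pr X i
  orth (X : C) (i j : ℤ) (h : i ≠ j) : pr X i ≫ pr X j = 0
  complete (X : C) : ∃ s : Finset ℤ, ∑ i ∈ s, pr X i = 𝟙 _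
  natural {X Y : C} (f : X ⟶ Y) (i : ℤ) : R.H.map f ≫ pr Y i = pr X i ≫ R.H.map f
  even (X : C) (i : ℤ) (h : Even i) : pr X i ≫ R.par X = pr X i
  odd (X : C) (i : ℤ) (h : Odd i) : pr X i ≫ R.par X = -pr X i
  unit : pr (𝟙_ C) 0 = 𝟙 _
  tensor (X Y : C) (i j : ℤ) :
    (pr X i ⊗ₘ pr Y j) ≫ Functor.LaxMonoidal.μ R.H X Y ≫ pr (X ⊗ Y) (i + j) =
      (pr X i ⊗ₘ pr Y j) ≫ Functor.LaxMonoidal.μ R.H X Y

/-- A linear map between realisations is algebraic with coefficients in the subfield `L` of `K` if
it is an `L`-linear combination of realisations of morphisms of `C`. For `L = ⊤` this is the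
`K`-span of the algebraic classes, for `L = ⊥`, the prime field, these are the realisations of the
morphisms themselves. -/
def Algebraic (R : SuperRealisation C K) (L : Subfield K) {X Y : C}
    (x : R.H.obj X ⟶ R.H.obj Y) : Prop :=
  x ∈ AddSubgroup.closure {y : R.H.obj X ⟶ R.H.obj Y | ∃ c ∈ L, ∃ f : X ⟶ Y, y = c • R.H.map f}

/-- The Künneth type standard conjecture for `X`: all Künneth projectors are algebraic. -/
def Grading.KunnethC {R : SuperRealisation C K} (G : Grading R) (L : Subfield K) (X : C) : Prop :=
  ∀ i : ℤ, Algebraic R L (G.pr X i)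

/-- The realisation of `X` is concentrated in at most one degree. -/
def Grading.OneDegree {R : SuperRealisation C K} (G : Grading R) (X : C) : Prop :=
  ∃ d : ℤ, ∀ i : ℤ, i ≠ d → G.pr X i = 0

end

end Pool.Agent.K3h63.CC
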