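import Pool.Agent.K3h63.CC.Defs
import Pool.Agent.Y112.KD.Asym

/-!
# Twisted Schur functors
-/

set_option autoImplicit false

open CategoryTheory Limits MonoidalCategory

namespace Pool.Agent.K3h63.CC

open Pool.Agent.Y112.SR Pool.Agent.Y112.KD

universe v u w

section

variable {C : Type u} [Category.{v} C] [Preadditive C] [MonoidalCategory C] [SymmetricCategory C]

/-- `P`, with the inclusion `i` and the projection `r`, is a direct summand of
`(M ⊗ ⋯ ⊗ M) ⊗ N` (with `n` factors `M`), the idempotent of which lies in the `ℚ`-algebra generated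
by the exchanges of neighbouring factors `M` and by the endomorphisms of `N`. Examples: the Schur
functors of `M` (for `N = 𝟙_ C`); tensor products (for `n = 1`); tensor products of Schur functors
of several objects; the invariants of the symmetric group in `M ^ n ⊗ N` for an object `N` on which
it acts. -/
structure IsTwistedSchur [Linear ℚ C] {M N P : C} {n : ℕ} (i : P ⟶ tp M n ⊗ N)
    (r : tp M n ⊗ N ⟶ P) : Prop where
  split : i ≫ r = 𝟙 P
  mem : (r ≫ i : End (tp M n ⊗ N)) ∈ Algebra.adjoin ℚ
    ({f : End (tp M n ⊗ N) | ∃ t : tp M n ⟶ tp M n, IsSwap M n t ∧ f = t ▷ N} ∪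
      {f : End (tp M n ⊗ N) | ∃ g : N ⟶ N, f = tp M n ◁ g})

variable {K : Type w} [Field K]

/-- The total degree in the factors `M` is constant on `H P ⊆ (H M ⊗ ⋯ ⊗ H M) ⊗ H N`: for some `d`
the image of `H P` lies in the part in which the degree in `H M ⊗ ⋯ ⊗ H M` is `d`. For `N = 𝟙_ C`
this means that `H P` is concentrated in one degree. -/
def Grading.ConstantDegree {R : SuperRealisation C K} (G : Grading R) {M N P : C} {n : ℕ}
    (i : P ⟶ tp M n ⊗ N) : Prop :=
  ∃ d : ℤ, ∀ j : ℤ, j ≠ d → R.H.map i ≫ Functor.OplaxMonoidal.δ R.H (tp M n) N ≫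
    (G.pr (tp M n) j ▷ R.H.obj N) = 0

/-- The realisation of `M` has nonzero even and nonzero odd degrees. -/
def Grading.Mixed {R : SuperRealisation C K} (G : Grading R) (M : C) : Prop :=
  ∃ j k : ℤ, Even j ∧ Odd k ∧ G.pr M j ≠ 0 ∧ G.pr M k ≠ 0

end

end Pool.Agent.K3h63.CC
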