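import Pool.Agent.Y112.SC.Main

/-!
# Derivations of the realisations of tensor powers
-/

set_option autoImplicit false
set_option linter.unusedSectionVars false
set_option linter.unusedSimpArgs false
set_option backward.isDefEq.respectTransparency false
set_option backward.defeqAttrib.useBackward true

open CategoryTheory Limits MonoidalCategory
open Pool.Agent.Y112.SR Pool.Agent.Y112.KD Pool.Agent.Y112.SC

namespace Pool.Agent.K3h63.CC

universe v u w

open Functor.LaxMonoidal Functor.OplaxMonoidal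

section

variable {C : Type u} [Category.{v} C] [Preadditive C] [MonoidalCategory C] [SymmetricCategory C]
  {K : Type w} [Field K] (R : SuperRealisation C K)

/-- The identity or the involution. -/
def sg (s : Bool) (X : C) : R.H.obj X ⟶ R.H.obj X :=
  match s with
  | false => 𝟙 _
  | true => R.par X

lemma sg_false (X : C) : sg R false X = 𝟙 _ := rfl

lemma sg_true (X : C) : sg R true X = R.par X := rfl

/-- Operators of a given parity. -/
def IsPar (s : Bool) {X : C} (a : R.H.obj X ⟶ R.H.obj X) : Prop :=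
  match s with
  | false => a ≫ R.par X = R.par X ≫ a
  | true => a ≫ R.par X = -(R.par X ≫ a)

lemma bx_neg_left {Q X : C} (a : R.H.obj Q ⟶ R.H.obj Q) (b : R.H.obj X ⟶ R.H.obj X) :
    bx R (-a) b = -bx R a b := by
  have := bx_smul_left R (-1 : K) a b
  simpa using this

lemma bx_neg_right {Q X : C} (a : R.H.obj Q ⟶ R.H.obj Q) (b : R.H.obj X ⟶ R.H.obj X) :
    bx R a (-b) = -bx R a b := by
  have := bx_smul_right R (-1 : K) a b
  simpa using this

/-- The symmetry is natural with respect to even operators. -/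
lemma bx_braid_even (h2 : (2 : K) ≠ 0) {Q X : C} (b : R.H.obj Q ⟶ R.H.obj Q)
    (c : R.H.obj X ⟶ R.H.obj X)
    (hb : b ≫ R.par Q = R.par Q ≫ b) (hc : c ≫ R.par X = R.par X ≫ c) :
    bx R b c ≫ R.H.map (β_ Q X).hom = R.H.map (β_ Q X).hom ≫ bx R c b := by
  have h3 : (b ⊗ₘ c) ≫ (𝟙 _ + R.par Q ▷ R.H.obj X + R.H.obj Q ◁ R.par X - (R.par Q ⊗ₘ R.par X)) =
      (𝟙 _ + R.par Q ▷ R.H.obj X + R.H.obj Q ◁ R.par X - (R.par Q ⊗ₘ R.par X)) ≫ (b ⊗ₘ c) := by
    simp only [Preadditive.sub_comp, Preadditive.add_comp, Preadditive.comp_sub,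
      Preadditive.comp_add, Category.id_comp, Category.comp_id, ← tensorHom_id, ← id_tensorHom,
      tensorHom_comp_tensorHom, hb, hc]
  have h4 : (2 : K) • ((b ⊗ₘ c) ≫ μ R.H Q X ≫ R.H.map (β_ Q X).hom) =
      (2 : K) • (μ R.H Q X ≫ R.H.map (β_ Q X).hom ≫ δ R.H X Q ≫ (c ⊗ₘ b) ≫ μ R.H X Q) := by
    rw [← Linear.comp_smul, R.symm, ← Category.assoc (b ⊗ₘ c), h3, Category.assoc,
      BraidedCategory.braiding_naturality_assoc]
    have h5 : (2 : K) • (μ R.H Q X ≫ R.H.map (β_ Q X).hom ≫ δ R.H X Q ≫ (c ⊗ₘ b) ≫ μ R.H X Q) =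
        ((2 : K) • (μ R.H Q X ≫ R.H.map (β_ Q X).hom)) ≫ δ R.H X Q ≫ (c ⊗ₘ b) ≫ μ R.H X Q := by
      rw [Linear.smul_comp, Category.assoc]
    rw [h5, R.symm]
    simp only [Category.assoc, Functor.Monoidal.μ_δ_assoc]
  have h5 := congrArg (fun z => (2 : K)⁻¹ • z) h4
  simp only [smul_smul, inv_mul_cancel₀ h2, one_smul] at h5
  rw [bx, Category.assoc, Category.assoc, h5, bx, Functor.Monoidal.δ_μ_assoc]

/-- A criterion for commutation with the symmetry. -/
lemma bx_braid_of (h2 : (2 : K) ≠ 0) {X : C} (b c b' c' : R.H.obj X ⟶ R.H.obj X)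
    (h3 : (b ⊗ₘ c) ≫ (𝟙 _ + R.par X ▷ R.H.obj X + R.H.obj X ◁ R.par X - (R.par X ⊗ₘ R.par X)) =
      (𝟙 _ + R.par X ▷ R.H.obj X + R.H.obj X ◁ R.par X - (R.par X ⊗ₘ R.par X)) ≫ (b' ⊗ₘ c')) :
    bx R b c ≫ R.H.map (β_ X X).hom = R.H.map (β_ X X).hom ≫ bx R c' b' := by
  have h4 : (2 : K) • ((b ⊗ₘ c) ≫ μ R.H X X ≫ R.H.map (β_ X X).hom) =
      (2 : K) • (μ R.H X X ≫ R.H.map (β_ X X).hom ≫ δ R.H X X ≫ (c' ⊗ₘ b') ≫ μ R.H X X) := by
    rw [← Linear.comp_smul, R.symm, ← Category.assoc (b ⊗ₘ c), h3, Category.assoc,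
      BraidedCategory.braiding_naturality_assoc]
    have h5 : (2 : K) • (μ R.H X X ≫ R.H.map (β_ X X).hom ≫ δ R.H X X ≫ (c' ⊗ₘ b') ≫ μ R.H X X) =
        ((2 : K) • (μ R.H X X ≫ R.H.map (β_ X X).hom)) ≫ δ R.H X X ≫ (c' ⊗ₘ b') ≫ μ R.H X X := by
      rw [Linear.smul_comp, Category.assoc]
    rw [h5, R.symm]
    simp only [Category.assoc, Functor.Monoidal.μ_δ_assoc]
  have h5 := congrArg (fun z => (2 : K)⁻¹ • z) h4
  simp only [smul_smul, inv_mul_cancel₀ h2, one_smul] at h5
  rw [bx, Category.assoc, Category.assoc, h5, bx, Functor.Monoidal.δ_μ_assoc]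

lemma neg_tensor' {X Y X' Y' : ModuleCat.{w} K} (f : X ⟶ Y) (g : X' ⟶ Y') :
    (-f) ⊗ₘ g = -(f ⊗ₘ g) := by
  rw [eq_neg_iff_add_eq_zero, ← MonoidalPreadditive.add_tensor, neg_add_cancel]
  simp

lemma tensor_neg' {X Y X' Y' : ModuleCat.{w} K} (f : X ⟶ Y) (g : X' ⟶ Y') :
    f ⊗ₘ (-g) = -(f ⊗ₘ g) := by
  rw [eq_neg_iff_add_eq_zero, ← MonoidalPreadditive.tensor_add, neg_add_cancel]
  simp

lemma bx_braid_sg (h2 : (2 : K) ≠ 0) (s : Bool) {X : C} (a : R.H.obj X ⟶ R.H.obj X)
    (ha : IsPar R s a) :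
    bx R a (𝟙 _) ≫ R.H.map (β_ X X).hom = R.H.map (β_ X X).hom ≫ bx R (sg R s X) a := by
  apply bx_braid_of R h2
  cases s with
  | false =>
    have ha' : a ≫ R.par X = R.par X ≫ a := ha
    rw [sg_false]
    simp only [Preadditive.sub_comp, Preadditive.add_comp, Preadditive.comp_sub,
      Preadditive.comp_add, Category.id_comp, Category.comp_id, ← tensorHom_id, ← id_tensorHom,
      tensorHom_comp_tensorHom, ha']
  | true =>
    have ha' : a ≫ R.par X = -(R.par X ≫ a) := ha
    rw [sg_true]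
    simp only [Preadditive.sub_comp, Preadditive.add_comp, Preadditive.comp_sub,
      Preadditive.comp_add, Category.id_comp, Category.comp_id, ← tensorHom_id, ← id_tensorHom,
      tensorHom_comp_tensorHom, ha', R.par_sq, neg_tensor', tensor_neg']
    abel

lemma bx_braid_sg' (h2 : (2 : K) ≠ 0) (s : Bool) {X : C} (a : R.H.obj X ⟶ R.H.obj X)
    (ha : IsPar R s a) :
    bx R (sg R s X) a ≫ R.H.map (β_ X X).hom = R.H.map (β_ X X).hom ≫ bx R a (𝟙 _) := by
  apply bx_braid_of R h2
  cases s with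
  | false =>
    have ha' : a ≫ R.par X = R.par X ≫ a := ha
    rw [sg_false]
    simp only [Preadditive.sub_comp, Preadditive.add_comp, Preadditive.comp_sub,
      Preadditive.comp_add, Category.id_comp, Category.comp_id, ← tensorHom_id, ← id_tensorHom,
      tensorHom_comp_tensorHom, ha']
  | true =>
    have ha' : a ≫ R.par X = -(R.par X ≫ a) := ha
    rw [sg_true]
    simp only [Preadditive.sub_comp, Preadditive.add_comp, Preadditive.comp_sub,
      Preadditive.comp_add, Category.id_comp, Category.comp_id, ← tensorHom_id, ← id_tensorHom,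
      tensorHom_comp_tensorHom, ha', R.par_sq, neg_tensor', tensor_neg']
    abel

/-- The exchange of the last two factors. -/
lemma bx_sw_of {Q X : C} (a : R.H.obj Q ⟶ R.H.obj Q) (b c b' c' : R.H.obj X ⟶ R.H.obj X)
    (h : bx R b c ≫ R.H.map (β_ X X).hom = R.H.map (β_ X X).hom ≫ bx R c' b') :
    bx R (bx R a b) c ≫ R.H.map (sw Q X) = R.H.map (sw Q X) ≫ bx R (bx R a c') b' := by
  have e1 : R.H.map (Q ◁ (β_ X X).hom) = bx R (𝟙 _) (R.H.map (β_ X X).hom) := by
    rw [← CategoryTheory.Functor.map_id, bx_map, id_tensorHom]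
  have e2 : R.H.map (sw Q X) = R.H.map (α_ Q X X).hom ≫ bx R (𝟙 _) (R.H.map (β_ X X).hom) ≫
      R.H.map (α_ Q X X).inv := by
    rw [sw, Functor.map_comp, Functor.map_comp, e1]
  rw [e2, ← Category.assoc, bx_assoc]
  simp only [Category.assoc]
  rw [← bx_assoc_inv, ← Category.assoc (bx R a (bx R b c)), bx_comp, h,
    ← Category.assoc (bx R (𝟙 _) _), bx_comp, Category.comp_id, Category.id_comp]

/-- The derivation of the tensor powers attached to an operator; `s` is its parity. -/
noncomputable def der (s : Bool) {X : C} (a : R.H.obj X ⟶ R.H.obj X) :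
    ∀ n : ℕ, R.H.obj (tp X n) ⟶ R.H.obj (tp X n)
  | 0 => 0
  | n + 1 => bx R (der s a n) (𝟙 _) + bx R (sg R s (tp X n)) a

lemma der_zero (s : Bool) {X : C} (a : R.H.obj X ⟶ R.H.obj X) : der R s a 0 = 0 := rfl

lemma der_succ (s : Bool) {X : C} (a : R.H.obj X ⟶ R.H.obj X) (n : ℕ) :
    der R s a (n + 1) = bx R (der R s a n) (𝟙 _) + bx R (sg R s (tp X n)) a := rfl

lemma sg_bx (s : Bool) (Q X : C) : bx R (sg R s Q) (sg R s X) = sg R s (Q ⊗ X) := by
  cases s with
  | false => exact bx_one R Q X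
  | true => exact bx_par R Q X

lemma sg_par (s : Bool) (X : C) : sg R s X ≫ R.par X = R.par X ≫ sg R s X := by
  cases s with
  | false => rw [sg_false, Category.id_comp, Category.comp_id]
  | true => rfl

lemma bx_sub_left {Q X : C} (a a' : R.H.obj Q ⟶ R.H.obj Q) (b : R.H.obj X ⟶ R.H.obj X) :
    bx R (a - a') b = bx R a b - bx R a' b := by
  rw [sub_eq_add_neg, bx_add_left, bx_neg_left, ← sub_eq_add_neg]

lemma bx_sub_right {Q X : C} (a : R.H.obj Q ⟶ R.H.obj Q) (b b' : R.H.obj X ⟶ R.H.obj X) :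
    bx R a (b - b') = bx R a b - bx R a b' := by
  rw [sub_eq_add_neg, bx_add_right, bx_neg_right, ← sub_eq_add_neg]

lemma der_isPar {s : Bool} {X : C} {a : R.H.obj X ⟶ R.H.obj X} (ha : IsPar R s a) (n : ℕ) :
    IsPar R s (der R s a n) := by
  induction n with
  | zero =>
    cases s with
    | false =>
      change (0 : R.H.obj (tp X 0) ⟶ R.H.obj (tp X 0)) ≫ _ = _ ≫ 0
      rw [zero_comp, comp_zero]
    | true =>
      change (0 : R.H.obj (tp X 0) ⟶ R.H.obj (tp X 0)) ≫ _ = -(_ ≫ 0)
      rw [zero_comp, comp_zero, neg_zero]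
  | succ n ih =>
    cases s with
    | false =>
      have ha' : a ≫ R.par X = R.par X ≫ a := ha
      have ih' : der R false a n ≫ R.par (tp X n) = R.par (tp X n) ≫ der R false a n := ih
      change der R false a (n + 1) ≫ R.par (tp X n ⊗ X) = R.par (tp X n ⊗ X) ≫ der R false a (n + 1)
      rw [der_succ, sg_false, ← bx_par, Preadditive.add_comp, Preadditive.comp_add]
      simp only [bx_comp, ha', ih', Category.id_comp, Category.comp_id]
    | true =>
      have ha' : a ≫ R.par X = -(R.par X ≫ a) := ha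
      have ih' : der R true a n ≫ R.par (tp X n) = -(R.par (tp X n) ≫ der R true a n) := ih
      change der R true a (n + 1) ≫ R.par (tp X n ⊗ X) =
        -(R.par (tp X n ⊗ X) ≫ der R true a (n + 1))
      rw [der_succ, sg_true, ← bx_par, Preadditive.add_comp, Preadditive.comp_add]
      simp only [bx_comp, ha', ih', Category.id_comp, Category.comp_id, bx_neg_left, bx_neg_right]
      abel

/-- Derivations commute with exchanges. -/
lemma der_swap (h2 : (2 : K) ≠ 0) {s : Bool} {X : C} {a : R.H.obj X ⟶ R.H.obj X}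
    (ha : IsPar R s a) {n : ℕ} {f : tp X n ⟶ tp X n} (hf : IsSwap X n f) :
    der R s a n ≫ R.H.map f = R.H.map f ≫ der R s a n := by
  induction hf with
  | last n =>
    have e0 : der R s a (n + 2) = bx R (bx R (der R s a n) (𝟙 _)) (𝟙 _) +
        (bx R (bx R (sg R s (tp X n)) a) (𝟙 _) +
          bx R (bx R (sg R s (tp X n)) (sg R s X)) a) := by
      rw [der_succ, der_succ, bx_add_left, add_assoc, sg_bx]
    have e1 := bx_sw_of R (Q := tp X n) (X := X) (der R s a n) (𝟙 _) (𝟙 _) (𝟙 _) (𝟙 _)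
      (by rw [bx_one, Category.comp_id, Category.id_comp])
    have e2 := bx_sw_of R (Q := tp X n) (sg R s (tp X n)) a (𝟙 _) a (sg R s X)
      (bx_braid_sg R h2 s a ha)
    have e3 := bx_sw_of R (Q := tp X n) (sg R s (tp X n)) (sg R s X) a (𝟙 _) a
      (bx_braid_sg' R h2 s a ha)
    have e0' : der R s a (n + 2) = bx R (bx R (der R s a n) (𝟙 _)) (𝟙 _) +
        (bx R (bx R (sg R s (tp X n)) (sg R s X)) a +
          bx R (bx R (sg R s (tp X n)) a) (𝟙 _)) := by
      rw [e0, add_comm (bx R (bx R (sg R s (tp X n)) a) (𝟙 _))]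
    calc der R s a (n + 2) ≫ R.H.map (sw (tp X n) X) =
        (bx R (bx R (der R s a n) (𝟙 _)) (𝟙 _) +
        (bx R (bx R (sg R s (tp X n)) a) (𝟙 _) +
          bx R (bx R (sg R s (tp X n)) (sg R s X)) a)) ≫ R.H.map (sw (tp X n) X) := by rw [e0]
      _ = R.H.map (sw (tp X n) X) ≫ (bx R (bx R (der R s a n) (𝟙 _)) (𝟙 _) +
        (bx R (bx R (sg R s (tp X n)) (sg R s X)) a +
          bx R (bx R (sg R s (tp X n)) a) (𝟙 _))) := by
        rw [Preadditive.add_comp, Preadditive.add_comp, Preadditive.comp_add,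
          Preadditive.comp_add, e1, e2, e3]
      _ = R.H.map (sw (tp X n) X) ≫ der R s a (n + 2) := by rw [← e0']
  | lift n f hf ih =>
    rw [map_whiskerRight_eq, der_succ, Preadditive.add_comp, Preadditive.comp_add, bx_comp,
      bx_comp, bx_comp, bx_comp, ih]
    have h3 : sg R s (tp X n) ≫ R.H.map f = R.H.map f ≫ sg R s (tp X n) := by
      cases s with
      | false => rw [sg_false, Category.id_comp, Category.comp_id]
      | true => rw [sg_true, R.par_natural]
    simp only [h3, Category.comp_id, Category.id_comp]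

lemma der_add (s : Bool) {X : C} (a b : R.H.obj X ⟶ R.H.obj X) (n : ℕ) :
    der R s (a + b) n = der R s a n + der R s b n := by
  induction n with
  | zero => rw [der_zero, der_zero, der_zero, add_zero]
  | succ n ih =>
    rw [der_succ, der_succ, der_succ, ih, bx_add_left, bx_add_right]
    abel

lemma der_smul (s : Bool) {X : C} (k : K) (a : R.H.obj X ⟶ R.H.obj X) (n : ℕ) :
    der R s (k • a) n = k • der R s a n := by
  induction n with
  | zero => rw [der_zero, der_zero, smul_zero]
  | succ n ih => rw [der_succ, der_succ, ih, bx_smul_left, bx_smul_right, smul_add]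

/-- Derivations as a linear map. -/
noncomputable def derL (s : Bool) (X : C) (n : ℕ) :
    (R.H.obj X ⟶ R.H.obj X) →ₗ[K] (R.H.obj (tp X n) ⟶ R.H.obj (tp X n)) where
  toFun a := der R s a n
  map_add' a b := der_add R s a b n
  map_smul' k a := der_smul R s k a n

lemma derL_apply (s : Bool) {X : C} (n : ℕ) (a : R.H.obj X ⟶ R.H.obj X) :
    derL R s X n a = der R s a n := rfl

lemma der_one (X : C) (n : ℕ) : der R false (𝟙 (R.H.obj X)) n = (n : K) • 𝟙 _ := by
  induction n with
  | zero => rw [der_zero, Nat.cast_zero, zero_smul]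
  | succ n ih =>
    rw [der_succ, ih, sg_false, bx_smul_left, bx_one]
    push_cast
    rw [add_smul, one_smul]

/-- The commutator with an even operator. -/
lemma der_comm {s : Bool} {X : C} {a z : R.H.obj X ⟶ R.H.obj X} (hz : IsPar R false z) (n : ℕ) :
    der R s (a ≫ z - z ≫ a) n =
      der R s a n ≫ der R false z n - der R false z n ≫ der R s a n := by
  induction n with
  | zero => rw [der_zero, der_zero, der_zero, zero_comp, sub_zero]
  | succ n ih =>
    have h1 : sg R s (tp X n) ≫ der R false z n = der R false z n ≫ sg R s (tp X n) := by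
      cases s with
      | false => rw [sg_false, Category.id_comp, Category.comp_id]
      | true =>
        have := der_isPar R hz n
        exact this.symm
    rw [der_succ, der_succ, der_succ, ih, sg_false, bx_sub_left, bx_sub_right]
    simp only [Preadditive.add_comp, Preadditive.comp_add, bx_comp, Category.id_comp,
      Category.comp_id, h1]
    abel

/-- The anticommutator of odd operators. -/
lemma der_anti {X : C} {a b : R.H.obj X ⟶ R.H.obj X} (ha : IsPar R true a) (hb : IsPar R true b)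
    (n : ℕ) : der R false (a ≫ b + b ≫ a) n =
      der R true a n ≫ der R true b n + der R true b n ≫ der R true a n := by
  induction n with
  | zero => rw [der_zero, der_zero, der_zero, zero_comp, add_zero]
  | succ n ih =>
    have h1 : der R true a n ≫ R.par (tp X n) = -(R.par (tp X n) ≫ der R true a n) :=
      der_isPar R ha n
    have h2 : der R true b n ≫ R.par (tp X n) = -(R.par (tp X n) ≫ der R true b n) :=
      der_isPar R hb n
    rw [der_succ, der_succ, der_succ, ih, sg_false, sg_true, bx_add_left, bx_add_right]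
    simp only [Preadditive.add_comp, Preadditive.comp_add, bx_comp, Category.id_comp,
      Category.comp_id, h1, h2, R.par_sq, bx_neg_left]
    abel

end

section

variable {C : Type u} [Category.{v} C] [Preadditive C] [Linear ℚ C] [MonoidalCategory C]
  [SymmetricCategory C] {K : Type w} [Field K] (R : SuperRealisation C K)

/-- Derivations commute with the group algebra of the symmetric group. -/
lemma der_adjoin {s : Bool} {X : C} {a : R.H.obj X ⟶ R.H.obj X} (ha : IsPar R s a) {n : ℕ}
    {e : End (tp X n)} (he : e ∈ Algebra.adjoin ℚ {f : End (tp X n) | IsSwap X n f}) :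
    der R s a n ≫ R.H.map e = R.H.map e ≫ der R s a n := by
  have hK := R_charZero R
  induction he using Algebra.adjoin_induction with
  | mem f hf => exact der_swap R two_ne_zero ha hf
  | algebraMap q =>
    have h1 : (algebraMap ℚ (End (tp X n)) q : tp X n ⟶ tp X n) = q • 𝟙 _ := by
      rw [Algebra.algebraMap_eq_smul_one]
      rfl
    rw [h1, R_smul, CategoryTheory.Functor.map_id, Linear.smul_comp, Linear.comp_smul,
      Category.id_comp, Category.comp_id]
  | add x y _ _ hx hy =>
    have h1 : R.H.map (x + y : End (tp X n)) = R.H.map x + R.H.map y := R.H.map_add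
    rw [h1, Preadditive.add_comp, Preadditive.comp_add, hx, hy]
  | mul x y _ _ hx hy =>
    rw [End.mul_def, Functor.map_comp, Category.assoc, ← hx, ← Category.assoc, hy, Category.assoc]

end

end Pool.Agent.K3h63.CC
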