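import Pool.Agent.K3h63.CC.Main

/-!
# Derivations of the realisations of `M ^ n ⊗ N`
-/

set_option autoImplicit false
set_option linter.unusedSectionVars false
set_option linter.unusedSimpArgs false
set_option backward.isDefEq.respectTransparency false
set_option backward.defeqAttrib.useBackward true

open CategoryTheory Limits MonoidalCategory
open Pool.Agent.Y112.SR Pool.Agent.Y112.KD Pool.Agent.Y112.SC

namespace Pool.Agent.K3h63.CC

universe v u w

open Functor.LaxMonoidal Functor.OplaxMonoidal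

section

variable {C : Type u} [Category.{v} C] [Preadditive C] [MonoidalCategory C] [SymmetricCategory C]
  {K : Type w} [Field K] (R : SuperRealisation C K) (N : C)

/-- The derivation acting on the first factors. -/
noncomputable def dn (s : Bool) {X : C} (a : R.H.obj X ⟶ R.H.obj X) (n : ℕ) :
    R.H.obj (tp X n ⊗ N) ⟶ R.H.obj (tp X n ⊗ N) := bx R (der R s a n) (𝟙 _)

lemma dn_def (s : Bool) {X : C} (a : R.H.obj X ⟶ R.H.obj X) (n : ℕ) :
    dn R N s a n = bx R (der R s a n) (𝟙 _) := rfl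

lemma dn_isPar {s : Bool} {X : C} {a : R.H.obj X ⟶ R.H.obj X} (ha : IsPar R s a) (n : ℕ) :
    IsPar R s (dn R N s a n) := by
  have h := der_isPar R ha n
  cases s with
  | false =>
    have h' : der R false a n ≫ R.par (tp X n) = R.par (tp X n) ≫ der R false a n := h
    change dn R N false a n ≫ R.par (tp X n ⊗ N) = R.par (tp X n ⊗ N) ≫ dn R N false a n
    rw [dn_def, ← bx_par, bx_comp, bx_comp, h', Category.id_comp, Category.comp_id]
  | true =>
    have h' : der R true a n ≫ R.par (tp X n) = -(R.par (tp X n) ≫ der R true a n) := h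
    change dn R N true a n ≫ R.par (tp X n ⊗ N) = -(R.par (tp X n ⊗ N) ≫ dn R N true a n)
    rw [dn_def, ← bx_par, bx_comp, bx_comp, h', Category.id_comp, Category.comp_id, bx_neg_left]

lemma dn_add (s : Bool) {X : C} (a b : R.H.obj X ⟶ R.H.obj X) (n : ℕ) :
    dn R N s (a + b) n = dn R N s a n + dn R N s b n := by
  rw [dn_def, dn_def, dn_def, der_add, bx_add_left]

lemma dn_smul (s : Bool) {X : C} (k : K) (a : R.H.obj X ⟶ R.H.obj X) (n : ℕ) :
    dn R N s (k • a) n = k • dn R N s a n := by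
  rw [dn_def, dn_def, der_smul, bx_smul_left]

/-- Derivations as a linear map. -/
noncomputable def dnL (s : Bool) (X : C) (n : ℕ) :
    (R.H.obj X ⟶ R.H.obj X) →ₗ[K] (R.H.obj (tp X n ⊗ N) ⟶ R.H.obj (tp X n ⊗ N)) where
  toFun a := dn R N s a n
  map_add' a b := dn_add R N s a b n
  map_smul' k a := dn_smul R N s k a n

lemma dnL_apply (s : Bool) {X : C} (n : ℕ) (a : R.H.obj X ⟶ R.H.obj X) :
    dnL R N s X n a = dn R N s a n := rfl

lemma dn_one (X : C) (n : ℕ) : dn R N false (𝟙 (R.H.obj X)) n = (n : K) • 𝟙 _ := by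
  rw [dn_def, der_one, bx_smul_left, bx_one]

lemma dn_comm {s : Bool} {X : C} {a z : R.H.obj X ⟶ R.H.obj X} (hz : IsPar R false z) (n : ℕ) :
    dn R N s (a ≫ z - z ≫ a) n =
      dn R N s a n ≫ dn R N false z n - dn R N false z n ≫ dn R N s a n := by
  rw [dn_def, dn_def, dn_def, der_comm R hz, bx_comp, bx_comp, Category.id_comp, bx_sub_left]

lemma dn_anti {X : C} {a b : R.H.obj X ⟶ R.H.obj X} (ha : IsPar R true a) (hb : IsPar R true b)
    (n : ℕ) : dn R N false (a ≫ b + b ≫ a) n =
      dn R N true a n ≫ dn R N true b n + dn R N true b n ≫ dn R N true a n := by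
  rw [dn_def, dn_def, dn_def, der_anti R ha hb, bx_comp, bx_comp, Category.id_comp, bx_add_left]

end

section

variable {C : Type u} [Category.{v} C] [Preadditive C] [Linear ℚ C] [MonoidalCategory C]
  [SymmetricCategory C] {K : Type w} [Field K] (R : SuperRealisation C K)

/-- Derivations commute with exchanges of the first factors and endomorphisms of the last one. -/
lemma dn_adjoin {s : Bool} {X N : C} {a : R.H.obj X ⟶ R.H.obj X} (ha : IsPar R s a) {n : ℕ}
    {e : End (tp X n ⊗ N)} (he : e ∈ Algebra.adjoin ℚ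
      ({f : End (tp X n ⊗ N) | ∃ t : tp X n ⟶ tp X n, IsSwap X n t ∧ f = t ▷ N} ∪
        {f : End (tp X n ⊗ N) | ∃ g : N ⟶ N, f = tp X n ◁ g})) :
    dn R N s a n ≫ R.H.map e = R.H.map e ≫ dn R N s a n := by
  have hK := R_charZero R
  induction he using Algebra.adjoin_induction with
  | mem f hf =>
    rcases hf with ⟨t, ht, rfl⟩ | ⟨g, rfl⟩
    · have h := der_swap R two_ne_zero ha ht
      rw [map_whiskerRight_eq, dn_def, bx_comp, bx_comp, h]
    · have h1 : R.H.map (tp X n ◁ g) = bx R (𝟙 _) (R.H.map g) := by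
        rw [← CategoryTheory.Functor.map_id, bx_map, id_tensorHom]
      rw [h1, dn_def, bx_comp, bx_comp, Category.id_comp, Category.comp_id, Category.id_comp,
        Category.comp_id]
  | algebraMap q =>
    have h1 : (algebraMap ℚ (End (tp X n ⊗ N)) q : tp X n ⊗ N ⟶ tp X n ⊗ N) = q • 𝟙 _ := by
      rw [Algebra.algebraMap_eq_smul_one]
      rfl
    rw [h1, R_smul, CategoryTheory.Functor.map_id, Linear.smul_comp, Linear.comp_smul,
      Category.id_comp, Category.comp_id]
  | add x y _ _ hx hy =>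
    have h1 : R.H.map (x + y : End (tp X n ⊗ N)) = R.H.map x + R.H.map y := R.H.map_add
    rw [h1, Preadditive.add_comp, Preadditive.comp_add, hx, hy]
  | mul x y _ _ hx hy =>
    rw [End.mul_def, Functor.map_comp, Category.assoc, ← hx, ← Category.assoc, hy, Category.assoc]

end

section

variable {C : Type u} [Category.{v} C] [Preadditive C] [MonoidalCategory C] [SymmetricCategory C]
  {K : Type w} [Field K] [CharZero K] {R : SuperRealisation C K}
  (G : Grading R)

lemma Grading.deg_dn (X N : C) (n : ℕ) :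
    G.deg (tp X n ⊗ N) = dn R N false (G.deg X) n + bx R (𝟙 _) (G.deg N) := by
  rw [G.deg_tensor, G.deg_tp, dn_def]

/-- A common diagonalisation of the derivations attached to diagonal operators and of the degree
operator. -/
lemma Grading.famN (X N : C) (n : ℕ) : ∃ (ι : Type) (_ : Fintype ι)
    (e : ι → (R.H.obj (tp X n ⊗ N) ⟶ R.H.obj (tp X n ⊗ N))) (lam : ι → (ℤ → ℚ) → ℚ)
    (mu : ι → ℚ),
    (∀ k, e k ≫ e k = e k) ∧ (∀ k l, k ≠ l → e k ≫ e l = 0) ∧ (∑ k, e k = 𝟙 _) ∧
    (∀ z, dn R N false (G.th X z) n = ∑ k, (lam k z : K) • e k) ∧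
    (∀ k z, (∀ i, 0 ≤ z i) → 0 ≤ lam k z) ∧
    G.deg (tp X n ⊗ N) = ∑ k, (mu k : K) • e k := by
  classical
  obtain ⟨ι, hι, e, lam, he, heo, h1, h2, h3⟩ := G.fam X n
  have s0 : ∀ (f : ι → (R.H.obj (tp X n) ⟶ R.H.obj (tp X n))),
      ∑ k : ι × {i : ℤ // i ∈ G.supp N}, bx R (f k.1) (G.pr N k.2.1) =
        bx R (∑ k, f k) (𝟙 _) := by
    intro f
    rw [Fintype.sum_prod_type]
    have h4 : ∀ k, ∑ i : {i : ℤ // i ∈ G.supp N}, bx R (f k) (G.pr N i.1) =
        bx R (f k) (𝟙 _) := by
      intro k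
      rw [← G.sum_supp N, ← bx_sum_right]
      exact Finset.sum_coe_sort (G.supp N) (fun i => bx R (f k) (G.pr N i))
    simp only [h4]
    rw [bx_sum_left]
  have hlam : ∀ z, dn R N false (G.th X z) n =
      ∑ k : ι × {i : ℤ // i ∈ G.supp N}, (lam k.1 z : K) •
        bx R (Q := tp X n) (X := N) (e k.1) (G.pr N k.2.1) := by
    intro z
    rw [dn_def, h2, ← s0 (fun k => (lam k z : K) • e k)]
    refine Finset.sum_congr rfl fun k _ => ?_
    rw [bx_smul_left]
  refine ⟨ι × {i : ℤ // i ∈ G.supp N}, inferInstance,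
    fun k => bx R (Q := tp X n) (X := N) (e k.1) (G.pr N k.2.1),
    fun k z => lam k.1 z, fun k => lam k.1 (fun i => (i : ℚ)) + (k.2.1 : ℚ), fun k => ?_,
    fun k l h => ?_, ?_, hlam, fun k z hz => h3 _ _ hz, ?_⟩
  · rw [bx_comp, he, G.idem]
  · rw [bx_comp]
    by_cases hk : k.1 = l.1
    · have hk' : k.2.1 ≠ l.2.1 := by
        intro h'
        apply h
        exact Prod.ext hk (Subtype.ext h')
      rw [G.orth N _ _ hk', bx_zero_right]
    · rw [heo _ _ hk, bx_zero_left]
  · rw [s0 e, h1, bx_one]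
  · have h5 : bx R (𝟙 (R.H.obj (tp X n))) (G.deg N) =
        ∑ k : ι × {i : ℤ // i ∈ G.supp N}, ((k.2.1 : ℚ) : K) •
          bx R (Q := tp X n) (X := N) (e k.1) (G.pr N k.2.1) := by
      rw [Fintype.sum_prod_type, ← h1, ← bx_sum_left]
      refine Finset.sum_congr rfl fun k _ => ?_
      rw [Grading.deg, Grading.th, ← bx_sum_right,
        ← Finset.sum_coe_sort (G.supp N)
          (fun i => bx R (Q := tp X n) (X := N) (e k) (((i : ℚ) : K) • G.pr N i))]
      refine Finset.sum_congr rfl fun i _ => ?_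
      rw [bx_smul_right]
    rw [G.deg_dn, Grading.deg, hlam, h5, ← Finset.sum_add_distrib]
    refine Finset.sum_congr rfl fun k _ => ?_
    rw [← add_smul, ← Rat.cast_add]

end

end Pool.Agent.K3h63.CC
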