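import Pool.Agent.K3h63.CC.SepN

/-!
# The Künneth type standard conjecture for twisted Schur functors
-/

set_option autoImplicit false
set_option linter.unusedSectionVars false
set_option linter.unusedSimpArgs false
set_option backward.isDefEq.respectTransparency false
set_option backward.defeqAttrib.useBackward true

open CategoryTheory Limits MonoidalCategory
open Pool.Agent.Y112.SR Pool.Agent.Y112.KD Pool.Agent.Y112.SC

namespace Pool.Agent.K3h63.CC

universe v u w

open Functor.LaxMonoidal Functor.OplaxMonoidal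

section

variable {C : Type u} [Category.{v} C] [Preadditive C] [Linear ℚ C] [MonoidalCategory C]
  [MonoidalPreadditive C] [MonoidalLinear ℚ C] [SymmetricCategory C]
  [RightRigidCategory C] {K : Type w} [Field K] [CharZero K] {R : SuperRealisation C K}
  {L : Subfield K} (G : Grading R)

variable (R) in
lemma PhiN_trace {X N : C} (n : ℕ) (y : R.H.obj (tp X n ⊗ N) ⟶ R.H.obj (tp X n ⊗ N))
    (a : R.H.obj X ⟶ R.H.obj X) (ha : IsPar R false a) :
    tr _ (a ≫ Phi R X n (PT R (Q := tp X n) (X := N) y) ≫ R.par X) =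
      tr _ (dn R N false a n ≫ y ≫ R.par (tp X n ⊗ N)) := by
  have h3 := trace_PT R (Q := tp X n) (X := N) (der R false a n) y
  rw [Phi_trace R n _ a ha, tr_apply, h3, ← tr_apply, dn_def]

/-- The sum of the partial traces of an invariant algebraic operator is diagonal. -/
lemma Phi_diagN {X N : C} {n : ℕ} {y : R.H.obj (tp X n ⊗ N) ⟶ R.H.obj (tp X n ⊗ N)}
    (hy : Algebraic R L y)
    (hyc : ∀ a : R.H.obj X ⟶ R.H.obj X, IsPar R false a →
      (∀ i, a ≫ G.pr X i = G.pr X i ≫ a) → dn R N false a n ≫ y = y ≫ dn R N false a n)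
    (hrat : ∀ i, ∃ ρ : ℚ, tr _ (dn R N false (G.pr X i) n ≫ y ≫ R.par (tp X n ⊗ N)) = ρ) :
    ∃ κ : ℤ → ℚ, Algebraic R L (G.th X κ) ∧ ∀ i, G.pr X i ≠ 0 →
      (κ i : K) * sgn i * tr _ (G.pr X i) =
        tr _ (dn R N false (G.pr X i) n ≫ y ≫ R.par (tp X n ⊗ N)) := by
  choose ρ hρ using hrat
  choose b hb hb' using G.dim X
  have hF : Algebraic R L (Phi R X n (PT R (Q := tp X n) (X := N) y)) :=
    Algebraic.Phi (Algebraic.PT hy)
  set F := Phi R X n (PT R (Q := tp X n) (X := N) y) with hFdef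
  obtain ⟨ι, _, E, E', hE, hE'⟩ := sandwich (R.finite X)
  let φ : (R.H.obj X ⟶ R.H.obj X) →ₗ[K] K :=
    { toFun := fun a => tr _ (dn R N false a n ≫ y ≫ R.par (tp X n ⊗ N))
      map_add' := fun a a' => by rw [dn_add, Preadditive.add_comp, map_add]
      map_smul' := fun c a => by rw [dn_smul, Linear.smul_comp, map_smul, RingHom.id_apply] }
  have hφ : ∀ a, φ a = tr _ (dn R N false a n ≫ y ≫ R.par (tp X n ⊗ N)) := fun _ => rfl
  have hcl : ∀ u v : R.H.obj X ⟶ R.H.obj X, (∀ i, u ≫ G.pr X i = G.pr X i ≫ u) →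
      (∀ i, v ≫ G.pr X i = G.pr X i ≫ v) → φ (u ≫ v) = φ (v ≫ u) := by
    intro u v hu hv
    have hup := comm_par G u hu
    have hvp := comm_par G v hv
    rw [← sub_eq_zero, ← map_sub, hφ, dn_comm R N hvp, Preadditive.sub_comp, map_sub, sub_eq_zero]
    have e1 : (dn R N false u n ≫ dn R N false v n) ≫ y ≫ R.par (tp X n ⊗ N) =
        dn R N false u n ≫ (dn R N false v n ≫ y ≫ R.par (tp X n ⊗ N)) := by
      simp only [Category.assoc]
    have e2 : (dn R N false v n ≫ y ≫ R.par (tp X n ⊗ N)) ≫ dn R N false u n =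
        (dn R N false v n ≫ dn R N false u n) ≫ y ≫ R.par (tp X n ⊗ N) := by
      have e3 : R.par (tp X n ⊗ N) ≫ dn R N false u n = dn R N false u n ≫ R.par (tp X n ⊗ N) :=
        (dn_isPar R N hup n).symm
      simp only [Category.assoc]
      rw [e3, ← Category.assoc y, ← hyc u hup hu]
      simp only [Category.assoc]
    rw [e1, tr_swap, e2]
  have key : ∀ i, (b i : K) • (G.pr X i ≫ F) = ((sgn i * ρ i : ℚ) : K) • G.pr X i := by
    intro i
    rw [← sub_eq_zero]
    apply tr_nd (R.finite X)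
    intro x
    set a := G.pr X i ≫ x ≫ G.pr X i with ha
    have ha1 : G.pr X i ≫ a = a := by rw [ha, ← Category.assoc, G.idem]
    have ha2 : a ≫ G.pr X i = a := by rw [ha, Category.assoc, Category.assoc, G.idem]
    have hcomm : ∀ (w : R.H.obj X ⟶ R.H.obj X), ∀ j,
        (G.pr X i ≫ w ≫ G.pr X i) ≫ G.pr X j = G.pr X j ≫ (G.pr X i ≫ w ≫ G.pr X i) := by
      intro w j
      by_cases h : j = i
      · subst h
        simp only [Category.assoc]
        rw [G.idem, ← Category.assoc (G.pr X j) (G.pr X j), G.idem]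
      · simp only [Category.assoc]
        rw [G.orth X i j (Ne.symm h), ← Category.assoc (G.pr X j) (G.pr X i),
          G.orth X j i h, zero_comp, comp_zero, comp_zero]
    have hac : ∀ j, a ≫ G.pr X j = G.pr X j ≫ a := hcomm x
    have hpar : R.par X ≫ a = (sgn i : K) • a := by
      rw [← ha1, ← Category.assoc, G.par_pr, Linear.smul_comp]
    have t1 : tr _ (a ≫ F) = (sgn i : K) * φ a := by
      have h1 := PhiN_trace R n y a (comm_par G a hac)
      have h2 : tr _ (a ≫ F ≫ R.par X) = (sgn i : K) * tr _ (a ≫ F) := by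
        rw [← Category.assoc, tr_swap, ← Category.assoc, hpar, Linear.smul_comp, map_smul,
          smul_eq_mul]
      have h3 : φ a = (sgn i : K) * tr _ (a ≫ F) := by
        rw [← h2, h1]
        exact hφ a
      have h4 : (sgn i : K) * sgn i = 1 := by exact_mod_cast sgn_sq i
      rw [h3, ← mul_assoc, h4, one_mul]
    have t2 : tr _ (G.pr X i ≫ F ≫ x) = tr _ (a ≫ F) := by
      have h1 : G.pr X i ≫ F ≫ x = G.pr X i ≫ (F ≫ G.pr X i ≫ x) := by
        have h2 := hF.pr_comm G i
        rw [← Category.assoc F, h2]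
        simp only [Category.assoc]
        rw [← Category.assoc (G.pr X i) (G.pr X i), G.idem]
      rw [h1, tr_swap, tr_swap a]
      simp only [Category.assoc, ha]
    have t3 : tr _ (G.pr X i ≫ x) = tr _ a := by
      have h1 : tr _ ((G.pr X i ≫ x) ≫ G.pr X i) = tr _ (G.pr X i ≫ x) := by
        rw [tr_swap, ← Category.assoc, G.idem]
      rw [ha, ← Category.assoc, h1]
    have s1 : ∑ k, (G.pr X i ≫ E k ≫ G.pr X i) ≫ (G.pr X i ≫ E' k ≫ G.pr X i) ≫ a =
        (b i : K) • a := by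
      have e1 : ∀ k, (G.pr X i ≫ E k ≫ G.pr X i) ≫ (G.pr X i ≫ E' k ≫ G.pr X i) ≫ a =
          G.pr X i ≫ (E k ≫ G.pr X i ≫ E' k) ≫ G.pr X i ≫ a := by
        intro k
        simp only [Category.assoc]
        rw [← Category.assoc (G.pr X i) (G.pr X i), G.idem]
      simp only [e1]
      rw [← Preadditive.comp_sum, ← Preadditive.sum_comp, hE, Linear.smul_comp, Category.id_comp,
        Linear.comp_smul, ha1, ha1, hb]
    have s2 : ∑ k, ((G.pr X i ≫ E' k ≫ G.pr X i) ≫ a) ≫ (G.pr X i ≫ E k ≫ G.pr X i) =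
        tr _ a • G.pr X i := by
      have e1 : ∀ k, ((G.pr X i ≫ E' k ≫ G.pr X i) ≫ a) ≫ (G.pr X i ≫ E k ≫ G.pr X i) =
          G.pr X i ≫ (E' k ≫ a ≫ E k) ≫ G.pr X i := by
        intro k
        simp only [Category.assoc]
        rw [← Category.assoc (G.pr X i) a, ha1, ← Category.assoc a (G.pr X i), ha2]
      simp only [e1]
      rw [← Preadditive.comp_sum, ← Preadditive.sum_comp, hE', Linear.smul_comp, Category.id_comp,
        Linear.comp_smul, G.idem]
    have t4 : (b i : K) * φ a = tr _ a * ρ i := by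
      calc (b i : K) * φ a = φ ((b i : K) • a) := by rw [map_smul, smul_eq_mul]
        _ = ∑ k, φ ((G.pr X i ≫ E k ≫ G.pr X i) ≫ ((G.pr X i ≫ E' k ≫ G.pr X i) ≫ a)) := by
          rw [← s1, map_sum]
        _ = ∑ k, φ (((G.pr X i ≫ E' k ≫ G.pr X i) ≫ a) ≫ (G.pr X i ≫ E k ≫ G.pr X i)) := by
          refine Finset.sum_congr rfl fun k _ => hcl _ _ (hcomm _) fun j => ?_
          rw [Category.assoc, hac, ← Category.assoc, hcomm, Category.assoc]
        _ = tr _ a * ρ i := by
          rw [← map_sum, s2, map_smul, smul_eq_mul, hφ, hρ]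
    rw [Preadditive.sub_comp, map_sub, Linear.smul_comp, Linear.smul_comp, map_smul, map_smul,
      Category.assoc, t2, t1, t3, smul_eq_mul, smul_eq_mul]
    push_cast
    linear_combination (sgn i : K) * t4
  refine ⟨fun i => sgn i * ρ i / b i, ?_, fun i hi => ?_⟩
  · have h1 : G.th X (fun i => sgn i * ρ i / b i) = F := by
      apply G.ext
      intro i _
      by_cases hi : G.pr X i = 0
      · rw [hi, zero_comp, zero_comp]
      have hbi : (b i : K) ≠ 0 := by
        intro h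
        exact hi (hb' i (by exact_mod_cast h))
      have h2 := congrArg (fun w => (b i : K)⁻¹ • w) (key i)
      simp only [smul_smul, inv_mul_cancel₀ hbi, one_smul] at h2
      rw [h2, G.pr_th]
      congr 1
      push_cast
      field_simp
    rw [h1]
    exact hF
  · have hbi : (b i : K) ≠ 0 := by
      intro h
      exact hi (hb' i (by exact_mod_cast h))
    have h4 : (sgn i : K) * sgn i = 1 := by exact_mod_cast sgn_sq i
    rw [hρ, hb]
    push_cast
    field_simp
    linear_combination (ρ i : K) * h4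


/-- The conjecture descends along twisted Schur functors. -/
theorem C_of_schurN {M N P : C} {n : ℕ} (i : P ⟶ tp M n ⊗ N) (r : tp M n ⊗ N ⟶ P)
    (hir : i ≫ r = 𝟙 P) (he : (r ≫ i : End (tp M n ⊗ N)) ∈ Algebra.adjoin ℚ
      ({f : End (tp M n ⊗ N) | ∃ t : tp M n ⟶ tp M n, IsSwap M n t ∧ f = t ▷ N} ∪
        {f : End (tp M n ⊗ N) | ∃ g : N ⟶ N, f = tp M n ◁ g}))
    (hdeg : ¬ ∃ d : ℤ, ∀ j, j ≠ d →
      R.H.map i ≫ δ R.H (tp M n) N ≫ (G.pr (tp M n) j ▷ R.H.obj N) = 0)
    (h : G.KunnethC L P) : G.KunnethC L M := by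
  set e : End (tp M n ⊗ N) := (r ≫ i : tp M n ⊗ N ⟶ tp M n ⊗ N) with hedef
  have hee : e * e = e := by
    rw [End.mul_def]
    change (r ≫ i) ≫ (r ≫ i) = r ≫ i
    rw [Category.assoc, reassoc_of% hir]
  set q : R.H.obj (tp M n ⊗ N) ⟶ R.H.obj (tp M n ⊗ N) := R.H.map e with hq
  have hqq : q ≫ q = q := by
    rw [hq, ← Functor.map_comp, ← End.mul_def, hee]
  have hqe : q = R.H.map r ≫ R.H.map i := by rw [hq, hedef, Functor.map_comp]
  have hiq : R.H.map i ≫ q = R.H.map i := by
    rw [hqe, ← Category.assoc, ← Functor.map_comp, hir, CategoryTheory.Functor.map_id,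
      Category.id_comp]
  have hcomm : ∀ (s : Bool) (a : R.H.obj M ⟶ R.H.obj M), IsPar R s a →
      dn R N s a n ≫ q = q ≫ dn R N s a n := fun s a ha => dn_adjoin R ha he
  -- the two exceptional possibilities
  have ex2 : ∀ d : K, q ≫ dn R N false (G.deg M) n ≠ d • q := by
    intro d hd
    apply hdeg
    have h1 : R.H.map i ≫ bx R (G.deg (tp M n)) (𝟙 (R.H.obj N)) = d • R.H.map i := by
      have h2 := congrArg (fun z => R.H.map i ≫ z) hd
      rw [← Category.assoc, hiq, Linear.comp_smul, hiq, dn_def, ← G.deg_tp] at h2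
      exact h2
    have key : ∀ j : ℤ, R.H.map i ≫ bx R (G.pr (tp M n) j) (𝟙 (R.H.obj N)) ≠ 0 →
        (j : K) = d := by
      intro j hj
      have h2 : (d - (((j : ℚ)) : K)) •
          (R.H.map i ≫ bx R (G.pr (tp M n) j) (𝟙 (R.H.obj N))) = 0 := by
        have h3 : bx R (G.deg (tp M n)) (𝟙 (R.H.obj N)) ≫
            bx R (G.pr (tp M n) j) (𝟙 (R.H.obj N)) =
            ((j : ℚ) : K) • bx R (G.pr (tp M n) j) (𝟙 (R.H.obj N)) := by
          rw [bx_comp, Category.comp_id, Grading.deg, G.th_pr, bx_smul_left]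
        rw [sub_smul, sub_eq_zero, ← Linear.smul_comp, ← h1, Category.assoc, h3,
          Linear.comp_smul]
      rcases smul_eq_zero.mp h2 with h3 | h3
      · have := sub_eq_zero.mp h3
        rw [this]
        norm_cast
      · exact absurd h3 hj
    have hback : ∀ j : ℤ, R.H.map i ≫ bx R (G.pr (tp M n) j) (𝟙 (R.H.obj N)) = 0 →
        R.H.map i ≫ δ R.H (tp M n) N ≫ (G.pr (tp M n) j ▷ R.H.obj N) = 0 := by
      intro j hj
      have h2 : (R.H.map i ≫ bx R (G.pr (tp M n) j) (𝟙 (R.H.obj N))) ≫ δ R.H (tp M n) N =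
          R.H.map i ≫ δ R.H (tp M n) N ≫ (G.pr (tp M n) j ▷ R.H.obj N) := by
        rw [bx, tensorHom_id]
        simp only [Category.assoc, Functor.Monoidal.μ_δ, Category.comp_id]
      rw [← h2, hj, zero_comp]
    by_cases hex : ∃ j : ℤ, R.H.map i ≫ bx R (G.pr (tp M n) j) (𝟙 (R.H.obj N)) ≠ 0
    · obtain ⟨j, hj⟩ := hex
      refine ⟨j, fun k hk => hback k ?_⟩
      by_contra h2
      apply hk
      have h3 : (k : K) = (j : K) := by rw [key j hj, key k h2]
      exact_mod_cast h3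
    · refine ⟨0, fun k _ => hback k ?_⟩
      by_contra h2
      exact hex ⟨k, h2⟩
  have ex1 : q ≠ 0 := by
    intro h0
    apply ex2 0
    rw [h0, zero_comp, smul_zero]
  have hn : 1 ≤ n := by
    by_contra hn
    have hn0 : n = 0 := by omega
    subst hn0
    apply ex2 0
    rw [dn_def, der_zero, bx_zero_left, comp_zero, zero_smul]
  -- the two operators
  have hcp : q ≫ R.par (tp M n ⊗ N) = R.par (tp M n ⊗ N) ≫ q := R.par_natural e
  have hcd : q ≫ G.deg (tp M n ⊗ N) = G.deg (tp M n ⊗ N) ≫ q := G.th_natural e _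
  have alg0 : Algebraic R L (q ≫ R.par (tp M n ⊗ N)) := by
    have h1 : q ≫ R.par (tp M n ⊗ N) = R.H.map r ≫ R.par P ≫ R.H.map i := by
      rw [hqe, Category.assoc, R.par_natural]
    rw [h1, ← G.th_sgn P]
    exact (Algebraic.map r).comp ((C_th G h _).comp (Algebraic.map i))
  have alg1 : Algebraic R L (q ≫ G.deg (tp M n ⊗ N) ≫ R.par (tp M n ⊗ N)) := by
    have h1 : q ≫ G.deg (tp M n ⊗ N) ≫ R.par (tp M n ⊗ N) =
        R.H.map r ≫ (G.deg P ≫ R.par P) ≫ R.H.map i := by
      rw [hqe, Category.assoc, ← Category.assoc (R.H.map i), Grading.deg, Grading.deg,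
        G.th_natural, Category.assoc, Category.assoc, R.par_natural]
    rw [h1, ← G.th_sgn P, Grading.deg, G.th_comp]
    exact (Algebraic.map r).comp ((C_th G h _).comp (Algebraic.map i))
  have val0 : ∀ a, IsPar R false a → tr _ (dn R N false a n ≫ (q ≫ R.par (tp M n ⊗ N)) ≫
      R.par (tp M n ⊗ N)) = tr _ (q ≫ dn R N false a n) := by
    intro a ha
    rw [Category.assoc, R.par_sq, Category.comp_id, hcomm false a ha]
  have val1 : ∀ a, IsPar R false a → tr _ (dn R N false a n ≫ (q ≫ G.deg (tp M n ⊗ N) ≫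
      R.par (tp M n ⊗ N)) ≫ R.par (tp M n ⊗ N)) =
        tr _ (q ≫ G.deg (tp M n ⊗ N) ≫ dn R N false a n) := by
    intro a ha
    rw [Category.assoc, Category.assoc, R.par_sq, Category.comp_id, tr_swap, Category.assoc]
  obtain ⟨κ0, hκ0, hκ0'⟩ := Phi_diagN G alg0
    (fun a ha hac => by
      rw [← Category.assoc, hcomm false a ha, Category.assoc, Category.assoc]
      congr 1
      exact dn_isPar R N ha n)
    (fun j => by
      obtain ⟨ρ, hρ, -⟩ := num_posN G hqq hcomm j
      exact ⟨ρ, by rw [val0 _ (pr_isPar G j), hρ]⟩)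
  obtain ⟨κ1, hκ1, hκ1'⟩ := Phi_diagN G alg1
    (fun a ha hac => by
      have h1 : dn R N false a n ≫ G.deg (tp M n ⊗ N) =
          G.deg (tp M n ⊗ N) ≫ dn R N false a n := by
        have h2 := dn_comm R N (s := false) (a := a) (G.th_isPar M (fun i => (i : ℚ))) n
        have h3 : a ≫ G.th M (fun i => (i : ℚ)) - G.th M (fun i => (i : ℚ)) ≫ a = 0 := by
          rw [Grading.th, Preadditive.comp_sum, Preadditive.sum_comp, sub_eq_zero]
          refine Finset.sum_congr rfl fun j _ => ?_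
          rw [Linear.comp_smul, Linear.smul_comp, hac]
        have h4 : dn R N false (0 : R.H.obj M ⟶ R.H.obj M) n = 0 := by
          rw [← dnL_apply, map_zero]
        rw [h3, h4] at h2
        have h6 : dn R N false a n ≫ bx R (𝟙 _) (G.deg N) =
            bx R (𝟙 _) (G.deg N) ≫ dn R N false a n := by
          rw [dn_def, bx_comp, bx_comp, Category.id_comp, Category.comp_id, Category.id_comp,
            Category.comp_id]
        rw [G.deg_dn, Preadditive.comp_add, Preadditive.add_comp, h6]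
        congr 1
        exact (sub_eq_zero.mp h2.symm)
      have h5 : dn R N false a n ≫ R.par (tp M n ⊗ N) = R.par (tp M n ⊗ N) ≫ dn R N false a n :=
        dn_isPar R N ha n
      rw [← Category.assoc, hcomm false a ha]
      simp only [Category.assoc]
      rw [← h5, ← Category.assoc (dn R N false a n), h1, Category.assoc])
    (fun j => by
      obtain ⟨ρ, hρ⟩ := num_deg_ratN G hqq hcomm hcd j
      exact ⟨ρ, by rw [val1 _ (pr_isPar G j), hρ]⟩)
  apply C_of_sep
  intro a b ha hb hab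
  by_contra hcon
  push Not at hcon
  have k0 := hcon κ0 hκ0
  have k1 := hcon κ1 hκ1
  have e0a := hκ0' a ha
  have e0b := hκ0' b hb
  have e1a := hκ1' a ha
  have e1b := hκ1' b hb
  rw [val0 _ (pr_isPar G _)] at e0a e0b
  rw [val1 _ (pr_isPar G _)] at e1a e1b
  rw [k0] at e0a
  rw [k1] at e1a
  rcases sgn_cases a b with hs | hs
  · rcases sep_sameN G hn hqq hcomm ha hb hab hs (κ1 b) e1a e1b with h1 | ⟨d, hd⟩
    · exact ex1 h1
    · exact ex2 d hd
  · exact ex1 (sep_parityN G hn hqq hcomm ha hb hs (κ0 b) e0a e0b)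

/-- If both parities occur then the degree in the first factors is not constant. -/
lemma mixed_zero {X N : C} {n : ℕ} {q : R.H.obj (tp X n ⊗ N) ⟶ R.H.obj (tp X n ⊗ N)}
    (hn : 1 ≤ n) (hq : q ≫ q = q)
    (hcomm : ∀ (s : Bool) (a : R.H.obj X ⟶ R.H.obj X), IsPar R s a →
      dn R N s a n ≫ q = q ≫ dn R N s a n) {i j : ℤ} (hi : G.pr X i ≠ 0) (hj : G.pr X j ≠ 0)
    (hsg : sgn i = -sgn j) (c : ℚ) (hc : q ≫ dn R N false (G.deg X) n = (c : K) • q) :
    q = 0 := by
  have hnK : (n : K) ≠ 0 := by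
    have : n ≠ 0 := by omega
    exact_mod_cast this
  have hij : i ≠ j := by
    rintro rfl
    have h5 := sgn_sq i
    have h6 : sgn i = 0 := by linarith
    rw [h6, mul_zero] at h5
    exact zero_ne_one h5
  set z : ℤ → ℚ := (fun i : ℤ => (i : ℚ)) - (c / n) • (fun _ : ℤ => (1 : ℚ)) with hz
  have h1 : q ≫ dn R N false (G.th X z) n = 0 := by
    rw [hz, G.th_sub, G.th_smul, G.th_one, ← Grading.deg, ← dnL_apply, map_sub, map_smul,
      dnL_apply, dnL_apply, dn_one, Preadditive.comp_sub, hc, Linear.comp_smul, Linear.comp_smul,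
      Category.comp_id, smul_smul]
    have h2 : ((c / n : ℚ) : K) * (n : K) = (c : K) := by
      push_cast
      field_simp
    rw [h2, sub_self]
  have hzz : z i ≠ z j := by
    intro h
    apply hij
    have h2 : (i : ℚ) - (c / n) * 1 = (j : ℚ) - (c / n) * 1 := h
    have h3 : (i : ℚ) = (j : ℚ) := by linarith
    exact_mod_cast h3
  have h2 := killN G hcomm h1 hzz
  have e1 := congrArg (tr _) h2
  obtain ⟨r, hr, hr0, hr'⟩ := num_posN G hq hcomm i
  obtain ⟨t, ht, ht0, -⟩ := num_posN G hq hcomm j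
  obtain ⟨a, ha, ha'⟩ := G.dim X j
  obtain ⟨b, hb, hb'⟩ := G.dim X i
  have hs2 : sgn i * sgn j = -1 := by rw [hsg, neg_mul, sgn_sq]
  rw [map_smul, map_smul, map_smul, hr, ht, ha, hb, hs2, smul_eq_mul, smul_eq_mul,
    smul_eq_mul] at e1
  have e2 : (a : ℚ) * r = -1 * (b * t) := by exact_mod_cast e1
  have ha0 : (0 : ℚ) < a := by
    have : 0 < a := Nat.pos_of_ne_zero fun h => hj (ha' h)
    exact_mod_cast this
  have hb0 : (0 : ℚ) < b := by
    have : 0 < b := Nat.pos_of_ne_zero fun h => hi (hb' h)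
    exact_mod_cast this
  have e3 : r = 0 := by
    have h7 : 0 ≤ (b : ℚ) * t := mul_nonneg hb0.le ht0
    have h8 : (a : ℚ) * r ≤ 0 := by rw [e2]; linarith
    by_contra h9
    have h10 : 0 < r := lt_of_le_of_ne hr0 (Ne.symm h9)
    have h11 : 0 < (a : ℚ) * r := mul_pos ha0 h10
    linarith
  exact all_zeroN G hn hcomm hi (hr' e3)

/-- If the realisation of `M` has both parities, then the degree in the first factors is not
constant on a nonzero twisted Schur functor. -/
lemma nonconst_of_mixed {M N P : C} {n : ℕ} (hn : 1 ≤ n) (i : P ⟶ tp M n ⊗ N)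
    (r : tp M n ⊗ N ⟶ P)
    (hir : i ≫ r = 𝟙 P) (he : (r ≫ i : End (tp M n ⊗ N)) ∈ Algebra.adjoin ℚ
      ({f : End (tp M n ⊗ N) | ∃ t : tp M n ⟶ tp M n, IsSwap M n t ∧ f = t ▷ N} ∪
        {f : End (tp M n ⊗ N) | ∃ g : N ⟶ N, f = tp M n ◁ g}))
    (h0 : ¬ IsZero (R.H.obj P)) (j k : ℤ) (hj : Even j) (hk : Odd k) (hj0 : G.pr M j ≠ 0)
    (hk0 : G.pr M k ≠ 0) : ¬ ∃ d : ℤ, ∀ j, j ≠ d →
      R.H.map i ≫ δ R.H (tp M n) N ≫ (G.pr (tp M n) j ▷ R.H.obj N) = 0 := by
  rintro ⟨d, hd⟩
  set e : End (tp M n ⊗ N) := (r ≫ i : tp M n ⊗ N ⟶ tp M n ⊗ N) with hedef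
  have hee : e * e = e := by
    rw [End.mul_def]
    change (r ≫ i) ≫ (r ≫ i) = r ≫ i
    rw [Category.assoc, reassoc_of% hir]
  set q : R.H.obj (tp M n ⊗ N) ⟶ R.H.obj (tp M n ⊗ N) := R.H.map e with hq
  have hqq : q ≫ q = q := by
    rw [hq, ← Functor.map_comp, ← End.mul_def, hee]
  have hqe : q = R.H.map r ≫ R.H.map i := by rw [hq, hedef, Functor.map_comp]
  have hcomm : ∀ (s : Bool) (a : R.H.obj M ⟶ R.H.obj M), IsPar R s a →
      dn R N s a n ≫ q = q ≫ dn R N s a n := fun s a ha => dn_adjoin R ha he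
  have h1 : ∀ l, l ≠ d → R.H.map i ≫ bx R (G.pr (tp M n) l) (𝟙 (R.H.obj N)) = 0 := by
    intro l hl
    have h2 : R.H.map i ≫ bx R (G.pr (tp M n) l) (𝟙 (R.H.obj N)) =
        (R.H.map i ≫ δ R.H (tp M n) N ≫ (G.pr (tp M n) l ▷ R.H.obj N)) ≫ μ R.H (tp M n) N := by
      rw [bx, tensorHom_id]
      simp only [Category.assoc]
    rw [h2, hd l hl, zero_comp]
  have h2 : R.H.map i ≫ bx R (G.deg (tp M n)) (𝟙 (R.H.obj N)) = (d : K) • R.H.map i := by
    have h3 : (d : K) • R.H.map i =
        R.H.map i ≫ bx R ((d : K) • 𝟙 (R.H.obj (tp M n))) (𝟙 (R.H.obj N)) := by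
      rw [bx_smul_left, bx_one, Linear.comp_smul, Category.comp_id]
    rw [h3, Grading.deg, Grading.th, ← G.sum_supp (tp M n), Finset.smul_sum, ← bx_sum_left,
      ← bx_sum_left, Preadditive.comp_sum, Preadditive.comp_sum]
    refine Finset.sum_congr rfl fun l _ => ?_
    rw [bx_smul_left, bx_smul_left, Linear.comp_smul, Linear.comp_smul]
    by_cases hl : l = d
    · subst hl
      congr 1
      norm_cast
    · rw [h1 l hl, smul_zero, smul_zero]
  have h3 : q ≫ dn R N false (G.deg M) n = ((d : ℚ) : K) • q := by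
    rw [dn_def, ← G.deg_tp, hqe, Category.assoc, h2, Linear.comp_smul, Rat.cast_intCast]
  have hsg : sgn j = -sgn k := by rw [sgn_even hj, sgn_odd hk]; norm_num
  have h4 := mixed_zero G hn hqq hcomm hj0 hk0 hsg (d : ℚ) h3
  apply h0
  have h5 : 𝟙 (R.H.obj P) = 0 := by
    have h6 : R.H.map i ≫ q ≫ R.H.map r = 𝟙 _ := by
      rw [hqe]
      simp only [← Functor.map_comp, Category.assoc]
      rw [hir, Category.comp_id, hir, CategoryTheory.Functor.map_id]
    rw [← h6, h4, zero_comp, comp_zero]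
  exact (IsZero.iff_id_eq_zero _).mpr h5

/-- The conjecture ascends. -/
theorem C_ascends {M N P : C} {n : ℕ} (i : P ⟶ tp M n ⊗ N) (r : tp M n ⊗ N ⟶ P)
    (hir : i ≫ r = 𝟙 P) (hM : G.KunnethC L M) (hN : G.KunnethC L N) : G.KunnethC L P :=
  C_retract G i r hir (C_tensor G (C_tp G hM n) hN)

end

end Pool.Agent.K3h63.CC
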