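import Pool.Agent.K3h63.CC.DefsN
import Pool.Agent.K3h63.CC.MainN

/-!
# The Künneth type standard conjecture for twisted Schur functors: final form
-/

set_option autoImplicit false
set_option linter.unusedSectionVars false
set_option linter.unusedSimpArgs false
set_option backward.isDefEq.respectTransparency false
set_option backward.defeqAttrib.useBackward true

open CategoryTheory Limits MonoidalCategory
open Pool.Agent.Y112.SR Pool.Agent.Y112.KD Pool.Agent.Y112.SC

namespace Pool.Agent.K3h63.CC

universe v u w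

open Functor.LaxMonoidal Functor.OplaxMonoidal

section

variable {C : Type u} [Category.{v} C] [Preadditive C] [Linear ℚ C] [MonoidalCategory C]
  [MonoidalPreadditive C] [MonoidalLinear ℚ C] [SymmetricCategory C]
  [RightRigidCategory C] {K : Type w} [Field K] [CharZero K] {R : SuperRealisation C K}
  {L : Subfield K} (G : Grading R)

/-- If the degree in the first factors is constant then the conjecture for `N` suffices. -/
lemma C_of_constant {M N P : C} {n : ℕ} (i : P ⟶ tp M n ⊗ N) (r : tp M n ⊗ N ⟶ P)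
    (hir : i ≫ r = 𝟙 P) (hd : G.ConstantDegree i) (hN : G.KunnethC L N) : G.KunnethC L P := by
  obtain ⟨d, hd⟩ := hd
  have h1 : ∀ l, l ≠ d → R.H.map i ≫ bx R (G.pr (tp M n) l) (𝟙 (R.H.obj N)) = 0 := by
    intro l hl
    have h2 : R.H.map i ≫ bx R (G.pr (tp M n) l) (𝟙 (R.H.obj N)) =
        (R.H.map i ≫ δ R.H (tp M n) N ≫ (G.pr (tp M n) l ▷ R.H.obj N)) ≫ μ R.H (tp M n) N := by
      rw [bx, tensorHom_id]
      simp only [Category.assoc]
    rw [h2, hd l hl, zero_comp]
  have h2 : R.H.map i ≫ bx R (G.deg (tp M n)) (𝟙 (R.H.obj N)) = ((d : ℚ) : K) • R.H.map i := by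
    have h3 : ((d : ℚ) : K) • R.H.map i =
        R.H.map i ≫ bx R (((d : ℚ) : K) • 𝟙 (R.H.obj (tp M n))) (𝟙 (R.H.obj N)) := by
      rw [bx_smul_left, bx_one, Linear.comp_smul, Category.comp_id]
    rw [h3, Grading.deg, Grading.th, ← G.sum_supp (tp M n), Finset.smul_sum, ← bx_sum_left,
      ← bx_sum_left, Preadditive.comp_sum, Preadditive.comp_sum]
    refine Finset.sum_congr rfl fun l _ => ?_
    rw [bx_smul_left, bx_smul_left, Linear.comp_smul, Linear.comp_smul]
    by_cases hl : l = d
    · subst hl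
      rfl
    · rw [h1 l hl, smul_zero, smul_zero]
  apply C_of_deg
  have h3 : G.deg P = R.H.map i ≫ G.deg (tp M n ⊗ N) ≫ R.H.map r := by
    have h4 : R.H.map i ≫ G.deg (tp M n ⊗ N) = G.deg P ≫ R.H.map i := G.th_natural i _
    rw [← Category.assoc, h4, Category.assoc, ← Functor.map_comp, hir,
      CategoryTheory.Functor.map_id, Category.comp_id]
  rw [h3, G.deg_tensor, Preadditive.add_comp, Preadditive.comp_add, ← Category.assoc, h2,
    Linear.smul_comp, ← Functor.map_comp, hir, CategoryTheory.Functor.map_id]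
  refine ((Algebraic.one P).rat _).add ?_
  exact (Algebraic.map i).comp ((Algebraic.bx (Algebraic.one _) (C_th G hN _)).comp
    (Algebraic.map r))

/-- **The Künneth type standard conjecture for twisted Schur functors.** -/
theorem twisted {M N P : C} {n : ℕ} (i : P ⟶ tp M n ⊗ N) (r : tp M n ⊗ N ⟶ P)
    (h : IsTwistedSchur i r) :
    (G.KunnethC L P → G.KunnethC L M ∨ G.ConstantDegree i) ∧
    (G.KunnethC L N → (G.KunnethC L P ↔ G.KunnethC L M ∨ G.ConstantDegree i)) ∧
    (1 ≤ n → ¬ IsZero (R.H.obj P) → G.Mixed M → ¬ G.ConstantDegree i) := by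
  have h1 : G.KunnethC L P → G.KunnethC L M ∨ G.ConstantDegree i := by
    intro hP
    by_cases hd : G.ConstantDegree i
    · exact Or.inr hd
    · exact Or.inl (C_of_schurN G i r h.split h.mem hd hP)
  refine ⟨h1, fun hN => ⟨h1, ?_⟩, ?_⟩
  · rintro (hM | hd)
    · exact C_ascends G i r h.split hM hN
    · exact C_of_constant G i r h.split hd hN
  · rintro hn h0 ⟨j, k, hj, hk, hj0, hk0⟩
    exact nonconst_of_mixed G hn i r h.split h.mem h0 j k hj hk hj0 hk0

end

end Pool.Agent.K3h63.CC
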