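import Mathlib

/-!
# Traces of operators on finite dimensional vector spaces
-/

set_option autoImplicit false
set_option linter.unusedSectionVars false
set_option linter.unusedSimpArgs false

open CategoryTheory Limits

namespace Pool.Agent.K3h63.CC

universe w

variable {K : Type w} [Field K]

/-- The trace as a linear map. -/
noncomputable def tr (V : ModuleCat.{w} K) : (V ⟶ V) →ₗ[K] K where
  toFun f := LinearMap.trace K V f.hom
  map_add' a b := by rw [ModuleCat.hom_add, map_add]
  map_smul' k a := by rw [ModuleCat.hom_smul, map_smul, RingHom.id_apply]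

lemma tr_apply {V : ModuleCat.{w} K} (f : V ⟶ V) : tr V f = LinearMap.trace K V f.hom := rfl

lemma tr_comm {V W : ModuleCat.{w} K} (hV : Module.Finite K V) (hW : Module.Finite K W)
    (f : V ⟶ W) (g : W ⟶ V) : tr V (f ≫ g) = tr W (g ≫ f) := by
  rw [tr_apply, tr_apply, ModuleCat.hom_comp, ModuleCat.hom_comp]
  exact LinearMap.trace_comp_comm' _ _

lemma tr_swap {V : ModuleCat.{w} K} (f g : V ⟶ V) : tr V (f ≫ g) = tr V (g ≫ f) := by
  rw [tr_apply, tr_apply, ModuleCat.hom_comp, ModuleCat.hom_comp]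
  exact LinearMap.trace_mul_comm K _ _

/-- The trace form is nondegenerate. -/
lemma tr_nd {V : ModuleCat.{w} K} (hV : Module.Finite K V) (F : V ⟶ V)
    (h : ∀ x : V ⟶ V, tr V (F ≫ x) = 0) : F = 0 := by
  apply ModuleCat.hom_ext
  apply LinearMap.ext
  intro v
  rw [ModuleCat.hom_zero, LinearMap.zero_apply]
  rw [← Module.forall_dual_apply_eq_zero_iff K]
  intro φ
  have h1 := h (ModuleCat.ofHom (φ.smulRight v))
  rw [tr_swap, tr_apply, ModuleCat.hom_comp] at h1
  have h2 : F.hom ∘ₗ (φ.smulRight v) = φ.smulRight (F.hom v) := by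
    apply LinearMap.ext
    intro x
    simp
  have h3 : LinearMap.trace K V (F.hom ∘ₗ (φ.smulRight v)) = 0 := h1
  rw [h2, LinearMap.trace_smulRight] at h3
  exact h3

/-- Operators with `∑ E x E' = tr x`. -/
lemma sandwich {V : ModuleCat.{w} K} (hV : Module.Finite K V) :
    ∃ (κ : Type) (_ : Fintype κ) (E E' : κ → (V ⟶ V)),
    (∀ x : V ⟶ V, ∑ k, E k ≫ x ≫ E' k = tr V x • 𝟙 V) ∧
    (∀ x : V ⟶ V, ∑ k, E' k ≫ x ≫ E k = tr V x • 𝟙 V) := by
  classical
  let b := Module.finBasis K V
  have key : ∀ x : V ⟶ V, ∑ k : Fin (Module.finrank K V) × Fin (Module.finrank K V),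
      (ModuleCat.ofHom ((b.coord k.2).smulRight (b k.1)) : V ⟶ V) ≫ x ≫
        (ModuleCat.ofHom ((b.coord k.1).smulRight (b k.2)) : V ⟶ V) = tr V x • 𝟙 V := by
    intro x
    apply ModuleCat.hom_ext
    apply LinearMap.ext
    intro v
    have ht : tr V x = ∑ k, b.repr (x.hom (b k)) k := by
      rw [tr_apply, LinearMap.trace_eq_matrix_trace K b, Matrix.trace]
      refine Finset.sum_congr rfl fun k _ => ?_
      rw [Matrix.diag_apply, LinearMap.toMatrix_apply]
    rw [ModuleCat.hom_sum, LinearMap.sum_apply, Fintype.sum_prod_type]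
    have h1 : ∀ k l, ((ModuleCat.ofHom ((b.coord l).smulRight (b k)) : V ⟶ V) ≫ x ≫
        (ModuleCat.ofHom ((b.coord k).smulRight (b l)) : V ⟶ V)).hom v =
        b.repr (x.hom (b k)) k • (b.repr v l • b l) := by
      intro k l
      simp [smul_smul, mul_comm]
    simp only [h1]
    have h2 : ∀ k, ∑ l, b.repr (x.hom (b k)) k • (b.repr v l • b l) =
        b.repr (x.hom (b k)) k • v := by
      intro k
      rw [← Finset.smul_sum, b.sum_repr]
    simp only [h2]
    rw [← Finset.sum_smul, ← ht]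
    rfl
  refine ⟨Fin (Module.finrank K V) × Fin (Module.finrank K V), inferInstance,
    fun k => ModuleCat.ofHom ((b.coord k.2).smulRight (b k.1)),
    fun k => ModuleCat.ofHom ((b.coord k.1).smulRight (b k.2)), key, fun x => ?_⟩
  have h1 := key x
  rw [← Equiv.sum_comp (Equiv.prodComm _ _)] at h1
  exact h1

/-- The trace of an idempotent. -/
lemma tr_idem [CharZero K] {V : ModuleCat.{w} K} (hV : Module.Finite K V) (e : V ⟶ V)
    (he : e ≫ e = e) : ∃ p : ℕ, tr V e = p ∧ (p = 0 → e = 0) := by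
  have he' : IsIdempotentElem e.hom := congrArg ModuleCat.Hom.hom he
  have h2 := (LinearMap.IsIdempotentElem.isProj_range _ he').trace
  refine ⟨_, h2, fun h => ?_⟩
  apply ModuleCat.hom_ext
  refine (LinearMap.IsIdempotentElem.trace_eq_zero_iff he').mp ?_
  rw [h2, h, Nat.cast_zero]

/-- Traces of diagonal operators composed with a commuting idempotent. -/
lemma posit [CharZero K] {V : ModuleCat.{w} K} (hV : Module.Finite K V) {ι : Type} [Fintype ι]
    (e : ι → (V ⟶ V)) (he : ∀ k, e k ≫ e k = e k) (heo : ∀ k l, k ≠ l → e k ≫ e l = 0)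
    (h1 : ∑ k, e k = 𝟙 V) (c : ι → ℚ) (q T : V ⟶ V) (hT : T = ∑ k, (c k : K) • e k)
    (hq : q ≫ q = q) (hqT : q ≫ T = T ≫ q) (g : ℚ → ℚ) :
    ∃ r : ℚ, tr V (q ≫ ∑ k, (g (c k) : K) • e k) = r ∧ ((∀ k, 0 ≤ g (c k)) → 0 ≤ r ∧
      (r = 0 → (∀ k, g (c k) = 0 → c k = 0) → q ≫ T = 0)) := by
  classical
  set P : ℚ → (V ⟶ V) := fun x => ∑ k ∈ Finset.univ.filter (fun k => c k = x), e k with hP
  set s : Finset ℚ := Finset.univ.image c with hs
  have f1 : ∀ g : ℚ → ℚ, ∑ k, (g (c k) : K) • e k = ∑ x ∈ s, (g x : K) • P x := by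
    intro g
    rw [← Finset.sum_fiberwise_of_maps_to (s := Finset.univ) (t := s) (g := c)
      (fun k _ => Finset.mem_image_of_mem c (Finset.mem_univ k))]
    refine Finset.sum_congr rfl fun x _ => ?_
    rw [hP, Finset.smul_sum]
    refine Finset.sum_congr rfl fun k hk => ?_
    rw [(Finset.mem_filter.mp hk).2]
  have f1' : ∑ x ∈ s, P x = 𝟙 V := by
    have h := f1 (fun _ => 1)
    simp only [Rat.cast_one, one_smul] at h
    rw [← h, h1]
  have fT : T = ∑ x ∈ s, (x : K) • P x := by rw [hT, f1 (fun x => x)]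
  have g1 : ∀ k, T ≫ e k = (c k : K) • e k := by
    intro k
    rw [hT, Preadditive.sum_comp, Finset.sum_eq_single k]
    · rw [Linear.smul_comp, he]
    · intro l _ hl
      rw [Linear.smul_comp, heo l k hl, smul_zero]
    · intro h
      exact absurd (Finset.mem_univ k) h
  have g2 : ∀ k, e k ≫ T = (c k : K) • e k := by
    intro k
    rw [hT, Preadditive.comp_sum, Finset.sum_eq_single k]
    · rw [Linear.comp_smul, he]
    · intro l _ hl
      rw [Linear.comp_smul, heo k l (Ne.symm hl), smul_zero]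
    · intro h
      exact absurd (Finset.mem_univ k) h
  have f3 : ∀ x, T ≫ P x = (x : K) • P x := by
    intro x
    rw [hP, Preadditive.comp_sum, Finset.smul_sum]
    refine Finset.sum_congr rfl fun k hk => ?_
    rw [g1, (Finset.mem_filter.mp hk).2]
  have f3' : ∀ x, P x ≫ T = (x : K) • P x := by
    intro x
    rw [hP, Preadditive.sum_comp, Finset.smul_sum]
    refine Finset.sum_congr rfl fun k hk => ?_
    rw [g2, (Finset.mem_filter.mp hk).2]
  have f2 : ∀ x, P x ≫ P x = P x := by
    intro x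
    rw [hP, Preadditive.sum_comp]
    refine Finset.sum_congr rfl fun k hk => ?_
    rw [Preadditive.comp_sum, Finset.sum_eq_single k]
    · rw [he]
    · intro l _ hl
      exact heo k l (Ne.symm hl)
    · intro h
      exact absurd hk h
  have f4 : ∀ x y, x ≠ y → P x ≫ q ≫ P y = 0 := by
    intro x y hxy
    have a1 : P x ≫ T ≫ q ≫ P y = (x : K) • (P x ≫ q ≫ P y) := by
      rw [← Category.assoc, f3', Linear.smul_comp]
    have a2 : P x ≫ T ≫ q ≫ P y = (y : K) • (P x ≫ q ≫ P y) := by
      rw [← Category.assoc T, ← hqT, Category.assoc, f3, Linear.comp_smul, Linear.comp_smul]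
    have a3 : ((x : K) - y) • (P x ≫ q ≫ P y) = 0 := by rw [sub_smul, ← a1, ← a2, sub_self]
    rcases smul_eq_zero.mp a3 with h | h
    · exfalso
      apply hxy
      have h' : (x : K) = (y : K) := sub_eq_zero.mp h
      exact_mod_cast h'
    · exact h
  have f5 : ∀ x ∈ s, q ≫ P x = P x ≫ q := by
    intro x hx
    have a1 : P x ≫ q = P x ≫ q ≫ P x := by
      calc P x ≫ q = P x ≫ q ≫ 𝟙 V := by rw [Category.comp_id]
        _ = P x ≫ q ≫ P x := by
          rw [← f1', Preadditive.comp_sum, Preadditive.comp_sum, Finset.sum_eq_single x]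
          · intro y _ hy
            exact f4 x y (Ne.symm hy)
          · intro h
            exact absurd hx h
    have a2 : q ≫ P x = P x ≫ q ≫ P x := by
      calc q ≫ P x = 𝟙 V ≫ q ≫ P x := by rw [Category.id_comp]
        _ = P x ≫ q ≫ P x := by
          rw [← f1', Preadditive.sum_comp, Finset.sum_eq_single x]
          · intro y _ hy
            exact f4 y x hy
          · intro h
            exact absurd hx h
    exact a2.trans a1.symm
  have f6 : ∀ x ∈ s, (q ≫ P x) ≫ (q ≫ P x) = q ≫ P x := by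
    intro x hx
    calc (q ≫ P x) ≫ (q ≫ P x) = (P x ≫ q) ≫ (q ≫ P x) := by rw [f5 x hx]
      _ = P x ≫ (q ≫ q) ≫ P x := by simp only [Category.assoc]
      _ = (P x ≫ q) ≫ P x := by rw [hq, Category.assoc]
      _ = q ≫ P x := by rw [← f5 x hx, Category.assoc, f2]
  have f7 : ∀ x : ℚ, ∃ p : ℕ, x ∈ s → tr V (q ≫ P x) = p ∧ (p = 0 → q ≫ P x = 0) := by
    intro x
    by_cases hx : x ∈ s
    · obtain ⟨p, hp⟩ := tr_idem hV _ (f6 x hx)
      exact ⟨p, fun _ => hp⟩
    · exact ⟨0, fun h => absurd h hx⟩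
  choose p hp using f7
  refine ⟨∑ x ∈ s, g x * p x, ?_, fun hg => ⟨?_, fun hr hg0 => ?_⟩⟩
  · rw [f1, Preadditive.comp_sum, map_sum]
    push_cast
    refine Finset.sum_congr rfl fun x hx => ?_
    rw [Linear.comp_smul, map_smul, (hp x hx).1, smul_eq_mul]
  · refine Finset.sum_nonneg fun x hx => ?_
    obtain ⟨k, -, rfl⟩ := Finset.mem_image.mp hx
    exact mul_nonneg (hg k) (Nat.cast_nonneg _)
  · have hz := (Finset.sum_eq_zero_iff_of_nonneg (s := s) (f := fun x => g x * (p x : ℚ))
      (by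
        intro x hx
        obtain ⟨k, -, rfl⟩ := Finset.mem_image.mp hx
        exact mul_nonneg (hg k) (Nat.cast_nonneg _))).mp hr
    rw [fT, Preadditive.comp_sum]
    refine Finset.sum_eq_zero fun x hx => ?_
    rw [Linear.comp_smul]
    rcases mul_eq_zero.mp (hz x hx) with h | h
    · obtain ⟨k, -, rfl⟩ := Finset.mem_image.mp hx
      rw [hg0 k h, Rat.cast_zero, zero_smul]
    · rw [(hp x hx).2 (by exact_mod_cast h), smul_zero]

end Pool.Agent.K3h63.CC
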