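import Pool.Agent.K3h63.CC.Defs
import Pool.Agent.K3h63.CC.Der
import Pool.Agent.K3h63.CC.Lin

/-!
# Algebraic operators and diagonal operators
-/

set_option autoImplicit false
set_option linter.unusedSectionVars false
set_option linter.unusedSimpArgs false
set_option backward.isDefEq.respectTransparency false
set_option backward.defeqAttrib.useBackward true

open CategoryTheory Limits MonoidalCategory
open Pool.Agent.Y112.SR Pool.Agent.Y112.KD Pool.Agent.Y112.SC

namespace Pool.Agent.K3h63.CC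

universe v u w

open Functor.LaxMonoidal Functor.OplaxMonoidal

section

variable {C : Type u} [Category.{v} C] [Preadditive C] [MonoidalCategory C] [SymmetricCategory C]
  {K : Type w} [Field K] {R : SuperRealisation C K} {L : Subfield K}

lemma Algebraic.map {X Y : C} (f : X ⟶ Y) : Algebraic R L (R.H.map f) :=
  AddSubgroup.subset_closure ⟨1, L.one_mem, f, (one_smul _ _).symm⟩

lemma Algebraic.one (X : C) : Algebraic R L (𝟙 (R.H.obj X)) := by
  rw [← CategoryTheory.Functor.map_id]
  exact Algebraic.map _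

lemma Algebraic.zero (X Y : C) : Algebraic R L (0 : R.H.obj X ⟶ R.H.obj Y) :=
  AddSubgroup.zero_mem _

lemma Algebraic.add {X Y : C} {x y : R.H.obj X ⟶ R.H.obj Y} (hx : Algebraic R L x)
    (hy : Algebraic R L y) : Algebraic R L (x + y) :=
  AddSubgroup.add_mem _ hx hy

lemma Algebraic.neg {X Y : C} {x : R.H.obj X ⟶ R.H.obj Y} (hx : Algebraic R L x) :
    Algebraic R L (-x) :=
  AddSubgroup.neg_mem _ hx

lemma Algebraic.sub {X Y : C} {x y : R.H.obj X ⟶ R.H.obj Y} (hx : Algebraic R L x)
    (hy : Algebraic R L y) : Algebraic R L (x - y) :=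
  AddSubgroup.sub_mem _ hx hy

lemma Algebraic.sum {X Y : C} {ι : Type*} (s : Finset ι) {x : ι → (R.H.obj X ⟶ R.H.obj Y)}
    (hx : ∀ i ∈ s, Algebraic R L (x i)) : Algebraic R L (∑ i ∈ s, x i) :=
  AddSubgroup.sum_mem _ hx

lemma Algebraic.smul {X Y : C} {x : R.H.obj X ⟶ R.H.obj Y} (hx : Algebraic R L x) {c : K}
    (hc : c ∈ L) : Algebraic R L (c • x) := by
  unfold Algebraic at hx
  induction hx using AddSubgroup.closure_induction with
  | mem y hy =>
    obtain ⟨d, hd, f, rfl⟩ := hy
    rw [smul_smul]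
    exact AddSubgroup.subset_closure ⟨c * d, L.mul_mem hc hd, f, rfl⟩
  | zero => rw [smul_zero]; exact Algebraic.zero X Y
  | add y z _ _ hy hz => rw [smul_add]; exact hy.add hz
  | neg y _ hy => rw [smul_neg]; exact hy.neg

lemma Algebraic.rat {X Y : C} {x : R.H.obj X ⟶ R.H.obj Y} (hx : Algebraic R L x) (q : ℚ) :
    Algebraic R L ((q : K) • x) :=
  hx.smul (SubfieldClass.ratCast_mem L q)

lemma Algebraic.comp {X Y Z : C} {x : R.H.obj X ⟶ R.H.obj Y} {y : R.H.obj Y ⟶ R.H.obj Z}
    (hx : Algebraic R L x) (hy : Algebraic R L y) : Algebraic R L (x ≫ y) := by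
  unfold Algebraic at hx
  induction hx using AddSubgroup.closure_induction with
  | mem z hz =>
    obtain ⟨c, hc, f, rfl⟩ := hz
    unfold Algebraic at hy
    induction hy using AddSubgroup.closure_induction with
    | mem z hz =>
      obtain ⟨d, hd, g, rfl⟩ := hz
      refine AddSubgroup.subset_closure ⟨c * d, L.mul_mem hc hd, f ≫ g, ?_⟩
      rw [Linear.smul_comp, Linear.comp_smul, smul_smul, Functor.map_comp]
    | zero => rw [comp_zero]; exact Algebraic.zero X Z
    | add y z _ _ hy hz => rw [Preadditive.comp_add]; exact hy.add hz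
    | neg y _ hy => rw [Preadditive.comp_neg]; exact hy.neg
  | zero => rw [zero_comp]; exact Algebraic.zero X Z
  | add u v _ _ hu hv => rw [Preadditive.add_comp]; exact hu.add hv
  | neg u _ hu => rw [Preadditive.neg_comp]; exact hu.neg

lemma Algebraic.par_comm {X Y : C} {x : R.H.obj X ⟶ R.H.obj Y} (hx : Algebraic R L x) :
    x ≫ R.par Y = R.par X ≫ x := by
  unfold Algebraic at hx
  induction hx using AddSubgroup.closure_induction with
  | mem z hz =>
    obtain ⟨c, hc, f, rfl⟩ := hz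
    rw [Linear.smul_comp, Linear.comp_smul, R.par_natural]
  | zero => rw [zero_comp, comp_zero]
  | add u v _ _ hu hv => rw [Preadditive.add_comp, Preadditive.comp_add, hu, hv]
  | neg u _ hu => rw [Preadditive.neg_comp, Preadditive.comp_neg, hu]

lemma Algebraic.pr_comm (G : Grading R) {X Y : C} {x : R.H.obj X ⟶ R.H.obj Y}
    (hx : Algebraic R L x) (i : ℤ) : x ≫ G.pr Y i = G.pr X i ≫ x := by
  unfold Algebraic at hx
  induction hx using AddSubgroup.closure_induction with
  | mem z hz =>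
    obtain ⟨c, hc, f, rfl⟩ := hz
    rw [Linear.smul_comp, Linear.comp_smul, G.natural]
  | zero => rw [zero_comp, comp_zero]
  | add u v _ _ hu hv => rw [Preadditive.add_comp, Preadditive.comp_add, hu, hv]
  | neg u _ hu => rw [Preadditive.neg_comp, Preadditive.comp_neg, hu]

variable (G : Grading R)

/-- The degrees of the realisation. -/
noncomputable def Grading.supp (X : C) : Finset ℤ := (G.complete X).choose

lemma Grading.sum_supp (X : C) : ∑ i ∈ G.supp X, G.pr X i = 𝟙 _ := (G.complete X).choose_spec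

lemma Grading.pr_zero {X : C} {i : ℤ} (hi : i ∉ G.supp X) : G.pr X i = 0 := by
  calc G.pr X i = G.pr X i ≫ 𝟙 _ := by rw [Category.comp_id]
    _ = 0 := by
      rw [← G.sum_supp X, Preadditive.comp_sum]
      refine Finset.sum_eq_zero fun j hj => G.orth X i j ?_
      rintro rfl
      exact hi hj

/-- The diagonal operator with the eigenvalue `z i` in degree `i`. -/
noncomputable def Grading.th (X : C) (z : ℤ → ℚ) : R.H.obj X ⟶ R.H.obj X :=
  ∑ i ∈ G.supp X, (z i : K) • G.pr X i

lemma Grading.th_eq_sum {X : C} (z : ℤ → ℚ) {s : Finset ℤ} (hs : G.supp X ⊆ s) :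
    G.th X z = ∑ i ∈ s, (z i : K) • G.pr X i := by
  rw [Grading.th]
  refine Finset.sum_subset hs fun i _ hi => ?_
  rw [G.pr_zero hi, smul_zero]

lemma Grading.pr_th (X : C) (z : ℤ → ℚ) (i : ℤ) : G.pr X i ≫ G.th X z = (z i : K) • G.pr X i := by
  classical
  rw [G.th_eq_sum z (Finset.subset_insert i (G.supp X)), Preadditive.comp_sum,
    Finset.sum_eq_single i]
  · rw [Linear.comp_smul, G.idem]
  · intro j _ hj
    rw [Linear.comp_smul, G.orth X i j (Ne.symm hj), smul_zero]
  · intro h
    exact absurd (Finset.mem_insert_self i _) h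

lemma Grading.th_pr (X : C) (z : ℤ → ℚ) (i : ℤ) : G.th X z ≫ G.pr X i = (z i : K) • G.pr X i := by
  classical
  rw [G.th_eq_sum z (Finset.subset_insert i (G.supp X)), Preadditive.sum_comp,
    Finset.sum_eq_single i]
  · rw [Linear.smul_comp, G.idem]
  · intro j _ hj
    rw [Linear.smul_comp, G.orth X j i hj, smul_zero]
  · intro h
    exact absurd (Finset.mem_insert_self i _) h

/-- Operators are determined by their compositions with the projectors. -/
lemma Grading.ext {X : C} {V : ModuleCat.{w} K} {x y : R.H.obj X ⟶ V}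
    (h : ∀ i ∈ G.supp X, G.pr X i ≫ x = G.pr X i ≫ y) : x = y := by
  rw [← Category.id_comp x, ← Category.id_comp y, ← G.sum_supp X, Preadditive.sum_comp,
    Preadditive.sum_comp]
  exact Finset.sum_congr rfl h

lemma Grading.th_congr (X : C) {z z' : ℤ → ℚ} (h : ∀ i, G.pr X i ≠ 0 → z i = z' i) :
    G.th X z = G.th X z' := by
  apply G.ext
  intro i _
  rw [G.pr_th, G.pr_th]
  by_cases hi : G.pr X i = 0
  · rw [hi, smul_zero, smul_zero]
  · rw [h i hi]

lemma Grading.th_one (X : C) : G.th X (fun _ => 1) = 𝟙 _ := by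
  rw [Grading.th, ← G.sum_supp X]
  simp

end

section

variable {C : Type u} [Category.{v} C] [Preadditive C] [MonoidalCategory C] [SymmetricCategory C]
  {K : Type w} [Field K] [CharZero K] {R : SuperRealisation C K} {L : Subfield K}
  (G : Grading R)

lemma Grading.th_comp (X : C) (z z' : ℤ → ℚ) : G.th X z ≫ G.th X z' = G.th X (z * z') := by
  apply G.ext
  intro i _
  rw [← Category.assoc, G.pr_th, Linear.smul_comp, G.pr_th, G.pr_th, smul_smul, Pi.mul_apply,
    Rat.cast_mul]

lemma Grading.th_add (X : C) (z z' : ℤ → ℚ) : G.th X (z + z') = G.th X z + G.th X z' := by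
  apply G.ext
  intro i _
  rw [Preadditive.comp_add, G.pr_th, G.pr_th, G.pr_th, Pi.add_apply, Rat.cast_add, add_smul]

lemma Grading.th_smul (X : C) (q : ℚ) (z : ℤ → ℚ) : G.th X (q • z) = (q : K) • G.th X z := by
  apply G.ext
  intro i _
  rw [Linear.comp_smul, G.pr_th, G.pr_th, Pi.smul_apply, smul_eq_mul, Rat.cast_mul, smul_smul]

lemma Grading.th_sub (X : C) (z z' : ℤ → ℚ) : G.th X (z - z') = G.th X z - G.th X z' := by
  apply G.ext
  intro i _
  rw [Preadditive.comp_sub, G.pr_th, G.pr_th, G.pr_th, Pi.sub_apply, Rat.cast_sub, sub_smul]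

lemma Grading.th_single (X : C) (i : ℤ) : G.th X (Pi.single i 1) = G.pr X i := by
  apply G.ext
  intro j _
  rw [G.pr_th]
  by_cases h : j = i
  · subst h
    rw [Pi.single_eq_same, Rat.cast_one, one_smul, G.idem]
  · rw [Pi.single_eq_of_ne h, Rat.cast_zero, zero_smul, G.orth X j i h]

/-- The sign of a degree. -/
def sgn (i : ℤ) : ℚ := if Even i then 1 else -1

lemma sgn_even {i : ℤ} (h : Even i) : sgn i = 1 := if_pos h

lemma sgn_odd {i : ℤ} (h : Odd i) : sgn i = -1 := if_neg (Int.not_even_iff_odd.mpr h)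

lemma sgn_sq (i : ℤ) : sgn i * sgn i = 1 := by
  rcases Int.even_or_odd i with h | h
  · rw [sgn_even h]; norm_num
  · rw [sgn_odd h]; norm_num

lemma Grading.pr_par (X : C) (i : ℤ) : G.pr X i ≫ R.par X = (sgn i : K) • G.pr X i := by
  rcases Int.even_or_odd i with h | h
  · rw [sgn_even h, G.even X i h, Rat.cast_one, one_smul]
  · rw [sgn_odd h, G.odd X i h, Rat.cast_neg, Rat.cast_one, neg_smul, one_smul]

lemma Grading.th_sgn (X : C) : G.th X sgn = R.par X := by
  apply G.ext
  intro i _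
  rw [G.pr_th, G.pr_par]

lemma Grading.par_pr (X : C) (i : ℤ) : R.par X ≫ G.pr X i = (sgn i : K) • G.pr X i := by
  rw [← G.th_sgn, G.th_pr]

lemma Grading.th_isPar (X : C) (z : ℤ → ℚ) : IsPar R false (G.th X z) := by
  change G.th X z ≫ R.par X = R.par X ≫ G.th X z
  rw [← G.th_sgn, G.th_comp, G.th_comp, mul_comm]

lemma Grading.th_natural {X Y : C} (f : X ⟶ Y) (z : ℤ → ℚ) :
    R.H.map f ≫ G.th Y z = G.th X z ≫ R.H.map f := by
  apply G.ext
  intro i _
  rw [← Category.assoc, ← G.natural, Category.assoc, G.pr_th, Linear.comp_smul, G.natural,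
    ← Category.assoc, G.pr_th, Linear.smul_comp]

/-- The projectors of a tensor product. -/
lemma Grading.bx_pr (X Y : C) (i j : ℤ) :
    bx R (G.pr X i) (G.pr Y j) ≫ G.pr (X ⊗ Y) (i + j) = bx R (G.pr X i) (G.pr Y j) := by
  rw [bx, Category.assoc, Category.assoc, G.tensor]

/-- The degree operator. -/
noncomputable def Grading.deg (X : C) : R.H.obj X ⟶ R.H.obj X := G.th X (fun i => (i : ℚ))

lemma bx_sum_right {Q X : C} {ι : Type*} (s : Finset ι) (a : R.H.obj Q ⟶ R.H.obj Q)
    (b : ι → (R.H.obj X ⟶ R.H.obj X)) : ∑ i ∈ s, bx R a (b i) = bx R a (∑ i ∈ s, b i) := by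
  classical
  induction s using Finset.induction_on with
  | empty => rw [Finset.sum_empty, Finset.sum_empty, bx_zero_right]
  | insert i s hi ih => rw [Finset.sum_insert hi, Finset.sum_insert hi, bx_add_right, ih]

/-- Operators on tensor products are determined by the bigraded parts. -/
lemma Grading.ext_bx {X Y : C} {V : ModuleCat.{w} K} {x y : R.H.obj (X ⊗ Y) ⟶ V}
    (h : ∀ i j, bx R (G.pr X i) (G.pr Y j) ≫ x = bx R (G.pr X i) (G.pr Y j) ≫ y) : x = y := by
  rw [← Category.id_comp x, ← Category.id_comp y, ← bx_one, ← G.sum_supp X, ← G.sum_supp Y,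
    ← bx_sum_left]
  simp only [← bx_sum_right, Preadditive.sum_comp]
  exact Finset.sum_congr rfl fun i _ => Finset.sum_congr rfl fun j _ => h i j

lemma Grading.deg_tensor (X Y : C) : G.deg (X ⊗ Y) = bx R (G.deg X) (𝟙 _) +
    bx R (𝟙 _) (G.deg Y) := by
  apply G.ext_bx
  intro i j
  rw [Preadditive.comp_add, bx_comp, bx_comp, Category.comp_id, Category.comp_id, Grading.deg,
    Grading.deg, Grading.deg, G.pr_th, G.pr_th, bx_smul_left, bx_smul_right, ← G.bx_pr,
    Category.assoc, G.pr_th, Linear.comp_smul, ← add_smul]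
  push_cast
  rfl

lemma Grading.deg_tp (X : C) (n : ℕ) : G.deg (tp X n) = der R false (G.deg X) n := by
  induction n with
  | zero =>
    have h1 : G.pr (tp X 0) 0 = 𝟙 _ := G.unit
    rw [der_zero, ← Category.id_comp (G.deg (tp X 0)), ← h1, Grading.deg, G.pr_th]
    simp
  | succ n ih =>
    rw [der_succ, ← ih, sg_false]
    exact G.deg_tensor (tp X n) X

end

section

variable {C : Type u} [Category.{v} C] [Preadditive C] [Linear ℚ C] [MonoidalCategory C]
  [MonoidalPreadditive C] [MonoidalLinear ℚ C] [SymmetricCategory C]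
  [RightRigidCategory C] {K : Type w} [Field K] {R : SuperRealisation C K} {L : Subfield K}

lemma Algebraic.PT {Q X : C} {x : R.H.obj (Q ⊗ X) ⟶ R.H.obj (Q ⊗ X)} (hx : Algebraic R L x) :
    Algebraic R L (PT R x) := by
  unfold Algebraic at hx
  induction hx using AddSubgroup.closure_induction with
  | mem z hz =>
    obtain ⟨c, hc, f, rfl⟩ := hz
    rw [PT_smul, PT_map]
    exact (Algebraic.map _).smul hc
  | zero =>
    have h := PT_smul R (0 : K) (0 : R.H.obj (Q ⊗ X) ⟶ R.H.obj (Q ⊗ X))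
    rw [zero_smul, zero_smul] at h
    rw [h]
    exact Algebraic.zero Q Q
  | add u v _ _ hu hv => rw [PT_add]; exact hu.add hv
  | neg u _ hu =>
    have h := PT_smul R (-1 : K) u
    rw [neg_smul, neg_smul, one_smul, one_smul] at h
    rw [h]
    exact hu.neg

variable (R)

/-- The partial trace over the first factor. -/
noncomputable def PTL {Q X : C} (y : R.H.obj (Q ⊗ X) ⟶ R.H.obj (Q ⊗ X)) :
    R.H.obj X ⟶ R.H.obj X :=
  PT R (R.H.map (β_ X Q).hom ≫ y ≫ R.H.map (β_ Q X).hom)

/-- The sum of the partial traces over all factors but one. -/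
noncomputable def Phi (X : C) : ∀ n : ℕ, (R.H.obj (tp X n) ⟶ R.H.obj (tp X n)) →
    (R.H.obj X ⟶ R.H.obj X)
  | 0, _ => 0
  | n + 1, y => Phi X n (PT R y) + PTL R y

lemma Phi_succ (X : C) (n : ℕ) (y : R.H.obj (tp X (n + 1)) ⟶ R.H.obj (tp X (n + 1))) :
    Phi R X (n + 1) y = Phi R X n (PT R (Q := tp X n) (X := X) y) +
      PTL R (Q := tp X n) (X := X) y := rfl

variable {R}

lemma Algebraic.Phi {X : C} {n : ℕ} {y : R.H.obj (tp X n) ⟶ R.H.obj (tp X n)}
    (hy : Algebraic R L y) : Algebraic R L (Phi R X n y) := by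
  induction n with
  | zero => exact Algebraic.zero X X
  | succ n ih =>
    rw [Phi_succ]
    refine (ih (Algebraic.PT hy)).add ?_
    rw [PTL]
    exact Algebraic.PT ((Algebraic.map _).comp (hy.comp (Algebraic.map _)))

variable (R)

lemma PTL_trace {Q X : C} (y : R.H.obj (Q ⊗ X) ⟶ R.H.obj (Q ⊗ X)) (a : R.H.obj X ⟶ R.H.obj X)
    (ha : IsPar R false a) :
    tr _ (a ≫ PTL R y ≫ R.par X) = tr _ (bx R (𝟙 _) a ≫ y ≫ R.par (Q ⊗ X)) := by
  have hK := R_charZero R
  have f1 := R.finite (Q ⊗ X)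
  have f2 := R.finite (X ⊗ Q)
  have h1 := trace_PT R a (R.H.map (β_ X Q).hom ≫ y ≫ R.H.map (β_ Q X).hom)
  have h2 : bx R a (𝟙 (R.H.obj Q)) ≫ R.H.map (β_ X Q).hom =
      R.H.map (β_ X Q).hom ≫ bx R (𝟙 (R.H.obj Q)) a :=
    bx_braid_even R two_ne_zero a (𝟙 _) ha (by rw [Category.comp_id, Category.id_comp])
  rw [tr_apply, PTL, h1, ← tr_apply]
  have h3 : bx R a (𝟙 (R.H.obj Q)) ≫ (R.H.map (β_ X Q).hom ≫ y ≫ R.H.map (β_ Q X).hom) ≫
      R.par (X ⊗ Q) = R.H.map (β_ X Q).hom ≫ (bx R (𝟙 (R.H.obj Q)) a ≫ y ≫ R.par (Q ⊗ X) ≫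
        R.H.map (β_ Q X).hom) := by
    simp only [Category.assoc]
    rw [R.par_natural, reassoc_of% h2]
  rw [h3, tr_comm f2 f1]
  simp only [Category.assoc]
  rw [← Functor.map_comp, SymmetricCategory.symmetry, CategoryTheory.Functor.map_id,
    Category.comp_id]

lemma Phi_trace {X : C} (n : ℕ) (y : R.H.obj (tp X n) ⟶ R.H.obj (tp X n))
    (a : R.H.obj X ⟶ R.H.obj X) (ha : IsPar R false a) :
    tr _ (a ≫ Phi R X n y ≫ R.par X) = tr _ (der R false a n ≫ y ≫ R.par (tp X n)) := by
  induction n with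
  | zero =>
    rw [der_zero, zero_comp, map_zero]
    have : Phi R X 0 y = 0 := rfl
    rw [this, zero_comp, comp_zero, map_zero]
  | succ n ih =>
    have h1 := ih (PT R (Q := tp X n) (X := X) y)
    have h2 := PTL_trace R (Q := tp X n) (X := X) y a ha
    have h3 := trace_PT R (Q := tp X n) (X := X) (der R false a n) y
    rw [Phi_succ, Preadditive.add_comp, Preadditive.comp_add, map_add, h1, h2, tr_apply, h3,
      ← tr_apply, ← map_add, ← Preadditive.add_comp]
    rfl

end

end Pool.Agent.K3h63.CC
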