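import Pool.Agent.K3h63.CC.DerN

/-!
# Consequences of the commutation with derivations, for `M ^ n ⊗ N`
-/

set_option autoImplicit false
set_option linter.unusedSectionVars false
set_option linter.unusedSimpArgs false
set_option backward.isDefEq.respectTransparency false
set_option backward.defeqAttrib.useBackward true

open CategoryTheory Limits MonoidalCategory
open Pool.Agent.Y112.SR Pool.Agent.Y112.KD Pool.Agent.Y112.SC

namespace Pool.Agent.K3h63.CC

universe v u w

open Functor.LaxMonoidal Functor.OplaxMonoidal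

section

variable {C : Type u} [Category.{v} C] [Preadditive C] [MonoidalCategory C] [SymmetricCategory C]
  {K : Type w} [Field K] [CharZero K] {R : SuperRealisation C K}
  (G : Grading R) {X N : C} {n : ℕ} {q : R.H.obj (tp X n ⊗ N) ⟶ R.H.obj (tp X n ⊗ N)}

/-- If a diagonal derivation vanishes on the image of `q` then so do many other ones. -/
lemma killN (hcomm : ∀ (s : Bool) (a : R.H.obj X ⟶ R.H.obj X), IsPar R s a →
      dn R N s a n ≫ q = q ≫ dn R N s a n) {z : ℤ → ℚ}
    (hz : q ≫ dn R N false (G.th X z) n = 0) {i j : ℤ} (hij : z i ≠ z j) :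
    tr _ (G.pr X j) • (q ≫ dn R N false (G.pr X i) n) =
      ((sgn i * sgn j : ℚ) : K) • tr _ (G.pr X i) • (q ≫ dn R N false (G.pr X j) n) := by
  obtain ⟨κ, _, E, E', hE, hE'⟩ := sandwich (R.finite X)
  have hθ := G.th_isPar X z
  have hz' : dn R N false (G.th X z) n ≫ q = 0 := by rw [hcomm _ _ hθ, hz]
  obtain ⟨s, hs⟩ : ∃ s : Bool, (s = false ∧ sgn i = sgn j) ∨ (s = true ∧ sgn i ≠ sgn j) := by
    by_cases h : sgn i = sgn j
    · exact ⟨false, Or.inl ⟨rfl, h⟩⟩
    · exact ⟨true, Or.inr ⟨rfl, h⟩⟩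
  have hs' : (s = false ∧ sgn j = sgn i) ∨ (s = true ∧ sgn j ≠ sgn i) := by
    rcases hs with ⟨h, h'⟩ | ⟨h, h'⟩
    · exact Or.inl ⟨h, h'.symm⟩
    · exact Or.inr ⟨h, Ne.symm h'⟩
  -- the off-diagonal operators are killed
  have off : ∀ (i j : ℤ), z i ≠ z j → ((s = false ∧ sgn i = sgn j) ∨ (s = true ∧ sgn i ≠ sgn j)) →
      ∀ x : R.H.obj X ⟶ R.H.obj X, q ≫ dn R N s (G.pr X i ≫ x ≫ G.pr X j) n = 0 := by
    intro i j hij hs x
    have ha := par_of G hs x
    set a := G.pr X i ≫ x ≫ G.pr X j with ha'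
    have h1 : a ≫ G.th X z - G.th X z ≫ a = ((z j : K) - z i) • a := by
      have e1 : a ≫ G.th X z = (z j : K) • a := by
        rw [ha', Category.assoc, Category.assoc, G.pr_th, Linear.comp_smul, Linear.comp_smul]
      have e2 : G.th X z ≫ a = (z i : K) • a := by
        rw [ha', ← Category.assoc, G.th_pr, Linear.smul_comp]
      rw [e1, e2, sub_smul]
    have h2 := dn_comm R N (s := s) (a := a) hθ n
    rw [h1, dn_smul] at h2
    have h3 : ((z j : K) - z i) • (q ≫ dn R N s a n) = 0 := by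
      rw [← Linear.comp_smul, h2, Preadditive.comp_sub, ← Category.assoc, ← hcomm s a ha,
        Category.assoc, hz, comp_zero, ← Category.assoc, hz, zero_comp, sub_zero]
    rcases smul_eq_zero.mp h3 with h4 | h4
    · exfalso
      apply hij
      have h5 : (z j : K) = (z i : K) := sub_eq_zero.mp h4
      exact (by exact_mod_cast h5 : z j = z i).symm
    · exact h4
  have offa := fun x => off i j hij hs x
  have offb := fun x => off j i (Ne.symm hij) hs' x
  have s1 : ∑ k, (G.pr X i ≫ E k ≫ G.pr X j) ≫ (G.pr X j ≫ E' k ≫ G.pr X i) =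
      tr _ (G.pr X j) • G.pr X i := by
    have e1 : ∀ k, (G.pr X i ≫ E k ≫ G.pr X j) ≫ (G.pr X j ≫ E' k ≫ G.pr X i) =
        G.pr X i ≫ (E k ≫ G.pr X j ≫ E' k) ≫ G.pr X i := by
      intro k
      simp only [Category.assoc]
      rw [← Category.assoc (G.pr X j) (G.pr X j), G.idem]
    simp only [e1]
    rw [← Preadditive.comp_sum, ← Preadditive.sum_comp, hE, Linear.smul_comp, Category.id_comp,
      Linear.comp_smul, G.idem]
  have s2 : ∑ k, (G.pr X j ≫ E' k ≫ G.pr X i) ≫ (G.pr X i ≫ E k ≫ G.pr X j) =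
      tr _ (G.pr X i) • G.pr X j := by
    have e1 : ∀ k, (G.pr X j ≫ E' k ≫ G.pr X i) ≫ (G.pr X i ≫ E k ≫ G.pr X j) =
        G.pr X j ≫ (E' k ≫ G.pr X i ≫ E k) ≫ G.pr X j := by
      intro k
      simp only [Category.assoc]
      rw [← Category.assoc (G.pr X i) (G.pr X i), G.idem]
    simp only [e1]
    rw [← Preadditive.comp_sum, ← Preadditive.sum_comp, hE', Linear.smul_comp, Category.id_comp,
      Linear.comp_smul, G.idem]
  rcases hs with ⟨rfl, hsgn⟩ | ⟨rfl, hsgn⟩
  · have hsg : sgn i * sgn j = 1 := by rw [hsgn]; exact sgn_sq j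
    rw [hsg, Rat.cast_one, one_smul, ← sub_eq_zero, ← Linear.comp_smul, ← Linear.comp_smul,
      ← Preadditive.comp_sub, ← dn_smul, ← dn_smul]
    have h5 : dn R N false (tr _ (G.pr X j) • G.pr X i) n -
        dn R N false (tr _ (G.pr X i) • G.pr X j) n =
        ∑ k, (dn R N false (G.pr X i ≫ E k ≫ G.pr X j) n ≫
          dn R N false (G.pr X j ≫ E' k ≫ G.pr X i) n -
          dn R N false (G.pr X j ≫ E' k ≫ G.pr X i) n ≫
          dn R N false (G.pr X i ≫ E k ≫ G.pr X j) n) := by
      rw [← dnL_apply, ← dnL_apply, ← map_sub, ← s1, ← s2, ← Finset.sum_sub_distrib, map_sum]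
      refine Finset.sum_congr rfl fun k _ => ?_
      rw [dnL_apply, dn_comm R N (s := false) (a := G.pr X i ≫ E k ≫ G.pr X j)
        (par_of G (Or.inl ⟨rfl, hsgn.symm⟩) (E' k))]
    rw [h5, Preadditive.comp_sum]
    refine Finset.sum_eq_zero fun k _ => ?_
    rw [Preadditive.comp_sub, ← Category.assoc, offa, zero_comp, ← Category.assoc, offb,
      zero_comp, sub_zero]
  · have hsg : sgn i * sgn j = -1 := by
      rcases Int.even_or_odd i with hi | hi <;> rcases Int.even_or_odd j with hj | hj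
      · exact absurd (by rw [sgn_even hi, sgn_even hj]) hsgn
      · rw [sgn_even hi, sgn_odd hj]; norm_num
      · rw [sgn_odd hi, sgn_even hj]; norm_num
      · exact absurd (by rw [sgn_odd hi, sgn_odd hj]) hsgn
    rw [hsg, Rat.cast_neg, Rat.cast_one, neg_smul, one_smul, eq_neg_iff_add_eq_zero,
      ← Linear.comp_smul, ← Linear.comp_smul,
      ← Preadditive.comp_add, ← dn_smul, ← dn_smul]
    have h5 : dn R N false (tr _ (G.pr X j) • G.pr X i) n +
        dn R N false (tr _ (G.pr X i) • G.pr X j) n =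
        ∑ k, (dn R N true (G.pr X i ≫ E k ≫ G.pr X j) n ≫
          dn R N true (G.pr X j ≫ E' k ≫ G.pr X i) n +
          dn R N true (G.pr X j ≫ E' k ≫ G.pr X i) n ≫
          dn R N true (G.pr X i ≫ E k ≫ G.pr X j) n) := by
      rw [← dnL_apply, ← dnL_apply, ← map_add, ← s1, ← s2, ← Finset.sum_add_distrib, map_sum]
      refine Finset.sum_congr rfl fun k _ => ?_
      rw [dnL_apply, dn_anti R N (par_of G (Or.inr ⟨rfl, hsgn⟩) (E k))
        (par_of G (Or.inr ⟨rfl, Ne.symm hsgn⟩) (E' k))]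
    rw [h5, Preadditive.comp_sum]
    refine Finset.sum_eq_zero fun k _ => ?_
    rw [Preadditive.comp_add, ← Category.assoc, offa, zero_comp, ← Category.assoc, offb,
      zero_comp, add_zero]

/-- The trace form of the image of `q`. -/
lemma omegaN (hcomm : ∀ (s : Bool) (a : R.H.obj X ⟶ R.H.obj X), IsPar R s a →
      dn R N s a n ≫ q = q ≫ dn R N s a n) {i j : ℤ} (hij : sgn i = sgn j) :
    ∃ ω : K, ∀ z : ℤ → ℚ, tr _ (q ≫ dn R N false (G.th X z) n ≫
      (tr _ (G.pr X j) • dn R N false (G.pr X i) n - tr _ (G.pr X i) • dn R N false (G.pr X j) n)) =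
      ((z i : K) - z j) * ω ∧ tr _ (q ≫ bx R (𝟙 _) (G.deg N) ≫
      (tr _ (G.pr X j) • dn R N false (G.pr X i) n - tr _ (G.pr X i) • dn R N false (G.pr X j) n)) =
      0 := by
  obtain ⟨κ, _, E, E', hE, hE'⟩ := sandwich (R.finite X)
  have s1 : ∑ k, (G.pr X i ≫ E k ≫ G.pr X j) ≫ (G.pr X j ≫ E' k ≫ G.pr X i) =
      tr _ (G.pr X j) • G.pr X i := by
    have e1 : ∀ k, (G.pr X i ≫ E k ≫ G.pr X j) ≫ (G.pr X j ≫ E' k ≫ G.pr X i) =
        G.pr X i ≫ (E k ≫ G.pr X j ≫ E' k) ≫ G.pr X i := by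
      intro k
      simp only [Category.assoc]
      rw [← Category.assoc (G.pr X j) (G.pr X j), G.idem]
    simp only [e1]
    rw [← Preadditive.comp_sum, ← Preadditive.sum_comp, hE, Linear.smul_comp, Category.id_comp,
      Linear.comp_smul, G.idem]
  have s2 : ∑ k, (G.pr X j ≫ E' k ≫ G.pr X i) ≫ (G.pr X i ≫ E k ≫ G.pr X j) =
      tr _ (G.pr X i) • G.pr X j := by
    have e1 : ∀ k, (G.pr X j ≫ E' k ≫ G.pr X i) ≫ (G.pr X i ≫ E k ≫ G.pr X j) =
        G.pr X j ≫ (E' k ≫ G.pr X i ≫ E k) ≫ G.pr X j := by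
      intro k
      simp only [Category.assoc]
      rw [← Category.assoc (G.pr X i) (G.pr X i), G.idem]
    simp only [e1]
    rw [← Preadditive.comp_sum, ← Preadditive.sum_comp, hE', Linear.smul_comp, Category.id_comp,
      Linear.comp_smul, G.idem]
  have h5 : tr _ (G.pr X j) • dn R N false (G.pr X i) n -
      tr _ (G.pr X i) • dn R N false (G.pr X j) n =
      ∑ k, (dn R N false (G.pr X i ≫ E k ≫ G.pr X j) n ≫
        dn R N false (G.pr X j ≫ E' k ≫ G.pr X i) n -
        dn R N false (G.pr X j ≫ E' k ≫ G.pr X i) n ≫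
        dn R N false (G.pr X i ≫ E k ≫ G.pr X j) n) := by
    rw [← dn_smul, ← dn_smul, ← dnL_apply, ← dnL_apply, ← map_sub, ← s1, ← s2,
      ← Finset.sum_sub_distrib, map_sum]
    refine Finset.sum_congr rfl fun k _ => ?_
    rw [dnL_apply, dn_comm R N (s := false) (a := G.pr X i ≫ E k ≫ G.pr X j)
      (par_of G (Or.inl ⟨rfl, hij.symm⟩) (E' k))]
  refine ⟨∑ k, tr _ (q ≫ dn R N false (G.pr X i ≫ E k ≫ G.pr X j) n ≫
    dn R N false (G.pr X j ≫ E' k ≫ G.pr X i) n), fun z => ⟨?_, ?_⟩⟩
  swap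
  · rw [h5, Preadditive.comp_sum, Preadditive.comp_sum, map_sum]
    refine Finset.sum_eq_zero fun k _ => ?_
    have ha : IsPar R false (G.pr X i ≫ E k ≫ G.pr X j) := par_of G (Or.inl ⟨rfl, hij⟩) (E k)
    set a := G.pr X i ≫ E k ≫ G.pr X j with ha'
    set b := G.pr X j ≫ E' k ≫ G.pr X i with hb'
    have hz : dn R N false a n ≫ bx R (𝟙 _) (G.deg N) =
        bx R (𝟙 _) (G.deg N) ≫ dn R N false a n := by
      rw [dn_def, bx_comp, bx_comp, Category.id_comp, Category.comp_id, Category.id_comp,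
        Category.comp_id]
    have h4 : tr _ (q ≫ bx R (𝟙 _) (G.deg N) ≫ dn R N false b n ≫ dn R N false a n) =
        tr _ (q ≫ bx R (𝟙 _) (G.deg N) ≫ dn R N false a n ≫ dn R N false b n) := by
      have e1 : q ≫ bx R (𝟙 _) (G.deg N) ≫ dn R N false b n ≫ dn R N false a n =
          (q ≫ bx R (𝟙 _) (G.deg N) ≫ dn R N false b n) ≫ dn R N false a n := by
        simp only [Category.assoc]
      have e2 : dn R N false a n ≫ (q ≫ bx R (𝟙 _) (G.deg N) ≫ dn R N false b n) =
          q ≫ (dn R N false a n ≫ bx R (𝟙 _) (G.deg N)) ≫ dn R N false b n := by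
        rw [← Category.assoc, hcomm false a ha]
        simp only [Category.assoc]
      rw [e1, tr_swap, e2, hz]
      simp only [Category.assoc]
    rw [Preadditive.comp_sub, Preadditive.comp_sub, map_sub, h4, sub_self]
  rw [h5, Preadditive.comp_sum, Preadditive.comp_sum, map_sum, Finset.mul_sum]
  refine Finset.sum_congr rfl fun k _ => ?_
  have ha : IsPar R false (G.pr X i ≫ E k ≫ G.pr X j) := par_of G (Or.inl ⟨rfl, hij⟩) (E k)
  set a := G.pr X i ≫ E k ≫ G.pr X j with ha'
  set b := G.pr X j ≫ E' k ≫ G.pr X i with hb'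
  have h1 : a ≫ G.th X z - G.th X z ≫ a = ((z j : K) - z i) • a := by
    have e1 : a ≫ G.th X z = (z j : K) • a := by
      rw [ha', Category.assoc, Category.assoc, G.pr_th, Linear.comp_smul, Linear.comp_smul]
    have e2 : G.th X z ≫ a = (z i : K) • a := by
      rw [ha', ← Category.assoc, G.th_pr, Linear.smul_comp]
    rw [e1, e2, sub_smul]
  have h2 := dn_comm R N (s := false) (a := a) (G.th_isPar X z) n
  rw [h1, dn_smul] at h2
  have h3 : dn R N false a n ≫ dn R N false (G.th X z) n =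
      dn R N false (G.th X z) n ≫ dn R N false a n + ((z j : K) - z i) • dn R N false a n := by
    rw [h2]
    abel
  have h4 : tr _ (q ≫ dn R N false (G.th X z) n ≫ dn R N false b n ≫ dn R N false a n) =
      tr _ (q ≫ dn R N false (G.th X z) n ≫ dn R N false a n ≫ dn R N false b n) +
        ((z j : K) - z i) * tr _ (q ≫ dn R N false a n ≫ dn R N false b n) := by
    have e1 : q ≫ dn R N false (G.th X z) n ≫ dn R N false b n ≫ dn R N false a n =
        (q ≫ dn R N false (G.th X z) n ≫ dn R N false b n) ≫ dn R N false a n := by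
      simp only [Category.assoc]
    have e2 : dn R N false a n ≫ (q ≫ dn R N false (G.th X z) n ≫ dn R N false b n) =
        q ≫ (dn R N false a n ≫ dn R N false (G.th X z) n) ≫ dn R N false b n := by
      rw [← Category.assoc, hcomm false a ha]
      simp only [Category.assoc]
    rw [e1, tr_swap, e2, h3, Preadditive.add_comp, Preadditive.comp_add, map_add,
      Linear.smul_comp, Linear.comp_smul, map_smul, smul_eq_mul]
    simp only [Category.assoc]
  rw [Preadditive.comp_sub, Preadditive.comp_sub, map_sub, h4]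
  ring

end

end Pool.Agent.K3h63.CC
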