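import Pool.Agent.K3h63.CC.Sep

/-!
# The Künneth type standard conjecture for Schur functors
-/

set_option autoImplicit false
set_option linter.unusedSectionVars false
set_option linter.unusedSimpArgs false
set_option backward.isDefEq.respectTransparency false
set_option backward.defeqAttrib.useBackward true

open CategoryTheory Limits MonoidalCategory
open Pool.Agent.Y112.SR Pool.Agent.Y112.KD Pool.Agent.Y112.SC

namespace Pool.Agent.K3h63.CC

universe v u w

open Functor.LaxMonoidal Functor.OplaxMonoidal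

section

variable {C : Type u} [Category.{v} C] [Preadditive C] [Linear ℚ C] [MonoidalCategory C]
  [MonoidalPreadditive C] [MonoidalLinear ℚ C] [SymmetricCategory C]
  [RightRigidCategory C] {K : Type w} [Field K] [CharZero K] {R : SuperRealisation C K}
  {L : Subfield K} (G : Grading R)

/-- With coefficients in the prime field the algebraic maps are the realisations of morphisms. -/
lemma algebraic_bot_iff {X Y : C} (x : R.H.obj X ⟶ R.H.obj Y) :
    Algebraic R (⊥ : Subfield K) x ↔ ∃ f : X ⟶ Y, R.H.map f = x := by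
  constructor
  · intro hx
    unfold Algebraic at hx
    induction hx using AddSubgroup.closure_induction with
    | mem z hz =>
      obtain ⟨c, hc, f, rfl⟩ := hz
      obtain ⟨c', rfl⟩ : ∃ c' : ℚ, (c' : K) = c := by
        have h1 : (⊥ : Subfield K) ≤ (algebraMap ℚ K).fieldRange := bot_le
        obtain ⟨c', hc'⟩ := h1 hc
        exact ⟨c', by rw [← hc']; rfl⟩
      exact ⟨c' • f, R_smul R c' f⟩
    | zero => exact ⟨0, Functor.map_zero _ _ _⟩
    | add u v _ _ hu hv =>
      obtain ⟨f, rfl⟩ := hu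
      obtain ⟨g, rfl⟩ := hv
      exact ⟨f + g, Functor.map_add _⟩
    | neg u _ hu =>
      obtain ⟨f, rfl⟩ := hu
      exact ⟨-f, Functor.map_neg _⟩
  · rintro ⟨f, rfl⟩
    exact Algebraic.map f

lemma comm_par {X : C} (v : R.H.obj X ⟶ R.H.obj X) (hv : ∀ i, v ≫ G.pr X i = G.pr X i ≫ v) :
    IsPar R false v := by
  change v ≫ R.par X = R.par X ≫ v
  rw [← G.th_sgn, Grading.th, Preadditive.comp_sum, Preadditive.sum_comp]
  refine Finset.sum_congr rfl fun i _ => ?_
  rw [Linear.comp_smul, Linear.smul_comp, hv]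

/-- The sum of the partial traces of an invariant algebraic operator is diagonal. -/
lemma Phi_diag {X : C} {n : ℕ} {y : R.H.obj (tp X n) ⟶ R.H.obj (tp X n)}
    (hy : Algebraic R L y)
    (hyc : ∀ a : R.H.obj X ⟶ R.H.obj X, IsPar R false a →
      (∀ i, a ≫ G.pr X i = G.pr X i ≫ a) → der R false a n ≫ y = y ≫ der R false a n)
    (hrat : ∀ i, ∃ ρ : ℚ, tr _ (der R false (G.pr X i) n ≫ y ≫ R.par (tp X n)) = ρ) :
    ∃ κ : ℤ → ℚ, Algebraic R L (G.th X κ) ∧ ∀ i, G.pr X i ≠ 0 →
      (κ i : K) * sgn i * tr _ (G.pr X i) =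
        tr _ (der R false (G.pr X i) n ≫ y ≫ R.par (tp X n)) := by
  choose ρ hρ using hrat
  choose b hb hb' using G.dim X
  have hF : Algebraic R L (Phi R X n y) := Algebraic.Phi hy
  set F := Phi R X n y with hFdef
  obtain ⟨ι, _, E, E', hE, hE'⟩ := sandwich (R.finite X)
  let φ : (R.H.obj X ⟶ R.H.obj X) →ₗ[K] K :=
    { toFun := fun a => tr _ (der R false a n ≫ y ≫ R.par (tp X n))
      map_add' := fun a a' => by rw [der_add, Preadditive.add_comp, map_add]
      map_smul' := fun c a => by rw [der_smul, Linear.smul_comp, map_smul, RingHom.id_apply] }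
  have hφ : ∀ a, φ a = tr _ (der R false a n ≫ y ≫ R.par (tp X n)) := fun _ => rfl
  have hcl : ∀ u v : R.H.obj X ⟶ R.H.obj X, (∀ i, u ≫ G.pr X i = G.pr X i ≫ u) →
      (∀ i, v ≫ G.pr X i = G.pr X i ≫ v) → φ (u ≫ v) = φ (v ≫ u) := by
    intro u v hu hv
    have hup := comm_par G u hu
    have hvp := comm_par G v hv
    rw [← sub_eq_zero, ← map_sub, hφ, der_comm R hvp, Preadditive.sub_comp, map_sub, sub_eq_zero]
    have e1 : (der R false u n ≫ der R false v n) ≫ y ≫ R.par (tp X n) =
        der R false u n ≫ (der R false v n ≫ y ≫ R.par (tp X n)) := by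
      simp only [Category.assoc]
    have e2 : (der R false v n ≫ y ≫ R.par (tp X n)) ≫ der R false u n =
        (der R false v n ≫ der R false u n) ≫ y ≫ R.par (tp X n) := by
      have e3 : R.par (tp X n) ≫ der R false u n = der R false u n ≫ R.par (tp X n) :=
        (der_isPar R hup n).symm
      simp only [Category.assoc]
      rw [e3, ← Category.assoc y, ← hyc u hup hu]
      simp only [Category.assoc]
    rw [e1, tr_swap, e2]
  have key : ∀ i, (b i : K) • (G.pr X i ≫ F) = ((sgn i * ρ i : ℚ) : K) • G.pr X i := by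
    intro i
    rw [← sub_eq_zero]
    apply tr_nd (R.finite X)
    intro x
    set a := G.pr X i ≫ x ≫ G.pr X i with ha
    have ha1 : G.pr X i ≫ a = a := by rw [ha, ← Category.assoc, G.idem]
    have ha2 : a ≫ G.pr X i = a := by rw [ha, Category.assoc, Category.assoc, G.idem]
    have hcomm : ∀ (w : R.H.obj X ⟶ R.H.obj X), ∀ j,
        (G.pr X i ≫ w ≫ G.pr X i) ≫ G.pr X j = G.pr X j ≫ (G.pr X i ≫ w ≫ G.pr X i) := by
      intro w j
      by_cases h : j = i
      · subst h
        simp only [Category.assoc]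
        rw [G.idem, ← Category.assoc (G.pr X j) (G.pr X j), G.idem]
      · simp only [Category.assoc]
        rw [G.orth X i j (Ne.symm h), ← Category.assoc (G.pr X j) (G.pr X i),
          G.orth X j i h, zero_comp, comp_zero, comp_zero]
    have hac : ∀ j, a ≫ G.pr X j = G.pr X j ≫ a := hcomm x
    have hpar : R.par X ≫ a = (sgn i : K) • a := by
      rw [← ha1, ← Category.assoc, G.par_pr, Linear.smul_comp]
    have t1 : tr _ (a ≫ F) = (sgn i : K) * φ a := by
      have h1 := Phi_trace R n y a (comm_par G a hac)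
      have h2 : tr _ (a ≫ F ≫ R.par X) = (sgn i : K) * tr _ (a ≫ F) := by
        rw [← Category.assoc, tr_swap, ← Category.assoc, hpar, Linear.smul_comp, map_smul,
          smul_eq_mul]
      have h3 : φ a = (sgn i : K) * tr _ (a ≫ F) := by
        rw [← h2, h1]
        exact hφ a
      have h4 : (sgn i : K) * sgn i = 1 := by exact_mod_cast sgn_sq i
      rw [h3, ← mul_assoc, h4, one_mul]
    have t2 : tr _ (G.pr X i ≫ F ≫ x) = tr _ (a ≫ F) := by
      have h1 : G.pr X i ≫ F ≫ x = G.pr X i ≫ (F ≫ G.pr X i ≫ x) := by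
        have h2 := hF.pr_comm G i
        rw [← Category.assoc F, h2]
        simp only [Category.assoc]
        rw [← Category.assoc (G.pr X i) (G.pr X i), G.idem]
      rw [h1, tr_swap, tr_swap a]
      simp only [Category.assoc, ha]
    have t3 : tr _ (G.pr X i ≫ x) = tr _ a := by
      have h1 : tr _ ((G.pr X i ≫ x) ≫ G.pr X i) = tr _ (G.pr X i ≫ x) := by
        rw [tr_swap, ← Category.assoc, G.idem]
      rw [ha, ← Category.assoc, h1]
    have s1 : ∑ k, (G.pr X i ≫ E k ≫ G.pr X i) ≫ (G.pr X i ≫ E' k ≫ G.pr X i) ≫ a =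
        (b i : K) • a := by
      have e1 : ∀ k, (G.pr X i ≫ E k ≫ G.pr X i) ≫ (G.pr X i ≫ E' k ≫ G.pr X i) ≫ a =
          G.pr X i ≫ (E k ≫ G.pr X i ≫ E' k) ≫ G.pr X i ≫ a := by
        intro k
        simp only [Category.assoc]
        rw [← Category.assoc (G.pr X i) (G.pr X i), G.idem]
      simp only [e1]
      rw [← Preadditive.comp_sum, ← Preadditive.sum_comp, hE, Linear.smul_comp, Category.id_comp,
        Linear.comp_smul, ha1, ha1, hb]
    have s2 : ∑ k, ((G.pr X i ≫ E' k ≫ G.pr X i) ≫ a) ≫ (G.pr X i ≫ E k ≫ G.pr X i) =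
        tr _ a • G.pr X i := by
      have e1 : ∀ k, ((G.pr X i ≫ E' k ≫ G.pr X i) ≫ a) ≫ (G.pr X i ≫ E k ≫ G.pr X i) =
          G.pr X i ≫ (E' k ≫ a ≫ E k) ≫ G.pr X i := by
        intro k
        simp only [Category.assoc]
        rw [← Category.assoc (G.pr X i) a, ha1, ← Category.assoc a (G.pr X i), ha2]
      simp only [e1]
      rw [← Preadditive.comp_sum, ← Preadditive.sum_comp, hE', Linear.smul_comp, Category.id_comp,
        Linear.comp_smul, G.idem]
    have t4 : (b i : K) * φ a = tr _ a * ρ i := by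
      calc (b i : K) * φ a = φ ((b i : K) • a) := by rw [map_smul, smul_eq_mul]
        _ = ∑ k, φ ((G.pr X i ≫ E k ≫ G.pr X i) ≫ ((G.pr X i ≫ E' k ≫ G.pr X i) ≫ a)) := by
          rw [← s1, map_sum]
        _ = ∑ k, φ (((G.pr X i ≫ E' k ≫ G.pr X i) ≫ a) ≫ (G.pr X i ≫ E k ≫ G.pr X i)) := by
          refine Finset.sum_congr rfl fun k _ => hcl _ _ (hcomm _) fun j => ?_
          rw [Category.assoc, hac, ← Category.assoc, hcomm, Category.assoc]
        _ = tr _ a * ρ i := by
          rw [← map_sum, s2, map_smul, smul_eq_mul, hφ, hρ]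
    rw [Preadditive.sub_comp, map_sub, Linear.smul_comp, Linear.smul_comp, map_smul, map_smul,
      Category.assoc, t2, t1, t3, smul_eq_mul, smul_eq_mul]
    push_cast
    linear_combination (sgn i : K) * t4
  refine ⟨fun i => sgn i * ρ i / b i, ?_, fun i hi => ?_⟩
  · have h1 : G.th X (fun i => sgn i * ρ i / b i) = F := by
      apply G.ext
      intro i _
      by_cases hi : G.pr X i = 0
      · rw [hi, zero_comp, zero_comp]
      have hbi : (b i : K) ≠ 0 := by
        intro h
        exact hi (hb' i (by exact_mod_cast h))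
      have h2 := congrArg (fun w => (b i : K)⁻¹ • w) (key i)
      simp only [smul_smul, inv_mul_cancel₀ hbi, one_smul] at h2
      rw [h2, G.pr_th]
      congr 1
      push_cast
      field_simp
    rw [h1]
    exact hF
  · have hbi : (b i : K) ≠ 0 := by
      intro h
      exact hi (hb' i (by exact_mod_cast h))
    have h4 : (sgn i : K) * sgn i = 1 := by exact_mod_cast sgn_sq i
    rw [hρ, hb]
    push_cast
    field_simp
    linear_combination (ρ i : K) * h4

/-- Separation of the degrees by algebraic diagonal operators implies the conjecture. -/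
lemma C_of_sep {X : C} (h : ∀ i j, G.pr X i ≠ 0 → G.pr X j ≠ 0 → i ≠ j →
    ∃ κ : ℤ → ℚ, Algebraic R L (G.th X κ) ∧ κ i ≠ κ j) : G.KunnethC L X := by
  classical
  intro i
  by_cases hi : G.pr X i = 0
  · rw [hi]
    exact Algebraic.zero X X
  have key : ∀ T : Finset ℤ, i ∉ T → ∃ z : ℤ → ℚ, Algebraic R L (G.th X z) ∧ z i = 1 ∧
      ∀ j ∈ T, G.pr X j ≠ 0 → z j = 0 := by
    intro T
    induction T using Finset.induction_on with
    | empty =>
      intro _
      refine ⟨fun _ => 1, ?_, rfl, fun j hj => absurd hj (Finset.notMem_empty j)⟩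
      rw [G.th_one]
      exact Algebraic.one X
    | insert j T hj ih =>
      intro hiT
      rw [Finset.mem_insert, not_or] at hiT
      obtain ⟨z, hz, hz1, hz2⟩ := ih hiT.2
      by_cases hjz : G.pr X j = 0
      · refine ⟨z, hz, hz1, fun l hl hl0 => ?_⟩
        rcases Finset.mem_insert.mp hl with rfl | hl'
        · exact absurd hjz hl0
        · exact hz2 l hl' hl0
      obtain ⟨κ, hκ, hκij⟩ := h i j hi hjz hiT.1
      refine ⟨z * ((κ i - κ j)⁻¹ • (κ - (κ j) • (fun _ => 1))), ?_, ?_, fun l hl hl0 => ?_⟩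
      · rw [← G.th_comp, G.th_smul, G.th_sub, G.th_smul, G.th_one]
        exact hz.comp ((hκ.sub ((Algebraic.one X).rat _)).rat _)
      · have h3 : κ i - κ j ≠ 0 := sub_ne_zero.mpr hκij
        rw [Pi.mul_apply, hz1, Pi.smul_apply, Pi.sub_apply, Pi.smul_apply, smul_eq_mul,
          smul_eq_mul, mul_one, one_mul, inv_mul_cancel₀ h3]
      · rcases Finset.mem_insert.mp hl with rfl | hl'
        · rw [Pi.mul_apply, Pi.smul_apply, Pi.sub_apply, Pi.smul_apply, smul_eq_mul,
            smul_eq_mul, mul_one, sub_self, mul_zero, mul_zero]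
        · rw [Pi.mul_apply, hz2 l hl' hl0, zero_mul]
  obtain ⟨z, hz, hz1, hz2⟩ := key ((G.supp X).erase i) (Finset.notMem_erase i _)
  have h1 : G.th X z = G.pr X i := by
    rw [← G.th_single]
    apply G.th_congr
    intro j hj
    by_cases hji : j = i
    · subst hji
      rw [hz1, Pi.single_eq_same]
    · rw [Pi.single_eq_of_ne hji]
      refine hz2 j (Finset.mem_erase.mpr ⟨hji, ?_⟩) hj
      by_contra h2
      exact hj (G.pr_zero h2)
  rw [← h1]
  exact hz

lemma C_of_deg {X : C} (h : Algebraic R L (G.deg X)) : G.KunnethC L X := by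
  apply C_of_sep
  intro i j _ _ hij
  refine ⟨fun i => (i : ℚ), h, fun h' => hij ?_⟩
  have h2 : (i : ℚ) = (j : ℚ) := h'
  exact_mod_cast h2

lemma C_th {X : C} (h : G.KunnethC L X) (z : ℤ → ℚ) : Algebraic R L (G.th X z) :=
  Algebraic.sum _ fun i _ => (h i).rat _

lemma C_deg_iff {X : C} : G.KunnethC L X ↔ Algebraic R L (G.deg X) :=
  ⟨fun h => C_th G h _, C_of_deg G⟩

lemma C_retract {X T : C} (i : X ⟶ T) (r : T ⟶ X) (hir : i ≫ r = 𝟙 X) (h : G.KunnethC L T) :
    G.KunnethC L X := by
  intro d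
  have h1 : G.pr X d = R.H.map i ≫ G.pr T d ≫ R.H.map r := by
    rw [← G.natural, ← Category.assoc, ← Functor.map_comp, hir, CategoryTheory.Functor.map_id,
      Category.id_comp]
  rw [h1]
  exact (Algebraic.map i).comp ((h d).comp (Algebraic.map r))

lemma Algebraic.bx {X Y : C} {x : R.H.obj X ⟶ R.H.obj X} {y : R.H.obj Y ⟶ R.H.obj Y}
    (hx : Algebraic R L x) (hy : Algebraic R L y) : Algebraic R L (bx R x y) := by
  have e1 : Pool.Agent.Y112.SC.bx R x y =
      Pool.Agent.Y112.SC.bx R x (𝟙 _) ≫ Pool.Agent.Y112.SC.bx R (𝟙 _) y := by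
    rw [bx_comp, Category.id_comp, Category.comp_id]
  rw [e1]
  clear e1
  refine Algebraic.comp ?_ ?_
  · unfold Algebraic at hx
    induction hx using AddSubgroup.closure_induction with
    | mem z hz =>
      obtain ⟨c, hc, f, rfl⟩ := hz
      rw [bx_smul_left, ← map_whiskerRight_eq]
      exact (Algebraic.map _).smul hc
    | zero => rw [bx_zero_left]; exact Algebraic.zero _ _
    | add u v _ _ hu hv => rw [bx_add_left]; exact hu.add hv
    | neg u _ hu => rw [bx_neg_left]; exact hu.neg
  · unfold Algebraic at hy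
    induction hy using AddSubgroup.closure_induction with
    | mem z hz =>
      obtain ⟨c, hc, f, rfl⟩ := hz
      rw [bx_smul_right, ← CategoryTheory.Functor.map_id, bx_map]
      exact (Algebraic.map _).smul hc
    | zero => rw [bx_zero_right]; exact Algebraic.zero _ _
    | add u v _ _ hu hv => rw [bx_add_right]; exact hu.add hv
    | neg u _ hu => rw [bx_neg_right]; exact hu.neg

lemma C_tensor {X Y : C} (hX : G.KunnethC L X) (hY : G.KunnethC L Y) :
    G.KunnethC L (X ⊗ Y) := by
  apply C_of_deg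
  rw [G.deg_tensor]
  exact (Algebraic.bx (C_th G hX _) (Algebraic.one Y)).add
    (Algebraic.bx (Algebraic.one X) (C_th G hY _))

lemma C_tp {X : C} (hX : G.KunnethC L X) (n : ℕ) : G.KunnethC L (tp X n) := by
  induction n with
  | zero =>
    apply C_of_deg
    rw [G.deg_tp, der_zero]
    exact Algebraic.zero _ _
  | succ n ih => exact C_tensor G ih hX

/-- The conjecture descends to tensor factors. -/
lemma C_of_tensor {X Y : C} (hY : ¬ IsZero (R.H.obj Y)) (h : G.KunnethC L (X ⊗ Y)) :
    G.KunnethC L X := by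
  have hfin := finrank_ne_zero R hY
  obtain ⟨m, hm, -⟩ := tr_idem (R.finite Y) (𝟙 (R.H.obj Y)) (Category.comp_id _)
  have hm0 : (m : K) ≠ 0 := by
    rw [← hm, tr_apply, ModuleCat.hom_id, LinearMap.trace_id]
    exact_mod_cast hfin
  have hpp : PT R (R.par (X ⊗ Y)) = (m : K) • R.par X := by
    rw [← bx_par, PT_bx R two_ne_zero, R.par_sq, ← tr_apply, hm]
  have hpar : Algebraic R L (R.par X) := by
    have h1 : Algebraic R L (PT R (R.par (X ⊗ Y))) := by
      rw [← G.th_sgn]
      exact Algebraic.PT (C_th G h _)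
    rw [hpp] at h1
    have h2 := h1.rat ((m : ℚ)⁻¹)
    rw [smul_smul, Rat.cast_inv, Rat.cast_natCast, inv_mul_cancel₀ hm0, one_smul] at h2
    exact h2
  obtain ⟨t, ht⟩ : ∃ t : ℚ, tr _ (G.deg Y) = t := by
    choose b hb hb' using G.dim Y
    refine ⟨∑ i ∈ G.supp Y, (i : ℚ) * b i, ?_⟩
    rw [Grading.deg, Grading.th, map_sum]
    push_cast
    refine Finset.sum_congr rfl fun i _ => ?_
    rw [map_smul, hb, smul_eq_mul]
  have hdp : PT R (G.deg (X ⊗ Y) ≫ R.par (X ⊗ Y)) =
      (m : K) • (G.deg X ≫ R.par X) + (t : K) • R.par X := by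
    rw [G.deg_tensor, ← bx_par, Preadditive.add_comp, bx_comp, bx_comp, Category.id_comp,
      Category.id_comp, PT_add, PT_bx R two_ne_zero, PT_bx R two_ne_zero, R.par_sq, ← tr_apply,
      hm, Category.assoc, R.par_sq, Category.comp_id, ← tr_apply, ht]
  have h1 : Algebraic R L (PT R (G.deg (X ⊗ Y) ≫ R.par (X ⊗ Y))) := by
    apply Algebraic.PT
    refine Algebraic.comp (C_th G h _) ?_
    rw [← G.th_sgn]
    exact C_th G h _
  rw [hdp] at h1
  have h2 := (h1.sub (hpar.rat t)).rat ((m : ℚ)⁻¹)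
  rw [add_sub_cancel_right, smul_smul, Rat.cast_inv, Rat.cast_natCast, inv_mul_cancel₀ hm0,
    one_smul] at h2
  apply C_of_deg
  have h3 := h2.comp hpar
  rwa [Category.assoc, R.par_sq, Category.comp_id] at h3

lemma C_braid {X Y : C} (h : G.KunnethC L (X ⊗ Y)) : G.KunnethC L (Y ⊗ X) :=
  C_retract G (β_ Y X).hom (β_ Y X).inv (by simp) h

/-- The conjecture for tensor products. -/
theorem C_tensor_iff {X Y : C} (hX : ¬ IsZero (R.H.obj X)) (hY : ¬ IsZero (R.H.obj Y)) :
    G.KunnethC L (X ⊗ Y) ↔ G.KunnethC L X ∧ G.KunnethC L Y :=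
  ⟨fun h => ⟨C_of_tensor G hY h, C_of_tensor G hX (C_braid G h)⟩, fun h => C_tensor G h.1 h.2⟩

lemma oneDegree_of {X : C} (d : K) (h : G.deg X = d • 𝟙 _) : G.OneDegree X := by
  have key : ∀ i, G.pr X i ≠ 0 → (i : K) = d := by
    intro i hi
    have h1 : G.pr X i ≫ G.deg X = ((i : ℚ) : K) • G.pr X i := G.pr_th X _ i
    rw [h, Linear.comp_smul, Category.comp_id] at h1
    have h2 : (d - ((i : ℚ) : K)) • G.pr X i = 0 := by rw [sub_smul, h1, sub_self]
    rcases smul_eq_zero.mp h2 with h3 | h3
    · have := sub_eq_zero.mp h3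
      rw [this]
      norm_cast
    · exact absurd h3 hi
  by_cases hex : ∃ i, G.pr X i ≠ 0
  · obtain ⟨i, hi⟩ := hex
    refine ⟨i, fun j hj => ?_⟩
    by_contra h1
    apply hj
    have h2 : (j : K) = (i : K) := by rw [key i hi, key j h1]
    exact_mod_cast h2
  · refine ⟨0, fun j _ => ?_⟩
    by_contra h1
    exact hex ⟨j, h1⟩

/-- The conjecture descends along Schur functors. -/
theorem C_of_schur {M P : C} {n : ℕ} (hP : IsSchurSummand M P n) (hdeg : ¬ G.OneDegree P)
    (h : G.KunnethC L P) : G.KunnethC L M := by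
  obtain ⟨i, r, hir, he⟩ := hP
  set e : End (tp M n) := (r ≫ i : tp M n ⟶ tp M n) with hedef
  have hee : e * e = e := by
    rw [End.mul_def]
    change (r ≫ i) ≫ (r ≫ i) = r ≫ i
    rw [Category.assoc, reassoc_of% hir]
  set q : R.H.obj (tp M n) ⟶ R.H.obj (tp M n) := R.H.map e with hq
  have hqq : q ≫ q = q := by
    rw [hq, ← Functor.map_comp, ← End.mul_def, hee]
  have hqe : q = R.H.map r ≫ R.H.map i := by rw [hq, hedef, Functor.map_comp]
  have hiq : R.H.map i ≫ q ≫ R.H.map r = 𝟙 _ := by
    rw [hqe]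
    simp only [← Functor.map_comp, Category.assoc]
    rw [hir, Category.comp_id, hir, CategoryTheory.Functor.map_id]
  have hcomm : ∀ (s : Bool) (a : R.H.obj M ⟶ R.H.obj M), IsPar R s a →
      der R s a n ≫ q = q ≫ der R s a n := fun s a ha => der_adjoin R ha he
  -- the two exceptional possibilities
  have ex1 : q ≠ 0 := by
    intro h0
    apply hdeg
    refine ⟨0, fun j _ => ?_⟩
    rw [← Category.comp_id (G.pr P j), ← hiq, h0, zero_comp, comp_zero, comp_zero]
  have ex2 : ∀ d : K, q ≫ G.deg (tp M n) ≠ d • q := by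
    intro d hd
    apply hdeg
    apply oneDegree_of G d
    have h1 : G.deg P = R.H.map i ≫ (q ≫ G.deg (tp M n)) ≫ R.H.map r := by
      calc G.deg P = (R.H.map i ≫ q ≫ R.H.map r) ≫ G.deg P := by rw [hiq, Category.id_comp]
        _ = _ := by
          simp only [Category.assoc]
          rw [Grading.deg, Grading.deg, G.th_natural]
    rw [h1, hd, Linear.smul_comp, Linear.comp_smul, hiq]
  have hn : 1 ≤ n := by
    by_contra hn
    have hn0 : n = 0 := by omega
    subst hn0
    apply ex2 0
    rw [G.deg_tp, der_zero, comp_zero, zero_smul]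
  -- the two operators
  have hcp : q ≫ R.par (tp M n) = R.par (tp M n) ≫ q := R.par_natural e
  have hcd : q ≫ G.deg (tp M n) = G.deg (tp M n) ≫ q := G.th_natural e _
  have hpd : G.deg (tp M n) ≫ R.par (tp M n) = R.par (tp M n) ≫ G.deg (tp M n) :=
    G.th_isPar (tp M n) _
  have alg0 : Algebraic R L (q ≫ R.par (tp M n)) := by
    have h1 : q ≫ R.par (tp M n) = R.H.map r ≫ R.par P ≫ R.H.map i := by
      rw [hqe, Category.assoc, R.par_natural]
    rw [h1, ← G.th_sgn P]
    exact (Algebraic.map r).comp ((C_th G h _).comp (Algebraic.map i))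
  have alg1 : Algebraic R L (q ≫ G.deg (tp M n) ≫ R.par (tp M n)) := by
    have h1 : q ≫ G.deg (tp M n) ≫ R.par (tp M n) =
        R.H.map r ≫ (G.deg P ≫ R.par P) ≫ R.H.map i := by
      rw [hqe, Category.assoc, ← Category.assoc (R.H.map i), Grading.deg, Grading.deg,
        G.th_natural, Category.assoc, Category.assoc, R.par_natural]
    rw [h1, ← G.th_sgn P, Grading.deg, G.th_comp]
    exact (Algebraic.map r).comp ((C_th G h _).comp (Algebraic.map i))
  have val0 : ∀ a, IsPar R false a → tr _ (der R false a n ≫ (q ≫ R.par (tp M n)) ≫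
      R.par (tp M n)) = tr _ (q ≫ der R false a n) := by
    intro a ha
    rw [Category.assoc, R.par_sq, Category.comp_id, hcomm false a ha]
  have val1 : ∀ a, IsPar R false a → tr _ (der R false a n ≫ (q ≫ G.deg (tp M n) ≫
      R.par (tp M n)) ≫ R.par (tp M n)) = tr _ (q ≫ G.deg (tp M n) ≫ der R false a n) := by
    intro a ha
    rw [Category.assoc, Category.assoc, R.par_sq, Category.comp_id, tr_swap, Category.assoc]
  obtain ⟨κ0, hκ0, hκ0'⟩ := Phi_diag G alg0
    (fun a ha hac => by
      rw [← Category.assoc, hcomm false a ha, Category.assoc, Category.assoc]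
      congr 1
      exact der_isPar R ha n)
    (fun j => by
      obtain ⟨ρ, hρ, -⟩ := num_pos G hqq hcomm j
      exact ⟨ρ, by rw [val0 _ (pr_isPar G j), hρ]⟩)
  obtain ⟨κ1, hκ1, hκ1'⟩ := Phi_diag G alg1
    (fun a ha hac => by
      have h1 : der R false a n ≫ G.deg (tp M n) = G.deg (tp M n) ≫ der R false a n := by
        have h2 := der_comm R (s := false) (a := a) (G.th_isPar M (fun i => (i : ℚ))) n
        have h3 : a ≫ G.th M (fun i => (i : ℚ)) - G.th M (fun i => (i : ℚ)) ≫ a = 0 := by
          rw [Grading.th, Preadditive.comp_sum, Preadditive.sum_comp, sub_eq_zero]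
          refine Finset.sum_congr rfl fun j _ => ?_
          rw [Linear.comp_smul, Linear.smul_comp, hac]
        have h4 : der R false (0 : R.H.obj M ⟶ R.H.obj M) n = 0 := by
          rw [← derL_apply, map_zero]
        rw [h3, h4] at h2
        rw [G.deg_tp]
        exact (sub_eq_zero.mp h2.symm)
      have h5 : der R false a n ≫ R.par (tp M n) = R.par (tp M n) ≫ der R false a n :=
        der_isPar R ha n
      rw [← Category.assoc, hcomm false a ha]
      simp only [Category.assoc]
      rw [← h5, ← Category.assoc (der R false a n), h1, Category.assoc])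
    (fun j => by
      obtain ⟨ρ, hρ⟩ := num_deg_rat G hqq hcomm j
      exact ⟨ρ, by rw [val1 _ (pr_isPar G j), hρ]⟩)
  apply C_of_sep
  intro a b ha hb hab
  by_contra hcon
  push Not at hcon
  have k0 := hcon κ0 hκ0
  have k1 := hcon κ1 hκ1
  have e0a := hκ0' a ha
  have e0b := hκ0' b hb
  have e1a := hκ1' a ha
  have e1b := hκ1' b hb
  rw [val0 _ (pr_isPar G _)] at e0a e0b
  rw [val1 _ (pr_isPar G _)] at e1a e1b
  rw [k0] at e0a
  rw [k1] at e1a
  rcases sgn_cases a b with hs | hs
  · rcases sep_same G hn hqq hcomm ha hb hab hs (κ1 b) e1a e1b with h1 | ⟨d, hd⟩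
    · exact ex1 h1
    · exact ex2 d hd
  · exact ex1 (sep_parity G hn hqq hcomm ha hb hs (κ0 b) e0a e0b)

/-- The conjecture for Schur functors. -/
theorem C_schur_iff {M P : C} {n : ℕ} (hP : IsSchurSummand M P n) (hdeg : ¬ G.OneDegree P) :
    G.KunnethC L P ↔ G.KunnethC L M := by
  refine ⟨C_of_schur G hP hdeg, fun h => ?_⟩
  obtain ⟨i, r, hir, -⟩ := hP
  exact C_retract G i r hir (C_tp G h n)

end

end Pool.Agent.K3h63.CC
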