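import Pool.Agent.K3h63.CC.KillN

/-!
# Separation of the degrees by algebraic operators, for `M ^ n ⊗ N`
-/

set_option autoImplicit false
set_option linter.unusedSectionVars false
set_option linter.unusedSimpArgs false
set_option backward.isDefEq.respectTransparency false
set_option backward.defeqAttrib.useBackward true

open CategoryTheory Limits MonoidalCategory
open Pool.Agent.Y112.SR Pool.Agent.Y112.KD Pool.Agent.Y112.SC

namespace Pool.Agent.K3h63.CC

universe v u w

open Functor.LaxMonoidal Functor.OplaxMonoidal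

section

variable {C : Type u} [Category.{v} C] [Preadditive C] [MonoidalCategory C] [SymmetricCategory C]
  {K : Type w} [Field K] [CharZero K] {R : SuperRealisation C K}
  (G : Grading R) {X N : C} {n : ℕ} {q : R.H.obj (tp X n ⊗ N) ⟶ R.H.obj (tp X n ⊗ N)}

/-- The number operators have nonnegative traces on the image of `q`. -/
lemma num_posN (hq : q ≫ q = q)
    (hcomm : ∀ (s : Bool) (a : R.H.obj X ⟶ R.H.obj X), IsPar R s a →
      dn R N s a n ≫ q = q ≫ dn R N s a n) (i : ℤ) :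
    ∃ r : ℚ, tr _ (q ≫ dn R N false (G.pr X i) n) = r ∧ 0 ≤ r ∧
      (r = 0 → q ≫ dn R N false (G.pr X i) n = 0) := by
  obtain ⟨ι, _, e, lam, mu, he, heo, h1, h2, h3, h9⟩ := G.famN X N n
  have hT : dn R N false (G.pr X i) n = ∑ k, (lam k (Pi.single i 1) : K) • e k := by
    rw [← h2, G.th_single]
  obtain ⟨r, hr, hr'⟩ := posit (R.finite _) e he heo h1 (fun k => lam k (Pi.single i 1)) q
    (dn R N false (G.pr X i) n) hT hq (hcomm _ _ (pr_isPar G i)).symm (fun x => x)
  have hpos : ∀ k, 0 ≤ lam k (Pi.single i 1) := by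
    intro k
    apply h3
    intro j
    by_cases h : j = i
    · subst h
      rw [Pi.single_eq_same]
      norm_num
    · rw [Pi.single_eq_of_ne h]
  obtain ⟨h4, h5⟩ := hr' hpos
  refine ⟨r, ?_, h4, fun h => h5 h fun k hk => hk⟩
  rw [hT]
  exact hr

/-- The traces of the products with the degree operator are rational. -/
lemma num_deg_ratN (hq : q ≫ q = q)
    (hcomm : ∀ (s : Bool) (a : R.H.obj X ⟶ R.H.obj X), IsPar R s a →
      dn R N s a n ≫ q = q ≫ dn R N s a n)
    (hqd : q ≫ G.deg (tp X n ⊗ N) = G.deg (tp X n ⊗ N) ≫ q) (i : ℤ) :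
    ∃ r : ℚ, tr _ (q ≫ G.deg (tp X n ⊗ N) ≫ dn R N false (G.pr X i) n) = r := by
  obtain ⟨ι, _, e, lam, mu, he, heo, h1, h2, h3, h9⟩ := G.famN X N n
  have hT : dn R N false (G.pr X i) n = ∑ k, (lam k (Pi.single i 1) : K) • e k := by
    rw [← h2, G.th_single]
  have hD : G.deg (tp X n ⊗ N) = ∑ k, (mu k : K) • e k := h9
  have hDT : G.deg (tp X n ⊗ N) ≫ dn R N false (G.pr X i) n =
      ∑ k, ((mu k * lam k (Pi.single i 1) : ℚ) : K) • e k := by
    rw [hD, hT, diag_mul e he heo]
  have hc : q ≫ (G.deg (tp X n ⊗ N) ≫ dn R N false (G.pr X i) n) =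
      (G.deg (tp X n ⊗ N) ≫ dn R N false (G.pr X i) n) ≫ q := by
    rw [Category.assoc, hcomm _ _ (pr_isPar G i), ← Category.assoc, ← Category.assoc, hqd]
  obtain ⟨r, hr, -⟩ := posit (R.finite _) e he heo h1
    (fun k => mu k * lam k (Pi.single i 1)) q
    (G.deg (tp X n ⊗ N) ≫ dn R N false (G.pr X i) n) hDT hq hc (fun x => x)
  refine ⟨r, ?_⟩
  rw [hDT]
  exact hr

/-- A diagonal derivation whose square has trace zero on the image of `q` vanishes there. -/
lemma sq_zeroN (hq : q ≫ q = q)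
    (hcomm : ∀ (s : Bool) (a : R.H.obj X ⟶ R.H.obj X), IsPar R s a →
      dn R N s a n ≫ q = q ≫ dn R N s a n) (z : ℤ → ℚ)
    (h0 : tr _ (q ≫ dn R N false (G.th X z) n ≫ dn R N false (G.th X z) n) = 0) :
    q ≫ dn R N false (G.th X z) n = 0 := by
  obtain ⟨ι, _, e, lam, mu, he, heo, h1, h2, h3, h9⟩ := G.famN X N n
  obtain ⟨r, hr, hr'⟩ := posit (R.finite _) e he heo h1 (fun k => lam k z) q
    (dn R N false (G.th X z) n) (h2 z) hq (hcomm _ _ (G.th_isPar X z)).symm (fun x => x * x)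
  obtain ⟨h4, h5⟩ := hr' (fun k => mul_self_nonneg _)
  apply h5
  · have h6 : tr _ (q ≫ dn R N false (G.th X z) n ≫ dn R N false (G.th X z) n) = (r : K) := by
      rw [← hr, h2 z, diag_mul e he heo]
    rw [h0] at h6
    exact_mod_cast h6.symm
  · intro k hk
    exact mul_self_eq_zero.mp hk

/-- If a letter does not occur in the image of `q` then `q` vanishes. -/
lemma all_zeroN (hn : 1 ≤ n)
    (hcomm : ∀ (s : Bool) (a : R.H.obj X ⟶ R.H.obj X), IsPar R s a →
      dn R N s a n ≫ q = q ≫ dn R N s a n) {i : ℤ} (hi : G.pr X i ≠ 0)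
    (h0 : q ≫ dn R N false (G.pr X i) n = 0) : q = 0 := by
  have h1 : ∀ j, q ≫ dn R N false (G.pr X j) n = 0 := by
    intro j
    by_cases hij : j = i
    · subst hij
      exact h0
    have h2 := killN G (q := q) hcomm (z := Pi.single i 1) (by rw [G.th_single]; exact h0)
      (i := i) (j := j) (by rw [Pi.single_eq_same, Pi.single_eq_of_ne hij]; exact one_ne_zero)
    rw [h0, smul_zero] at h2
    obtain ⟨b, hb, hb'⟩ := G.dim X i
    have h3 : ((sgn i * sgn j : ℚ) : K) ≠ 0 := by
      have h4 : sgn i * sgn j ≠ 0 := by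
        intro h
        have h5 := sgn_sq i
        have h6 := sgn_sq j
        rcases mul_eq_zero.mp h with h7 | h7
        · rw [h7, mul_zero] at h5; exact zero_ne_one h5
        · rw [h7, mul_zero] at h6; exact zero_ne_one h6
      exact_mod_cast h4
    have h4 : tr _ (G.pr X i) ≠ 0 := by
      rw [hb]
      intro h
      exact hi (hb' (by exact_mod_cast h))
    rcases smul_eq_zero.mp h2.symm with h5 | h5
    · exact absurd h5 h3
    · rcases smul_eq_zero.mp h5 with h6 | h6
      · exact absurd h6 h4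
      · exact h6
  have h2 : q ≫ dn R N false (𝟙 (R.H.obj X)) n = 0 := by
    rw [← G.sum_supp X, ← dnL_apply, map_sum, Preadditive.comp_sum]
    exact Finset.sum_eq_zero fun j _ => h1 j
  rw [dn_one, Linear.comp_smul, Category.comp_id] at h2
  rcases smul_eq_zero.mp h2 with h3 | h3
  · exfalso
    have : n = 0 := by exact_mod_cast h3
    omega
  · exact h3

/-- Separation of degrees of different parity. -/
lemma sep_parityN (hn : 1 ≤ n) (hq : q ≫ q = q)
    (hcomm : ∀ (s : Bool) (a : R.H.obj X ⟶ R.H.obj X), IsPar R s a →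
      dn R N s a n ≫ q = q ≫ dn R N s a n) {i j : ℤ} (hi : G.pr X i ≠ 0) (hj : G.pr X j ≠ 0)
    (hsg : sgn i = -sgn j) (k : ℚ) (h1 : (k : K) * sgn i * tr _ (G.pr X i) = tr _ (q ≫ dn R N false (G.pr X i) n))
    (h2 : (k : K) * sgn j * tr _ (G.pr X j) = tr _ (q ≫ dn R N false (G.pr X j) n)) : q = 0 := by
  obtain ⟨r, hr, hr0, hr'⟩ := num_posN G hq hcomm i
  obtain ⟨t, ht, ht0, -⟩ := num_posN G hq hcomm j
  obtain ⟨b, hb, hb'⟩ := G.dim X i
  obtain ⟨c, hc, hc'⟩ := G.dim X j
  rw [hr, hb] at h1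
  rw [ht, hc] at h2
  have e1 : k * sgn i * b = r := by exact_mod_cast h1
  have e2 : k * sgn j * c = t := by exact_mod_cast h2
  rcases eq_or_ne r 0 with h | h
  · exact all_zeroN G hn hcomm hi (hr' h)
  exfalso
  have hrpos : 0 < r := lt_of_le_of_ne hr0 (Ne.symm h)
  have hb0 : (0 : ℚ) ≤ b := Nat.cast_nonneg b
  have hc0 : (0 : ℚ) ≤ c := Nat.cast_nonneg c
  have e3 : 0 < k * sgn i := by
    by_contra h3
    have h4 : k * sgn i * b ≤ 0 := mul_nonpos_of_nonpos_of_nonneg (not_lt.mp h3) hb0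
    rw [e1] at h4
    exact absurd hrpos (not_lt.mpr h4)
  have e4 : k * sgn j < 0 := by
    have h5 : k * sgn i = -(k * sgn j) := by rw [hsg]; ring
    linarith
  have e5 : k * sgn j * c ≤ 0 := mul_nonpos_of_nonpos_of_nonneg e4.le hc0
  have e6 : t = 0 := le_antisymm (by rw [← e2]; exact e5) ht0
  have e7 : (c : ℚ) = 0 := by
    rw [e6] at e2
    rcases mul_eq_zero.mp e2 with h7 | h7
    · exact absurd h7 (ne_of_lt e4)
    · exact h7
  exact hj (hc' (by exact_mod_cast e7))

lemma deg_sumN (c : K) (q : R.H.obj (tp X n ⊗ N) ⟶ R.H.obj (tp X n ⊗ N)) (b : ℤ → K)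
    (h : ∀ w, q ≫ dn R N false (G.pr X w) n = (b w * c) • q) :
    ∃ d : K, q ≫ dn R N false (G.deg X) n = d • q := by
  refine ⟨∑ w ∈ G.supp X, ((w : ℚ) : K) * (b w * c), ?_⟩
  rw [Grading.deg, Grading.th, ← dnL_apply, map_sum, Preadditive.comp_sum,
    Finset.sum_smul]
  refine Finset.sum_congr rfl fun w _ => ?_
  rw [map_smul, dnL_apply, Linear.comp_smul, h, smul_smul]

/-- Separation of degrees of equal parity. -/
lemma sep_sameN (hn : 1 ≤ n) (hq : q ≫ q = q)
    (hcomm : ∀ (s : Bool) (a : R.H.obj X ⟶ R.H.obj X), IsPar R s a →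
      dn R N s a n ≫ q = q ≫ dn R N s a n) {i j : ℤ} (hi : G.pr X i ≠ 0) (hj : G.pr X j ≠ 0)
    (hij : i ≠ j) (hsg : sgn i = sgn j) (k : ℚ)
    (h1 : (k : K) * sgn i * tr _ (G.pr X i) =
      tr _ (q ≫ G.deg (tp X n ⊗ N) ≫ dn R N false (G.pr X i) n))
    (h2 : (k : K) * sgn j * tr _ (G.pr X j) =
      tr _ (q ≫ G.deg (tp X n ⊗ N) ≫ dn R N false (G.pr X j) n)) :
    q = 0 ∨ ∃ d : K, q ≫ dn R N false (G.deg X) n = d • q := by
  obtain ⟨b, hb, hb'⟩ := G.dim X i
  obtain ⟨c, hc, hc'⟩ := G.dim X j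
  have hb0 : 0 < b := Nat.pos_of_ne_zero fun h => hi (hb' h)
  have hc0 : 0 < c := Nat.pos_of_ne_zero fun h => hj (hc' h)
  obtain ⟨ω, hω⟩ := omegaN G hcomm hsg (q := q)
  rw [hb, hc] at hω
  -- the invariant vanishes
  have w0 : ω = 0 := by
    obtain ⟨e0, e0'⟩ := hω (fun i => (i : ℚ))
    have e1 : tr _ (q ≫ G.deg (tp X n ⊗ N) ≫ ((c : K) • dn R N false (G.pr X i) n -
        (b : K) • dn R N false (G.pr X j) n)) = (((i : ℚ) : K) - ((j : ℚ) : K)) * ω := by
      rw [G.deg_dn, Preadditive.add_comp, Preadditive.comp_add, map_add, e0', add_zero]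
      exact e0
    rw [Preadditive.comp_sub, Preadditive.comp_sub, Linear.comp_smul, Linear.comp_smul,
      Linear.comp_smul, Linear.comp_smul, map_sub, map_smul, map_smul, ← h1, ← h2, hb, hc, hsg,
      smul_eq_mul, smul_eq_mul] at e1
    have e2 : (((i : ℚ) : K) - ((j : ℚ) : K)) * ω = 0 := by rw [← e1]; ring
    rcases mul_eq_zero.mp e2 with h | h
    · exfalso
      apply hij
      have e3 : ((i : ℚ) : K) = ((j : ℚ) : K) := sub_eq_zero.mp h
      exact_mod_cast e3
    · exact h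
  set z : ℤ → ℚ := (c : ℚ) • Pi.single i 1 - (b : ℚ) • Pi.single j 1 with hz
  have hzi : z i = c := by
    rw [hz, Pi.sub_apply, Pi.smul_apply, Pi.smul_apply, Pi.single_eq_same,
      Pi.single_eq_of_ne hij, smul_eq_mul, smul_eq_mul, mul_one, mul_zero, sub_zero]
  have hzw : ∀ w, w ≠ i → z i ≠ z w := by
    intro w hw
    rw [hzi, hz, Pi.sub_apply, Pi.smul_apply, Pi.smul_apply, Pi.single_eq_of_ne hw, smul_eq_mul,
      smul_eq_mul, mul_zero, zero_sub]
    have hcq : (0 : ℚ) < c := by exact_mod_cast hc0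
    have hbq : (0 : ℚ) < b := by exact_mod_cast hb0
    by_cases h : w = j
    · subst h
      rw [Pi.single_eq_same, mul_one]
      intro h'
      linarith
    · rw [Pi.single_eq_of_ne h, mul_zero, neg_zero]
      exact ne_of_gt hcq
  have hT : dn R N false (G.th X z) n =
      (c : K) • dn R N false (G.pr X i) n - (b : K) • dn R N false (G.pr X j) n := by
    rw [hz, G.th_sub, G.th_smul, G.th_smul, G.th_single, G.th_single, ← dnL_apply, map_sub,
      map_smul, map_smul, dnL_apply, dnL_apply, Rat.cast_natCast, Rat.cast_natCast]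
  have hqT : q ≫ dn R N false (G.th X z) n = 0 := by
    apply sq_zeroN G hq hcomm
    nth_rewrite 2 [hT]
    rw [(hω z).1, w0, mul_zero]
  have hk : ∀ w, w ≠ i → tr _ (G.pr X w) • (q ≫ dn R N false (G.pr X i) n) =
      ((sgn i * sgn w : ℚ) : K) • tr _ (G.pr X i) • (q ≫ dn R N false (G.pr X w) n) :=
    fun w hw => killN G hcomm hqT (hzw w hw)
  obtain ⟨r, hr, hr0, hr'⟩ := num_posN G hq hcomm i
  by_cases hodd : ∃ w, G.pr X w ≠ 0 ∧ sgn i = -sgn w
  · -- both parities occur
    left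
    obtain ⟨w, hw, hsw⟩ := hodd
    have hwi : w ≠ i := by
      rintro rfl
      have h5 := sgn_sq w
      have h6 : sgn w = 0 := by linarith
      rw [h6, mul_zero] at h5
      exact zero_ne_one h5
    have e1 := congrArg (tr _) (hk w hwi)
    obtain ⟨t, ht, ht0, -⟩ := num_posN G hq hcomm w
    obtain ⟨a, ha, ha'⟩ := G.dim X w
    have hs2 : sgn i * sgn w = -1 := by
      rw [hsw, neg_mul, sgn_sq]
    rw [map_smul, map_smul, map_smul, hr, ht, ha, hb, hs2, smul_eq_mul, smul_eq_mul,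
      smul_eq_mul] at e1
    have e2 : (a : ℚ) * r = -1 * (b * t) := by exact_mod_cast e1
    have ha0 : (0 : ℚ) < a := by
      have : 0 < a := Nat.pos_of_ne_zero fun h => hw (ha' h)
      exact_mod_cast this
    have hbq : (0 : ℚ) < b := by exact_mod_cast hb0
    have e3 : r = 0 := by
      have h7 : 0 ≤ (b : ℚ) * t := mul_nonneg hbq.le ht0
      have h8 : (a : ℚ) * r ≤ 0 := by rw [e2]; linarith
      by_contra h9
      have h10 : 0 < r := lt_of_le_of_ne hr0 (Ne.symm h9)
      have h11 : 0 < (a : ℚ) * r := mul_pos ha0 h10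
      linarith
    exact all_zeroN G hn hcomm hi (hr' e3)
  · -- the realisation is pure
    right
    have hbK : (b : K) ≠ 0 := by exact_mod_cast hb0.ne'
    have h3 : ∀ w, q ≫ dn R N false (G.pr X w) n =
        (tr _ (G.pr X w) * (b : K)⁻¹) • (q ≫ dn R N false (G.pr X i) n) := by
      intro w
      by_cases hwi : w = i
      · subst hwi
        rw [hb, mul_inv_cancel₀ hbK, one_smul]
      by_cases hw : G.pr X w = 0
      · rw [hw, map_zero, zero_mul, zero_smul]
        have h4 : dn R N false (0 : R.H.obj X ⟶ R.H.obj X) n = 0 := by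
          rw [← dnL_apply, map_zero]
        rw [h4, comp_zero]
      · have hsw : sgn i = sgn w := by
          rcases sgn_cases i w with h | h
          · exact h
          · exact absurd ⟨w, hw, h⟩ hodd
        have h4 := hk w hwi
        rw [hsw, sgn_sq, Rat.cast_one, one_smul, hb] at h4
        rw [mul_comm, mul_smul, h4, smul_smul, inv_mul_cancel₀ hbK, one_smul]
    have h4 : (n : K) • q = ((∑ w ∈ G.supp X, tr _ (G.pr X w)) * (b : K)⁻¹) •
        (q ≫ dn R N false (G.pr X i) n) := by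
      calc (n : K) • q = q ≫ dn R N false (𝟙 (R.H.obj X)) n := by
            rw [dn_one, Linear.comp_smul, Category.comp_id]
        _ = _ := by
          rw [← G.sum_supp X, ← dnL_apply, map_sum, Preadditive.comp_sum, Finset.sum_mul,
            Finset.sum_smul]
          exact Finset.sum_congr rfl fun w _ => h3 w
    have h5 : (∑ w ∈ G.supp X, tr _ (G.pr X w)) ≠ 0 := by
      rw [← map_sum, G.sum_supp]
      intro h0
      obtain ⟨m, hm, hm'⟩ := tr_idem (R.finite X) (𝟙 (R.H.obj X)) (Category.comp_id _)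
      rw [h0] at hm
      have h6 := hm' (by exact_mod_cast hm.symm)
      apply hi
      rw [← Category.comp_id (G.pr X i), h6, comp_zero]
    have h6 : q ≫ dn R N false (G.pr X i) n =
        ((∑ w ∈ G.supp X, tr _ (G.pr X w))⁻¹ * (b : K) * n) • q := by
      rw [mul_smul, h4, smul_smul]
      have h7 : (∑ w ∈ G.supp X, tr _ (G.pr X w))⁻¹ * (b : K) *
          ((∑ w ∈ G.supp X, tr _ (G.pr X w)) * (b : K)⁻¹) = 1 := by
        field_simp
      rw [h7, one_smul]
    apply deg_sumN G ((b : K)⁻¹ * ((∑ w ∈ G.supp X, tr _ (G.pr X w))⁻¹ * (b : K) * n)) q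
      (fun w => tr _ (G.pr X w))
    intro w
    rw [h3, h6, smul_smul]
    congr 1
    ring

end

end Pool.Agent.K3h63.CC
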